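import Mathlib

open Real Finset

namespace Pool.Agent.H84_hrt

lemma two_mul_abs_sub_round_le (x : ℝ) : 2 * |x - round x| ≤ |sin (π * x)| := by
  have h1 : |sin (π * x)| = |sin (π * (x - round x))| := by
    have : π * (x - round x) = π * x - (round x : ℤ) * π := by ring
    rw [this, sin_sub_int_mul_pi, abs_mul, abs_zpow, abs_neg, abs_one, one_zpow, one_mul]
  have h2 : |sin (π * (x - round x))| = |sin (π * |x - round x|)| := by
    rcases abs_cases (x - round x) with ⟨h, _⟩ | ⟨h, _⟩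
    · rw [h]
    · rw [h, mul_neg, sin_neg, abs_neg]
  have hr := abs_sub_round x
  have h3 : 2 * |x - round x| ≤ sin (π * |x - round x|) := by
    have := mul_le_sin (x := π * |x - round x|) (by positivity) (by nlinarith [pi_pos])
    have e : 2 / π * (π * |x - round x|) = 2 * |x - round x| := by field_simp
    linarith
  rw [h1, h2]
  exact h3.trans (le_abs_self _)

lemma int_sq_ne (K M : ℤ) (hM : M ≠ 0) : K^2 ≠ 2 * M^2 := by
  intro h
  have hirr := irrational_sqrt_two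
  apply hirr
  refine ⟨|(K:ℚ)| / |(M:ℚ)|, ?_⟩
  have hM' : (M:ℝ) ≠ 0 := by exact_mod_cast hM
  have h' : (K:ℝ)^2 = 2 * (M:ℝ)^2 := by exact_mod_cast h
  have h2 : (|(K:ℝ)| / |(M:ℝ)|)^2 = 2 := by
    rw [div_pow, sq_abs, sq_abs, h']
    field_simp
  push_cast
  rw [← h2, Real.sqrt_sq (by positivity)]

/-- Quantitative non-resonance: away from the main family the frequencies `√2 (A + θ B)` stay away from ℤ. -/
lemma nonres (θ δ : ℝ) (q p : ℕ) (hq : 0 < q) (hpq : p ≤ q) (hθ : θ * q = p + δ) (hδ : 0 ≤ δ)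
    (n : ℕ) (hn : 1 ≤ n) (hsmall : 16 * (δ * n^2 * q) ≤ 1) (A B : ℤ) (hA : |A| ≤ n) (hB : |B| ≤ n)
    (hAB : A * q + B * p ≠ 0) :
    1 / (10 * (q:ℝ)^2 * n) ≤ |sin (π * (√2 * (A + θ * B)))| := by
  set x : ℝ := √2 * (A + θ * B) with hx
  set k : ℤ := round x with hk
  set M : ℤ := A * q + B * p with hM
  have hq' : (0:ℝ) < q := by exact_mod_cast hq
  have hq1 : (1:ℝ) ≤ q := by exact_mod_cast hq
  have hn' : (1:ℝ) ≤ n := by exact_mod_cast hn
  have hpq' : (p:ℝ) ≤ q := by exact_mod_cast hpq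
  have hA' : |(A:ℝ)| ≤ n := by exact_mod_cast hA
  have hB' : |(B:ℝ)| ≤ n := by exact_mod_cast hB
  have h2a : √2 < 1.415 := by rw [Real.sqrt_lt' (by norm_num)]; norm_num
  have h2b : 0 < √2 := by positivity
  have hxq : x * q = √2 * (M + B * δ) := by
    have : (A + θ * B) * q = M + B * δ := by
      rw [hM]; push_cast
      have : (A + θ * B) * q = A * q + (θ * q) * B := by ring
      rw [this, hθ]; ring
    rw [hx, mul_assoc, this]
  have hMabs : |(M:ℝ)| ≤ 2 * n * q := by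
    have : (M:ℝ) = A * q + B * p := by rw [hM]; push_cast; ring
    rw [this]
    calc |(A:ℝ) * q + B * p| ≤ |(A:ℝ) * q| + |(B:ℝ) * p| := abs_add_le _ _
      _ = |(A:ℝ)| * q + |(B:ℝ)| * p := by rw [abs_mul, abs_mul, Nat.abs_cast, Nat.abs_cast]
      _ ≤ n * q + n * q := by
          have h1 : |(A:ℝ)| * q ≤ n * q := mul_le_mul_of_nonneg_right hA' hq'.le
          have h2 : |(B:ℝ)| * p ≤ n * q := mul_le_mul hB' hpq' (by positivity) (by positivity)
          linarith
      _ = 2 * n * q := by ring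
  have hnδ : √2 * (n * δ) ≤ 0.0885 / (n * q) := by
    rw [le_div_iff₀ (by positivity)]
    have : √2 * (n * δ) * (n * q) = √2 * (δ * n^2 * q) := by ring
    rw [this]
    have h3 : δ * n^2 * q ≤ 1/16 := by linarith
    have h4 : 0 ≤ δ * n^2 * q := by positivity
    nlinarith
  have hBδ : |√2 * (B * δ)| ≤ √2 * (n * δ) := by
    rw [abs_mul, abs_of_pos h2b, abs_mul, abs_of_nonneg hδ]
    exact mul_le_mul_of_nonneg_left (mul_le_mul_of_nonneg_right hB' hδ) h2b.le
  have hnqpos : 1 ≤ (n:ℝ) * q := by nlinarith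
  have hsm : √2 * (n * δ) ≤ 0.0885 := by
    refine hnδ.trans ?_
    rw [div_le_iff₀ (by positivity)]
    nlinarith
  -- the integer inequality
  have hint : 1 ≤ |((k * q)^2 - 2 * M^2 : ℤ)| := by
    apply Int.one_le_abs
    intro h0
    exact int_sq_ne (k * q) M hAB (by linarith)
  have hint' : (1:ℝ) ≤ |((k:ℝ) * q)^2 - 2 * (M:ℝ)^2| := by exact_mod_cast hint
  have hfac : ((k:ℝ) * q)^2 - 2 * (M:ℝ)^2 = (k * q - √2 * M) * (k * q + √2 * M) := by
    have : √2 ^ 2 = 2 := Real.sq_sqrt (by norm_num)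
    ring_nf
    rw [this]
  rw [hfac, abs_mul] at hint'
  have hround := abs_sub_round x
  rw [← hk] at hround
  have hkq : |(k:ℝ) * q| ≤ √2 * |(M:ℝ)| + q := by
    have : (k:ℝ) * q = √2 * M + √2 * (B * δ) - (x - k) * q := by
      have : (x - k) * q = x * q - k * q := by ring
      rw [this, hxq]; ring
    rw [this]
    calc |√2 * M + √2 * (B * δ) - (x - k) * q| ≤ |√2 * M + √2 * (B * δ)| + |(x - k) * q| := abs_sub _ _
      _ ≤ |√2 * M| + |√2 * (B * δ)| + |(x - k) * q| := by linarith [abs_add_le (√2 * (M:ℝ)) (√2 * (B * δ))]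
      _ ≤ √2 * |(M:ℝ)| + 0.0885 + 1/2 * q := by
          rw [abs_mul √2 (M:ℝ), abs_of_pos h2b, abs_mul (x - k), Nat.abs_cast]
          have := mul_le_mul_of_nonneg_right hround hq'.le
          linarith
      _ ≤ _ := by linarith
  have hsum : |(k:ℝ) * q + √2 * M| ≤ 7 * (n * q) := by
    calc |(k:ℝ) * q + √2 * M| ≤ |(k:ℝ) * q| + |√2 * M| := abs_add_le _ _
      _ ≤ √2 * |(M:ℝ)| + q + √2 * |(M:ℝ)| := by rw [abs_mul √2 (M:ℝ), abs_of_pos h2b]; linarith
      _ ≤ 7 * (n * q) := by nlinarith [abs_nonneg (M:ℝ)]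
  have hdiff : 1 / (7 * (n * q)) ≤ |(k:ℝ) * q - √2 * M| := by
    rw [div_le_iff₀ (by positivity)]
    calc (1:ℝ) ≤ |(k:ℝ) * q - √2 * M| * |(k:ℝ) * q + √2 * M| := hint'
      _ ≤ |(k:ℝ) * q - √2 * M| * (7 * (n * q)) := mul_le_mul_of_nonneg_left hsum (abs_nonneg _)
  have hdist : 1 / (20 * (n * q)) ≤ |x - k| * q := by
    have e : |x - k| * q = |√2 * (B * δ) - (k * q - √2 * M)| := by
      rw [← Nat.abs_cast q, ← abs_mul, Nat.abs_cast]
      have : (x - k) * q = x * q - k * q := by ring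
      rw [this, hxq]; congr 1; ring
    rw [e]
    have h1 : |(k:ℝ) * q - √2 * M| - |√2 * (B * δ)| ≤ |√2 * (B * δ) - (k * q - √2 * M)| := by
      rw [abs_sub_comm (√2 * (B * δ)) (k * q - √2 * M)]
      exact abs_sub_abs_le_abs_sub ((k:ℝ) * q - √2 * M) (√2 * (B * δ))
    have h2 : 1 / (20 * (n * q : ℝ)) ≤ 1 / (7 * (n * q)) - 0.0885 / (n * q) := by
      have : (0:ℝ) < n * q := by positivity
      have e1 : 1 / (7 * (n * q : ℝ)) - 0.0885 / (n * q) = (1/7 - 0.0885) / (n * q) := by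
        field_simp
      have e2 : 1 / (20 * (n * q : ℝ)) = (1/20) / (n * q) := by field_simp
      rw [e1, e2]
      apply div_le_div_of_nonneg_right _ this.le
      norm_num
    linarith
  have hfin := two_mul_abs_sub_round_le x
  rw [← hk] at hfin
  refine le_trans ?_ hfin
  have : 1 / (10 * (q:ℝ)^2 * n) = 2 * (1 / (20 * (n * q)) / q) := by field_simp; norm_num
  rw [this]
  apply mul_le_mul_of_nonneg_left _ (by norm_num)
  rw [div_le_iff₀ hq']
  exact hdist

end Pool.Agent.H84_hrt
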