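import Pool.Agent.H84_hrt.Defs

/-! Task A of the HRT counterexample (owner helper84), proved by helper62:
facts on `kk`, `sq`, `PP`, `LL`, `Psi`. -/

open Real Finset MeasureTheory

namespace Pool.Agent.H84_hrt

theorem kk_nonneg (n : ℕ) : 0 ≤ kk n := by
  unfold kk
  exact prod_nonneg fun i _ => by positivity

theorem kk_succ (n : ℕ) : kk (n+1) = kk n * ((2 * (n:ℝ) + 1) / (2 * n + 2)) := by
  unfold kk
  rw [prod_range_succ]

theorem kk_zero : kk 0 = 1 := by
  unfold kk
  simp

theorem kk_sq_le (n : ℕ) : kk n ^ 2 ≤ 1 / (2 * n + 1) := by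
  induction n with
  | zero => simp [kk_zero]
  | succ n ih =>
    rw [kk_succ, mul_pow]
    have h1 : (kk n)^2 * ((2 * (n:ℝ) + 1) / (2 * n + 2))^2 ≤
        1 / (2 * (n:ℝ) + 1) * ((2 * (n:ℝ) + 1) / (2 * n + 2))^2 :=
      mul_le_mul_of_nonneg_right ih (sq_nonneg _)
    refine h1.trans ?_
    have hn : (0:ℝ) ≤ n := Nat.cast_nonneg n
    rw [div_pow, div_mul_div_comm, one_mul]
    push_cast
    rw [div_le_div_iff₀ (by positivity) (by positivity)]
    nlinarith [mul_nonneg hn hn, mul_nonneg hn (mul_nonneg hn hn)]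

theorem kk_ge (n : ℕ) (hn : 1 ≤ n) : 1 / (2 * (n:ℝ)) ≤ kk n := by
  induction n, hn using Nat.le_induction with
  | base => simp [kk_succ, kk_zero]
  | succ n hn ih =>
    rw [kk_succ]
    have hn' : (1:ℝ) ≤ n := by exact_mod_cast hn
    have h1 : 1 / (2 * (n:ℝ)) * ((2 * (n:ℝ) + 1) / (2 * n + 2)) ≤
        kk n * ((2 * (n:ℝ) + 1) / (2 * n + 2)) :=
      mul_le_mul_of_nonneg_right ih (by positivity)
    refine le_trans ?_ h1
    push_cast
    rw [div_mul_div_comm, div_le_div_iff₀ (by positivity) (by positivity)]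
    nlinarith

theorem sq_coe (x : ℝ) : sq (x : UnitAddCircle) = sin (π * x) ^ 2 := by
  unfold sq
  rw [fourier_coe_apply]
  have : (2 * (π:ℂ) * Complex.I * ((1:ℤ):ℂ) * (x:ℂ) / ((1:ℝ):ℂ)) = ((2 * (π * x) : ℝ) : ℂ) * Complex.I := by
    push_cast
    ring
  rw [this, Complex.exp_ofReal_mul_I_re, Real.cos_two_mul, Real.sin_sq]
  ring

theorem sq_nonneg' (y : UnitAddCircle) : 0 ≤ sq y := by
  induction y using QuotientAddGroup.induction_on with
  | H x => rw [show ((x : ℝ ⧸ _) : UnitAddCircle) = ((x:ℝ) : UnitAddCircle) from rfl, sq_coe]; positivity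

theorem sq_le_one' (y : UnitAddCircle) : sq y ≤ 1 := by
  induction y using QuotientAddGroup.induction_on with
  | H x =>
    rw [show ((x : ℝ ⧸ _) : UnitAddCircle) = ((x:ℝ) : UnitAddCircle) from rfl, sq_coe]
    exact Real.sin_sq_le_one _

theorem continuous_sq : Continuous sq := by
  unfold sq
  fun_prop

theorem PP_nonneg {E : ℕ} (y : TT E) : 0 ≤ PP y :=
  prod_nonneg fun _ _ => sq_nonneg' _

theorem PP_le_one {E : ℕ} (y : TT E) : PP y ≤ 1 :=
  prod_le_one (fun _ _ => sq_nonneg' _) fun _ _ => sq_le_one' _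

theorem continuous_PP {E : ℕ} : Continuous (PP : TT E → ℝ) := by
  unfold PP
  exact continuous_finsetProd _ fun i _ => continuous_sq.comp (continuous_apply i)

theorem integral_sq_pow (n : ℕ) : ∫ y : UnitAddCircle, sq y ^ n = kk n := by
  rw [← UnitAddCircle.intervalIntegral_preimage 0]
  simp only [sq_coe, zero_add]
  have h := integral_sin_pow_even n
  have h2 : ∫ x in (0:ℝ)..1, (sin (π * x) ^ 2) ^ n = π⁻¹ • ∫ x in (π * 0)..(π * 1), sin x ^ (2 * n) := by
    rw [← intervalIntegral.integral_comp_mul_left (fun x => sin x ^ (2*n)) pi_ne_zero]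
    simp only [pow_mul]
  rw [h2, mul_zero, mul_one, h, smul_eq_mul, ← mul_assoc, inv_mul_cancel₀ pi_ne_zero, one_mul]
  rfl

theorem integral_PP_pow {E : ℕ} (n : ℕ) : ∫ y : TT E, PP y ^ n = kk n ^ E := by
  have h := integral_fintype_prod_volume_eq_pow (ι := Fin E) (𝕜 := ℝ) (E := UnitAddCircle) (fun y => sq y ^ n)
  simp only [Fintype.card_fin, integral_sq_pow] at h
  rw [← h]
  refine integral_congr_ae (Filter.Eventually.of_forall fun y => ?_)
  simp only [PP, prod_pow]

theorem integrable_PP_pow {E : ℕ} (n : ℕ) : Integrable (fun y : TT E => PP y ^ n) := by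
  refine Integrable.mono' (g := fun _ => (1:ℝ)) (integrable_const _)
    (continuous_PP.pow n).aestronglyMeasurable (Filter.Eventually.of_forall fun y => ?_)
  rw [Real.norm_of_nonneg (pow_nonneg (PP_nonneg y) n)]
  exact pow_le_one₀ (PP_nonneg y) (PP_le_one y)

theorem kk_le_one (n : ℕ) : kk n ≤ 1 := by
  have h := kk_sq_le n
  have h1 : (1:ℝ) / (2 * n + 1) ≤ 1 := by
    rw [div_le_one (by positivity)]
    have : (0:ℝ) ≤ n := Nat.cast_nonneg n
    linarith
  nlinarith [kk_nonneg n]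

theorem kk_pow_le {E : ℕ} (hE : 4 ≤ E) (n : ℕ) : kk (n+1) ^ E ≤ 1 / ((n:ℝ)+1)^2 := by
  have h1 : kk (n+1) ^ E ≤ kk (n+1) ^ 4 := pow_le_pow_of_le_one (kk_nonneg _) (kk_le_one _) hE
  have h2 : kk (n+1) ^ 4 ≤ (1 / (2 * ((n+1 : ℕ):ℝ) + 1))^2 := by
    calc kk (n+1) ^ 4 = (kk (n+1) ^ 2)^2 := by ring
      _ ≤ _ := pow_le_pow_left₀ (sq_nonneg _) (kk_sq_le _) 2
  refine (h1.trans h2).trans ?_
  rw [div_pow, one_pow]
  push_cast
  have hn : (0:ℝ) ≤ n := Nat.cast_nonneg n
  exact one_div_le_one_div_of_le (by positivity) (pow_le_pow_left₀ (by positivity) (by linarith) 2)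

theorem summable_one_div_sq : Summable (fun n : ℕ => 1 / ((n:ℝ)+1)^2) := by
  have h := (summable_nat_add_iff 1).mpr (Real.summable_one_div_nat_pow.mpr (by norm_num : 1 < 2))
  simpa using h

theorem summable_kk {E : ℕ} (hE : 4 ≤ E) : Summable (fun n : ℕ => kk (n+1) ^ E) :=
  Summable.of_nonneg_of_le (fun _ => pow_nonneg (kk_nonneg _) _) (fun n => kk_pow_le hE n)
    summable_one_div_sq

theorem ae_PP_lt_one {E : ℕ} (hE : 4 ≤ E) : ∀ᵐ y : TT E, PP y < 1 := by
  have key : (volume : Measure (TT E)) {y | PP y = 1} = 0 := by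
    have hm : MeasurableSet {y : TT E | PP y = 1} :=
      measurableSet_eq_fun continuous_PP.measurable measurable_const
    have hb : ∀ n : ℕ, (volume : Measure (TT E)).real {y | PP y = 1} ≤ kk n ^ E := by
      intro n
      rw [← integral_PP_pow (E := E) n]
      calc (volume : Measure (TT E)).real {y | PP y = 1}
          = ∫ y in {y : TT E | PP y = 1}, PP y ^ n := by
            rw [setIntegral_congr_fun (g := fun _ => (1:ℝ)) hm (fun y hy => by
              have hy' : PP y = 1 := hy; simp [hy'])]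
            simp
        _ ≤ _ := setIntegral_le_integral (integrable_PP_pow n)
            (Filter.Eventually.of_forall fun y => pow_nonneg (PP_nonneg y) n)
    have h0 : Filter.Tendsto (fun n : ℕ => kk (n+1) ^ E) Filter.atTop (nhds 0) :=
      (summable_kk hE).tendsto_atTop_zero
    have h1 : (volume : Measure (TT E)).real {y | PP y = 1} ≤ 0 :=
      ge_of_tendsto' h0 fun n => hb (n+1)
    have h2 : (volume : Measure (TT E)).real {y | PP y = 1} = 0 := le_antisymm h1 measureReal_nonneg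
    exact (measureReal_eq_zero_iff).mp h2
  rw [ae_iff]
  refine measure_mono_null (fun y hy => ?_) key
  have hy' : ¬ PP y < 1 := hy
  exact le_antisymm (PP_le_one y) (not_lt.mp hy')

theorem measurable_LL {E : ℕ} : Measurable (fun z : ℝ × TT E => LL z.1 z.2) := by
  unfold LL
  have h : Measurable (fun z : ℝ × TT E => PP z.2) := continuous_PP.measurable.comp measurable_snd
  exact (Real.measurable_log.comp (measurable_const.sub (measurable_fst.mul h))).neg

theorem measurable_LL_right {E : ℕ} (w : ℝ) : Measurable (LL w : TT E → ℝ) :=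
  measurable_LL.comp (measurable_const.prodMk measurable_id)

theorem LL_nonneg {E : ℕ} {w : ℝ} (h0 : 0 ≤ w) (h1 : w ≤ 1) (y : TT E) : 0 ≤ LL w y := by
  unfold LL
  have h2 := PP_nonneg y
  have h3 := PP_le_one y
  have h4 : 0 ≤ w * PP y := mul_nonneg h0 h2
  have h5 : w * PP y ≤ 1 := mul_le_one₀ h1 h2 h3
  have := Real.log_nonpos (x := 1 - w * PP y) (by linarith) (by linarith)
  linarith

theorem LL_le {E : ℕ} {w : ℝ} (h0 : 0 ≤ w) (h1 : w ≤ 1) (y : TT E) (hy : PP y < 1) : LL w y ≤ LL 1 y := by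
  unfold LL
  have h2 := PP_nonneg y
  have h3 : w * PP y ≤ 1 * PP y := mul_le_mul_of_nonneg_right h1 h2
  have := Real.log_le_log (x := 1 - 1 * PP y) (y := 1 - w * PP y) (by linarith) (by linarith)
  linarith

/-- `log(1-x)² ≤ 4 x/(1-x)` in the form used here. -/
theorem log_sq_le {x : ℝ} (h0 : 0 ≤ x) (h1 : x < 1) : (Real.log (1 - x))^2 ≤ 4 * (x / (1 - x)) := by
  have h2 : 0 < 1 - x := by linarith
  set u := - Real.log (1 - x) with hu
  have hu0 : 0 ≤ u := by
    have := Real.log_nonpos h2.le (by linarith)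
    linarith
  have h3 : x / (1 - x) = exp u - 1 := by
    rw [hu, Real.exp_neg, Real.exp_log h2]
    field_simp
    ring
  have h4 : 1 + u + u^2/2 ≤ exp u := Real.quadratic_le_exp_of_nonneg hu0
  have h5 : Real.log (1 - x) ^ 2 = u^2 := by rw [hu]; ring
  rw [h5, h3]
  nlinarith [sq_nonneg u]

theorem integrable_ratio {E : ℕ} (hE : 4 ≤ E) : Integrable (fun y : TT E => PP y / (1 - PP y)) := by
  have hS : ∀ᵐ y : TT E, PP y / (1 - PP y) = ∑' n : ℕ, PP y ^ (n+1) := by
    filter_upwards [ae_PP_lt_one hE] with y hy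
    have h := (hasSum_geometric_of_lt_one (PP_nonneg y) hy).mul_left (PP y)
    rw [div_eq_mul_inv, ← h.tsum_eq]
    refine tsum_congr fun n => ?_
    rw [pow_succ]; ring
  have hint : ∫⁻ y : TT E, ‖PP y / (1 - PP y)‖ₑ < ⊤ := by
    have h1 : ∫⁻ y : TT E, ‖PP y / (1 - PP y)‖ₑ ≤ ∫⁻ y : TT E, ∑' n : ℕ, ENNReal.ofReal (PP y ^ (n+1)) := by
      refine lintegral_mono_ae ?_
      filter_upwards [ae_PP_lt_one hE] with y hy
      have h := (hasSum_geometric_of_lt_one (PP_nonneg y) hy).mul_left (PP y)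
      have h' : HasSum (fun n : ℕ => PP y ^ (n+1)) (PP y / (1 - PP y)) := by
        rw [div_eq_mul_inv]
        refine h.congr_fun ?_
        intro n
        rw [pow_succ]; ring
      rw [← ENNReal.ofReal_tsum_of_nonneg (fun n => pow_nonneg (PP_nonneg y) _) h'.summable, h'.tsum_eq]
      rw [Real.enorm_eq_ofReal (div_nonneg (PP_nonneg y) (by linarith))]
    have h2 : ∫⁻ y : TT E, ∑' n : ℕ, ENNReal.ofReal (PP y ^ (n+1)) = ∑' n : ℕ, ENNReal.ofReal (kk (n+1) ^ E) := by
      rw [lintegral_tsum]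
      · refine tsum_congr fun n => ?_
        rw [← ofReal_integral_eq_lintegral_ofReal (integrable_PP_pow (n+1))
          (Filter.Eventually.of_forall fun y => pow_nonneg (PP_nonneg y) _), integral_PP_pow]
      · intro n
        exact ((continuous_PP.pow (n+1)).measurable.ennreal_ofReal).aemeasurable
    rw [h2] at h1
    refine lt_of_le_of_lt h1 ?_
    rw [← ENNReal.ofReal_tsum_of_nonneg (fun n => pow_nonneg (kk_nonneg _) _) (summable_kk hE)]
    exact ENNReal.ofReal_lt_top
  exact ⟨(continuous_PP.measurable.div (measurable_const.sub continuous_PP.measurable)).aestronglyMeasurable, hint⟩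

theorem memLp_LL_one {E : ℕ} (hE : 4 ≤ E) : MemLp (LL 1 : TT E → ℝ) 2 volume := by
  rw [memLp_two_iff_integrable_sq (measurable_LL_right 1).aestronglyMeasurable]
  refine Integrable.mono' ((integrable_ratio hE).const_mul 4)
    ((measurable_LL_right 1).pow_const 2).aestronglyMeasurable ?_
  filter_upwards [ae_PP_lt_one hE] with y hy
  rw [Real.norm_of_nonneg (sq_nonneg _)]
  unfold LL
  rw [neg_sq, one_mul]
  exact log_sq_le (PP_nonneg y) hy

theorem memLp_LL {E : ℕ} (hE : 4 ≤ E) {w : ℝ} (h0 : 0 ≤ w) (h1 : w ≤ 1) :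
    MemLp (LL w : TT E → ℝ) 2 volume := by
  refine (memLp_LL_one hE).mono (measurable_LL_right w).aestronglyMeasurable ?_
  filter_upwards [ae_PP_lt_one hE] with y hy
  rw [Real.norm_of_nonneg (LL_nonneg h0 h1 y), Real.norm_of_nonneg (LL_nonneg zero_le_one le_rfl y)]
  exact LL_le h0 h1 y hy

theorem summable_Psi {E : ℕ} (hE : 4 ≤ E) {w : ℝ} (h0 : 0 ≤ w) (h1 : w ≤ 1) :
    Summable (fun n : ℕ => w^(n+1) * kk (n+1)^E / (n+1)) := by
  refine Summable.of_nonneg_of_le (fun n => ?_) (fun n => ?_) (summable_kk hE)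
  · have := pow_nonneg (kk_nonneg (n+1)) E
    positivity
  · have h2 := pow_nonneg (kk_nonneg (n+1)) E
    have h3 : w^(n+1) ≤ 1 := pow_le_one₀ h0 h1
    rw [div_le_iff₀ (by positivity)]
    calc w^(n+1) * kk (n+1)^E ≤ 1 * kk (n+1)^E := mul_le_mul_of_nonneg_right h3 h2
      _ ≤ kk (n+1)^E * (n+1) := by
        have hn : (0:ℝ) ≤ n := Nat.cast_nonneg n
        nlinarith

theorem integral_LL {E : ℕ} (hE : 4 ≤ E) {w : ℝ} (h0 : 0 ≤ w) (h1 : w ≤ 1) :
    ∫ y : TT E, LL w y = Psi E w := by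
  have hS : ∀ᵐ y : TT E, LL w y = ∑' n : ℕ, (w * PP y)^(n+1) / (n+1) := by
    filter_upwards [ae_PP_lt_one hE] with y hy
    have h2 := PP_nonneg y
    have h3 : w * PP y < 1 := by nlinarith
    have h4 : 0 ≤ w * PP y := mul_nonneg h0 h2
    have h := hasSum_pow_div_log_of_abs_lt_one (x := w * PP y) (by rw [abs_of_nonneg h4]; exact h3)
    rw [h.tsum_eq]
    rfl
  rw [integral_congr_ae hS]
  have hi : ∀ n : ℕ, ∫ y : TT E, (w * PP y)^(n+1) / (n+1) = w^(n+1) * kk (n+1)^E / (n+1) := by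
    intro n
    rw [← integral_PP_pow (E := E) (n+1), ← integral_const_mul, ← integral_div]
    simp only [mul_pow]
  have hint : ∀ n : ℕ, Integrable (fun y : TT E => (w * PP y)^(n+1) / (n+1)) := by
    intro n
    simp only [mul_pow]
    exact ((integrable_PP_pow (n+1)).const_mul _).div_const _
  rw [← integral_tsum_of_summable_integral_norm hint]
  · unfold Psi
    exact tsum_congr hi
  · refine (summable_Psi hE h0 h1).congr fun n => ?_
    rw [← hi n]
    refine integral_congr_ae (Filter.Eventually.of_forall fun y => ?_)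
    have h2 := PP_nonneg y
    simp only
    rw [Real.norm_of_nonneg (by positivity)]

theorem Psi_nonneg {E : ℕ} (hE : 4 ≤ E) {w : ℝ} (h0 : 0 ≤ w) (h1 : w ≤ 1) : 0 ≤ Psi E w := by
  rw [← integral_LL hE h0 h1]
  exact integral_nonneg fun y => LL_nonneg h0 h1 y

theorem Psi_le {E : ℕ} (hE : 4 ≤ E) {w : ℝ} (h0 : 0 ≤ w) (h1 : w ≤ 1) : Psi E w ≤ Psi E 1 := by
  unfold Psi
  refine Summable.tsum_le_tsum (fun n => ?_) (summable_Psi hE h0 h1) (summable_Psi hE zero_le_one le_rfl)
  have h2 := pow_nonneg (kk_nonneg (n+1)) E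
  have h3 : w^(n+1) ≤ 1^(n+1) := pow_le_pow_left₀ h0 h1 _
  exact div_le_div_of_nonneg_right (mul_le_mul_of_nonneg_right h3 h2) (by positivity)

theorem exists_var_bound {E : ℕ} (hE : 4 ≤ E) :
    ∃ C : ℝ, ∀ w : ℝ, 0 ≤ w → w ≤ 1 → ∫ y : TT E, (LL w y - Psi E w)^2 ≤ C := by
  refine ⟨∫ y : TT E, (LL 1 y)^2, fun w h0 h1 => ?_⟩
  have hL := memLp_LL (E := E) hE h0 h1
  have hL1 := memLp_LL (E := E) hE zero_le_one le_rfl
  have hi2 : Integrable (fun y : TT E => LL w y ^ 2) := hL.integrable_sq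
  have hi21 : Integrable (fun y : TT E => LL 1 y ^ 2) := hL1.integrable_sq
  have hi : Integrable (fun y : TT E => LL w y) := hL.integrable (by norm_num)
  have h2 : ∫ y : TT E, (LL w y - Psi E w)^2 = (∫ y : TT E, LL w y ^ 2) - Psi E w ^ 2 := by
    have e1 : ∀ y : TT E, (LL w y - Psi E w)^2 = LL w y ^ 2 - (2 * Psi E w * LL w y - Psi E w ^ 2) := by
      intro y; ring
    have e2 : Integrable (fun y : TT E => 2 * Psi E w * LL w y) := hi.const_mul _
    have e3 : Integrable (fun y : TT E => 2 * Psi E w * LL w y - Psi E w ^ 2) := e2.sub (integrable_const _)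
    simp only [e1]
    rw [integral_sub hi2 e3, integral_sub e2 (integrable_const _), integral_const_mul,
      integral_LL hE h0 h1]
    have e4 : ∫ _ : TT E, Psi E w ^ 2 = Psi E w ^ 2 := by
      have e5 := integral_PP_pow (E := E) 0
      simp only [pow_zero, kk_zero, one_pow, integral_const, smul_eq_mul, mul_one] at e5
      rw [integral_const, e5, one_smul]
    rw [e4]
    ring
  have h3 : (∫ y : TT E, LL w y ^ 2) ≤ ∫ y : TT E, LL 1 y ^ 2 := by
    refine integral_mono_ae hi2 hi21 ?_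
    filter_upwards [ae_PP_lt_one hE] with y hy
    exact pow_le_pow_left₀ (LL_nonneg h0 h1 y) (LL_le h0 h1 y hy) 2
  rw [h2]
  nlinarith [sq_nonneg (Psi E w)]

theorem measurable_int_LL (E : ℕ) : Measurable (fun w : ℝ => ∫ y : TT E, LL w y) :=
  (measurable_LL.stronglyMeasurable.integral_prod_right).measurable

end Pool.Agent.H84_hrt
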