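import Pool.Agent.H84_hrt.Defs

/-! Task B of the HRT counterexample: the second moment of sums of centred functions along the
orbit of a random rotation, and the almost sure bound along the grid `M^4`. -/

open Real Finset MeasureTheory

namespace Pool.Agent.H84_hrt

instance instProbMuX (E : ℕ) : IsProbabilityMeasure (muX E) := by
  unfold muX
  have : IsProbabilityMeasure (volume.restrict (Set.Ioc (0:ℝ) 1)) := by
    constructor
    simp
  infer_instance

instance instProbTT (E : ℕ) : IsProbabilityMeasure (volume : Measure (TT E)) := by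
  have : IsProbabilityMeasure (volume : Measure UnitAddCircle) := ⟨UnitAddCircle.measure_univ⟩
  have : (volume : Measure (TT E)) = Measure.pi (fun _ => (volume : Measure UnitAddCircle)) := rfl
  rw [this]
  infer_instance

/-- the projection `ℝ^E → T^E` -/
noncomputable def toTT {E : ℕ} (ν : Fin E → ℝ) : TT E := fun i => ((ν i : ℝ) : UnitAddCircle)

theorem measurePreserving_toTT (E : ℕ) :
    MeasurePreserving (toTT (E := E)) (muX E) volume := by
  have h : MeasurePreserving (fun x : ℝ => (x : UnitAddCircle)) (volume.restrict (Set.Ioc (0:ℝ) 1))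
      volume := by
    have := UnitAddCircle.measurePreserving_mk 0
    simpa using this
  have hh := measurePreserving_pi (fun _ : Fin E => volume.restrict (Set.Ioc (0:ℝ) 1))
    (fun _ : Fin E => (volume : Measure UnitAddCircle)) (fun _ => h)
  exact hh

theorem measurable_phase {E : ℕ} :
    Measurable (fun p : ((Fin E → ℝ) × TT E) × ℝ => phase p.1.1 p.1.2 p.2) := by
  unfold phase
  have hc : Measurable (fun x : ℝ => (x : UnitAddCircle)) :=
    (AddCircle.continuous_mk' 1).measurable
  refine measurable_pi_lambda _ (fun i => ?_)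
  refine Measurable.add ?_ ?_
  · exact (measurable_pi_apply i).comp (measurable_snd.comp measurable_fst)
  · refine hc.comp ?_
    exact (((measurable_pi_apply i).comp (measurable_fst.comp measurable_fst)).mul measurable_snd)

/-- The pair of phases at times `s`, `s + n` (`n ≠ 0` an integer) is uniform in `T^E × T^E`. -/
theorem measurePreserving_pair {E : ℕ} (s : ℝ) (n : ℤ) (hn : n ≠ 0) :
    MeasurePreserving (fun p : (Fin E → ℝ) × TT E => (phase p.1 p.2 s, phase p.1 p.2 (s + n)))
      ((muX E).prod volume) (volume.prod volume) := by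
  -- first map
  have h1 : MeasurePreserving (fun ν : Fin E → ℝ => n • toTT ν) (muX E) volume :=
    Measure.MeasurePreserving.zsmul volume hn (measurePreserving_toTT E)
  have h2 : MeasurePreserving
      (fun p : (Fin E → ℝ) × TT E => (n • toTT p.1, phase p.1 p.2 s))
      ((muX E).prod volume) ((volume : Measure (TT E)).prod volume) := by
    refine h1.skew_product (g := fun ν γ => phase ν γ s) ?_ ?_
    · have := (measurable_phase (E := E)).comp
        ((measurable_id (α := (Fin E → ℝ) × TT E)).prodMk (measurable_const (a := s)))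
      exact this
    · refine Filter.Eventually.of_forall (fun ν => ?_)
      have : (fun γ : TT E => phase ν γ s) = fun γ => γ + toTT (fun i => ν i * s) := by
        funext γ i
        simp [phase, toTT]
      rw [this]
      exact map_add_right_eq_self _ _
  have h3 : MeasurePreserving (fun z : TT E × TT E => (z.2, z.2 + z.1))
      ((volume : Measure (TT E)).prod volume) (volume.prod volume) :=
    measurePreserving_prod_add_swap _ _
  have h4 := h3.comp h2
  convert h4 using 1
  funext p
  simp only [Function.comp]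
  refine Prod.ext rfl ?_
  funext i
  simp only [phase, toTT, Pi.add_apply, Pi.smul_apply]
  rw [add_assoc]
  congr 1
  rw [← AddCircle.coe_zsmul, ← AddCircle.coe_add]
  congr 1
  simp
  ring

theorem measurePreserving_single {E : ℕ} (s : ℝ) :
    MeasurePreserving (fun p : (Fin E → ℝ) × TT E => phase p.1 p.2 s)
      ((muX E).prod volume) volume := by
  have h1 := measurePreserving_pair (E := E) s 1 one_ne_zero
  exact (measurePreserving_fst (μ := (volume : Measure (TT E))) (ν := (volume : Measure (TT E)))).comp h1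

/-- the integral of a product of two functions at two different times -/
theorem integral_cross {E : ℕ} (f g : TT E → ℝ) (hf : Measurable f) (hg : Measurable g)
    (h0 : ∫ y, g y = 0) (s : ℝ) (n : ℤ) (hn : n ≠ 0) :
    ∫ p : (Fin E → ℝ) × TT E, f (phase p.1 p.2 s) * g (phase p.1 p.2 (s + n))
      ∂((muX E).prod volume) = 0 := by
  have hm := measurePreserving_pair (E := E) s n hn
  have hmeas : Measurable (fun z : TT E × TT E => f z.1 * g z.2) :=
    (hf.comp measurable_fst).mul (hg.comp measurable_snd)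
  have h1 := integral_map (μ := (muX E).prod volume) hm.measurable.aemeasurable
    (f := fun z : TT E × TT E => f z.1 * g z.2) hmeas.aestronglyMeasurable
  rw [hm.map_eq, integral_prod_mul, h0, mul_zero] at h1
  exact h1.symm

theorem integral_diag {E : ℕ} (f : TT E → ℝ) (hf : Measurable f) (s : ℝ) :
    ∫ p : (Fin E → ℝ) × TT E, f (phase p.1 p.2 s) * f (phase p.1 p.2 s)
      ∂((muX E).prod volume) = ∫ y, f y ^ 2 := by
  have hm := measurePreserving_single (E := E) s
  have h1 := integral_map (μ := (muX E).prod volume) hm.measurable.aemeasurable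
    (f := fun z : TT E => f z ^ 2) (hf.pow_const 2).aestronglyMeasurable
  rw [hm.map_eq] at h1
  rw [h1]
  refine integral_congr_ae (Filter.Eventually.of_forall (fun p => ?_))
  simp only []
  ring

/-- second moment bound -/
theorem second_moment {E : ℕ} (F : ℕ → TT E → ℝ) (hF : ∀ j, Measurable (F j))
    (hL : ∀ j, MemLp (F j) 2 volume) (h0 : ∀ j, ∫ y, F j y = 0)
    (C : ℝ) (hC : ∀ j, ∫ y, F j y ^ 2 ≤ C) (σ : ℝ) (hσ : σ = 1 ∨ σ = -1) (t : ℝ) (N : ℕ) :
    Integrable (fun p : (Fin E → ℝ) × TT E =>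
      (∑ j ∈ range N, F j (phase p.1 p.2 (σ * (t + j)))) ^ 2) ((muX E).prod volume) ∧
    ∫ p : (Fin E → ℝ) × TT E, (∑ j ∈ range N, F j (phase p.1 p.2 (σ * (t + j)))) ^ 2
      ∂((muX E).prod volume) ≤ C * N := by
  have hX : ∀ j, MemLp (fun p : (Fin E → ℝ) × TT E => F j (phase p.1 p.2 (σ * (t + j)))) 2
      ((muX E).prod volume) := fun j =>
    (hL j).comp_measurePreserving (measurePreserving_single (σ * (t + j)))
  have hI : ∀ j k, Integrable (fun p : (Fin E → ℝ) × TT E =>
      F j (phase p.1 p.2 (σ * (t + j))) * F k (phase p.1 p.2 (σ * (t + k)))) ((muX E).prod volume) :=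
    fun j k => (hX j).integrable_mul (hX k)
  have hexp : ∀ p : (Fin E → ℝ) × TT E,
      (∑ j ∈ range N, F j (phase p.1 p.2 (σ * (t + j)))) ^ 2 =
      ∑ j ∈ range N, ∑ k ∈ range N,
        F j (phase p.1 p.2 (σ * (t + j))) * F k (phase p.1 p.2 (σ * (t + k))) := by
    intro p
    rw [pow_two, sum_mul_sum]
  simp_rw [hexp]
  constructor
  · exact integrable_finsetSum _ (fun j _ => integrable_finsetSum _ (fun k _ => hI j k))
  · rw [integral_finsetSum _ (fun j _ => integrable_finsetSum _ (fun k _ => hI j k))]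
    have hj : ∀ j ∈ range N, (∫ p : (Fin E → ℝ) × TT E, ∑ k ∈ range N,
        F j (phase p.1 p.2 (σ * (t + j))) * F k (phase p.1 p.2 (σ * (t + k)))
        ∂((muX E).prod volume)) ≤ C := by
      intro j hjN
      rw [integral_finsetSum _ (fun k _ => hI j k)]
      rw [Finset.sum_eq_single j]
      · rw [integral_diag (F j) (hF j)]
        exact hC j
      · intro k _ hkj
        obtain ⟨m, hm, hm0⟩ : ∃ m : ℤ, σ * (t + k) = σ * (t + j) + m ∧ m ≠ 0 := by
          have hkj' : (k : ℤ) - j ≠ 0 := by
            intro h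
            apply hkj
            have : (k : ℤ) = j := by linarith
            exact_mod_cast this
          rcases hσ with rfl | rfl
          · refine ⟨(k : ℤ) - j, ?_, hkj'⟩
            push_cast
            ring
          · refine ⟨-((k : ℤ) - j), ?_, neg_ne_zero.mpr hkj'⟩
            push_cast
            ring
        rw [hm]
        exact integral_cross (F j) (F k) (hF j) (hF k) (h0 k) _ m hm0
      · intro h
        exact absurd hjN h
    calc _ ≤ ∑ j ∈ range N, C := Finset.sum_le_sum hj
      _ = C * N := by simp [mul_comm]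

theorem grid_bound (E : ℕ) (F : ℕ → ℝ → TT E → ℝ) (hF : ∀ j, Measurable (Function.uncurry (F j)))
    (hL : ∀ j t, MemLp (F j t) 2 volume) (h0 : ∀ j t, ∫ y, F j t y = 0)
    (C : ℝ) (hC : ∀ j t, ∫ y, F j t y ^ 2 ≤ C) (σ : ℝ) (hσ : σ = 1 ∨ σ = -1) :
    ∀ᵐ z : ((Fin E → ℝ) × TT E) × ℝ ∂(((muX E).prod volume).prod (volume.restrict (Set.Icc (0:ℝ) 1))),
      ∃ C' : ℝ, ∀ M : ℕ,
        |∑ j ∈ range (M^4), F j z.2 (phase z.1.1 z.1.2 (σ * (z.2 + j)))| ≤ C' * (M:ℝ)^3 := by
  -- measurability
  have hSm : ∀ N : ℕ, Measurable (fun z : ((Fin E → ℝ) × TT E) × ℝ =>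
      ∑ j ∈ range N, F j z.2 (phase z.1.1 z.1.2 (σ * (z.2 + j)))) := by
    intro N
    refine Finset.measurable_sum _ (fun j _ => ?_)
    have h1 : Measurable (fun z : ((Fin E → ℝ) × TT E) × ℝ => phase z.1.1 z.1.2 (σ * (z.2 + j))) := by
      have h2 : Measurable (fun z : ((Fin E → ℝ) × TT E) × ℝ => (z.1, σ * (z.2 + j))) := by
        fun_prop
      exact measurable_phase.comp h2
    exact (hF j).comp (measurable_snd.prodMk h1)
  have hFj : ∀ j t, Measurable (F j t) := fun j t => (hF j).of_uncurry_left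
  have hC0 : 0 ≤ C := le_trans (integral_nonneg (fun y => sq_nonneg _)) (hC 0 0)
  set μ := ((muX E).prod (volume : Measure (TT E))).prod (volume.restrict (Set.Icc (0:ℝ) 1)) with hμ
  let g : ℕ → ((Fin E → ℝ) × TT E) × ℝ → ENNReal := fun M z =>
    ENNReal.ofReal ((∑ j ∈ range ((M+1)^4), F j z.2 (phase z.1.1 z.1.2 (σ * (z.2 + j)))) ^ 2 /
      ((M:ℝ) + 1) ^ 6)
  have hgm : ∀ M, Measurable (g M) := fun M =>
    (((hSm _).pow_const 2).div_const _).ennreal_ofReal
  have hgint : ∀ M, ∫⁻ z, g M z ∂μ ≤ ENNReal.ofReal (C / ((M:ℝ) + 1) ^ 2) := by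
    intro M
    rw [hμ, lintegral_prod_symm' _ (hgm M)]
    have hb : ∀ t : ℝ, ∫⁻ x, g M (x, t) ∂((muX E).prod volume) ≤
        ENNReal.ofReal (C / ((M:ℝ) + 1) ^ 2) := by
      intro t
      obtain ⟨hi, hle⟩ := second_moment (fun j => F j t) (fun j => hFj j t) (fun j => hL j t)
        (fun j => h0 j t) C (fun j => hC j t) σ hσ t ((M+1)^4)
      have hpos : (0:ℝ) < ((M:ℝ) + 1) ^ 6 := by positivity
      have e1 : ∫⁻ x, g M (x, t) ∂((muX E).prod volume) =
          ENNReal.ofReal (∫ x : (Fin E → ℝ) × TT E,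
            (∑ j ∈ range ((M+1)^4), F j t (phase x.1 x.2 (σ * (t + j)))) ^ 2 / ((M:ℝ) + 1) ^ 6
            ∂((muX E).prod volume)) := by
        rw [ofReal_integral_eq_lintegral_ofReal]
        · exact hi.div_const _
        · exact Filter.Eventually.of_forall (fun x => by positivity)
      rw [e1, integral_div]
      apply ENNReal.ofReal_le_ofReal
      rw [div_le_div_iff₀ hpos (by positivity)]
      have hM : (((M+1)^4 : ℕ) : ℝ) = ((M:ℝ)+1)^4 := by push_cast; ring
      rw [hM] at hle
      calc _ ≤ (C * ((M:ℝ)+1)^4) * ((M:ℝ)+1)^2 := by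
            apply mul_le_mul_of_nonneg_right hle (by positivity)
        _ = C * ((M:ℝ)+1)^6 := by ring
    calc _ ≤ ∫⁻ t, ENNReal.ofReal (C / ((M:ℝ) + 1) ^ 2) ∂(volume.restrict (Set.Icc (0:ℝ) 1)) :=
          lintegral_mono (fun t => hb t)
      _ = ENNReal.ofReal (C / ((M:ℝ) + 1) ^ 2) := by simp
  have hsum : ∫⁻ z, ∑' M, g M z ∂μ ≠ ⊤ := by
    rw [lintegral_tsum (fun M => (hgm M).aemeasurable)]
    have hs : Summable (fun M : ℕ => C / ((M:ℝ) + 1) ^ 2) := by
      have h1 : Summable (fun M : ℕ => 1 / ((M:ℝ) + 1) ^ 2) := by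
        have := (summable_nat_add_iff (f := fun n : ℕ => 1 / (n:ℝ) ^ 2) 1).mpr
          (Real.summable_one_div_nat_pow.mpr (by norm_num))
        simpa using this
      have h2 := h1.mul_left C
      refine h2.congr (fun M => ?_)
      ring
    refine ne_of_lt (lt_of_le_of_lt (ENNReal.tsum_le_tsum hgint) ?_)
    rw [← ENNReal.ofReal_tsum_of_nonneg (fun M => by positivity) hs]
    exact ENNReal.ofReal_lt_top
  have hae := ae_lt_top (Measurable.tsum hgm) hsum
  filter_upwards [hae] with z hz
  refine ⟨Real.sqrt ((∑' M, g M z).toReal), fun M => ?_⟩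
  rcases Nat.eq_zero_or_pos M with rfl | hMpos
  · simp
  · obtain ⟨m, rfl⟩ : ∃ m, M = m + 1 := ⟨M - 1, by omega⟩
    have h1 : g m z ≤ ∑' M, g M z := ENNReal.le_tsum m
    have h2 : (g m z).toReal ≤ (∑' M, g M z).toReal := ENNReal.toReal_mono hz.ne h1
    have hpos : (0:ℝ) < ((m:ℝ) + 1) ^ 6 := by positivity
    have h3 : (g m z).toReal = (∑ j ∈ range ((m+1)^4), F j z.2 (phase z.1.1 z.1.2 (σ * (z.2 + j)))) ^ 2 /
      ((m:ℝ) + 1) ^ 6 := ENNReal.toReal_ofReal (by positivity)
    rw [h3, div_le_iff₀ hpos] at h2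
    have h4 : |∑ j ∈ range ((m+1)^4), F j z.2 (phase z.1.1 z.1.2 (σ * (z.2 + j)))| ^ 2 ≤
        (Real.sqrt ((∑' M, g M z).toReal) * ((m:ℝ)+1)^3) ^ 2 := by
      rw [sq_abs, mul_pow, Real.sq_sqrt ENNReal.toReal_nonneg]
      calc _ ≤ _ := h2
        _ = _ := by ring
    have h5 := abs_le_of_sq_le_sq' h4 (by positivity)
    push_cast
    exact h5.2

end Pool.Agent.H84_hrt
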