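import Pool.Agent.H84_hrt.Defs

/-! Task C of the HRT counterexample: trigonometric polynomials and the `L²` reduction. -/

open Real Finset MeasureTheory

namespace Pool.Agent.H84_hrt

theorem IsTrig.single (a : ℂ) (ω : ℝ) :
    IsTrig (fun t => a * Complex.exp (2 * π * Complex.I * (ω * t))) :=
  ⟨{ω}, fun _ => a, fun t => by simp⟩

theorem IsTrig.const (a : ℂ) : IsTrig (fun _ => a) := by
  have h := IsTrig.single a 0
  simpa using h

theorem IsTrig.add {f g : ℝ → ℂ} (hf : IsTrig f) (hg : IsTrig g) : IsTrig (fun t => f t + g t) := by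
  classical
  obtain ⟨S, c, hf⟩ := hf
  obtain ⟨S', c', hg⟩ := hg
  refine ⟨S ∪ S', fun ω => (if ω ∈ S then c ω else 0) + (if ω ∈ S' then c' ω else 0), fun t => ?_⟩
  simp only [add_mul, ite_mul, zero_mul, Finset.sum_add_distrib]
  rw [hf t, hg t]
  congr 1
  · rw [← Finset.sum_filter]
    refine Finset.sum_congr ?_ (fun _ _ => rfl)
    ext ω
    simp only [Finset.mem_filter, Finset.mem_union]
    tauto
  · rw [← Finset.sum_filter]
    refine Finset.sum_congr ?_ (fun _ _ => rfl)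
    ext ω
    simp only [Finset.mem_filter, Finset.mem_union]
    tauto

theorem IsTrig.sum {ι : Type*} (s : Finset ι) {f : ι → ℝ → ℂ} (hf : ∀ i ∈ s, IsTrig (f i)) :
    IsTrig (fun t => ∑ i ∈ s, f i t) := by
  classical
  induction s using Finset.induction_on with
  | empty => simpa using IsTrig.const 0
  | insert a s ha ih =>
    simp only [Finset.sum_insert ha]
    exact (hf a (Finset.mem_insert_self a s)).add
      (ih (fun i hi => hf i (Finset.mem_insert_of_mem hi)))

theorem IsTrig.mul {f g : ℝ → ℂ} (hf : IsTrig f) (hg : IsTrig g) : IsTrig (fun t => f t * g t) := by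
  obtain ⟨S, c, hf⟩ := hf
  obtain ⟨S', c', hg⟩ := hg
  have h : (fun t => f t * g t) = fun t : ℝ => ∑ ω ∈ S, ∑ ω' ∈ S',
      (c ω * c' ω') * Complex.exp (2 * π * Complex.I * (((ω + ω' : ℝ) : ℂ) * t)) := by
    funext t
    rw [hf t, hg t, Finset.sum_mul_sum]
    refine Finset.sum_congr rfl (fun ω _ => Finset.sum_congr rfl (fun ω' _ => ?_))
    rw [mul_mul_mul_comm, ← Complex.exp_add]
    congr 2
    push_cast
    ring
  rw [h]
  exact IsTrig.sum _ (fun ω _ => IsTrig.sum _ (fun ω' _ => IsTrig.single _ _))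

theorem IsTrig.sub {f g : ℝ → ℂ} (hf : IsTrig f) (hg : IsTrig g) : IsTrig (fun t => f t - g t) := by
  have h := hf.add ((IsTrig.const (-1)).mul hg)
  simpa [sub_eq_add_neg] using h

theorem IsTrig.prod {ι : Type*} (s : Finset ι) {f : ι → ℝ → ℂ} (hf : ∀ i ∈ s, IsTrig (f i)) :
    IsTrig (fun t => ∏ i ∈ s, f i t) := by
  classical
  induction s using Finset.induction_on with
  | empty => simpa using IsTrig.const 1
  | insert a s ha ih =>
    simp only [Finset.prod_insert ha]
    exact (hf a (Finset.mem_insert_self a s)).mul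
      (ih (fun i hi => hf i (Finset.mem_insert_of_mem hi)))

theorem isTrig_cos_sq (a b : ℝ) : IsTrig (fun t => ((cos (π * (a * t + b)) ^ 2 : ℝ) : ℂ)) := by
  have h := ((IsTrig.const (1/2)).add
    (IsTrig.single (1/4 * Complex.exp (2 * π * Complex.I * b)) a)).add
    (IsTrig.single (1/4 * Complex.exp (-(2 * π * Complex.I * b))) (-a))
  have e : (fun t : ℝ => ((cos (π * (a * t + b)) ^ 2 : ℝ) : ℂ)) = fun t : ℝ => (1/2 +
      1/4 * Complex.exp (2 * π * Complex.I * b) * Complex.exp (2 * π * Complex.I * (a * t))) +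
      1/4 * Complex.exp (-(2 * π * Complex.I * b)) *
        Complex.exp (2 * π * Complex.I * (((-a : ℝ) : ℂ) * t)) := by
    funext t
    push_cast
    rw [Complex.cos, mul_assoc (1/4 : ℂ), mul_assoc (1/4 : ℂ), ← Complex.exp_add,
      ← Complex.exp_add, div_pow, add_sq, ← Complex.exp_nat_mul, ← Complex.exp_nat_mul,
      mul_assoc (2:ℂ) (Complex.exp _) (Complex.exp _), ← Complex.exp_add]
    have e1 : (π * (a * t + b) * Complex.I + -(π * (a * t + b)) * Complex.I : ℂ) = 0 := by ring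
    rw [e1, Complex.exp_zero]
    have e2 : ((2:ℕ) : ℂ) * (π * (a * t + b) * Complex.I) =
      2 * π * Complex.I * b + 2 * π * Complex.I * (a * t) := by push_cast; ring
    have e3 : ((2:ℕ) : ℂ) * (-(π * (a * t + b)) * Complex.I) =
      -(2 * π * Complex.I * b) + 2 * π * Complex.I * (-a * t) := by push_cast; ring
    rw [e2, e3]
    ring
  rw [e]
  exact h

theorem isTrig_sin_sq (a b : ℝ) : IsTrig (fun t => ((sin (π * (a * t + b)) ^ 2 : ℝ) : ℂ)) := by
  have h := (IsTrig.const 1).sub (isTrig_cos_sq a b)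
  have e : (fun t : ℝ => ((sin (π * (a * t + b)) ^ 2 : ℝ) : ℂ)) =
      fun t : ℝ => 1 - ((cos (π * (a * t + b)) ^ 2 : ℝ) : ℂ) := by
    funext t
    rw [Real.sin_sq]
    push_cast
    ring
  rw [e]
  exact h

/-- the Birkhoff sums over `ℤ` of an odd cocycle, in terms of forward sums only -/
noncomputable def Sz (φ : ℝ → ℝ) (n : ℤ) (x : ℝ) : ℝ :=
  if 0 ≤ n then ∑ j ∈ range n.toNat, φ (x + j) else ∑ j ∈ range (-n).toNat, φ (1 - x + j)

theorem Sz_succ (φ : ℝ → ℝ) (hodd : ∀ t, φ (-t) = - φ t) (n : ℤ) (x : ℝ) :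
    Sz φ (n + 1) x = Sz φ n x + φ (x + n) := by
  unfold Sz
  rcases lt_trichotomy n (-1) with h | h | h
  · obtain ⟨k, rfl⟩ : ∃ k : ℕ, n = -((k:ℤ) + 2) := ⟨(-n - 2).toNat, by omega⟩
    rw [if_neg (by omega), if_neg (by omega)]
    have e1 : (-(-((k:ℤ) + 2) + 1)).toNat = k + 1 := by omega
    have e2 : (-(-((k:ℤ) + 2))).toNat = k + 2 := by omega
    rw [e1, e2, Finset.sum_range_succ _ (k+1)]
    have e3 : φ (x + ((-((k:ℤ) + 2) : ℤ) : ℝ)) = - φ (1 - x + ((k + 1 : ℕ) : ℝ)) := by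
      rw [← hodd]
      congr 1
      push_cast
      ring
    rw [e3]
    ring
  · subst h
    simp only [Int.reduceNeg, neg_add_cancel, le_refl, ↓reduceIte, Int.toNat_zero,
      Finset.range_zero, Finset.sum_empty, Left.nonneg_neg_iff, neg_neg, Int.toNat_one,
      Finset.range_one, Finset.sum_singleton, Nat.cast_zero, add_zero, Int.cast_neg, Int.cast_one]
    rw [if_neg (by norm_num)]
    have : φ (x + -1) = - φ (1 - x) := by
      rw [← hodd]
      congr 1
      ring
    rw [this]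
    ring
  · obtain ⟨k, rfl⟩ : ∃ k : ℕ, n = k := ⟨n.toNat, by omega⟩
    rw [if_pos (by omega), if_pos (by omega)]
    have e1 : ((k:ℤ) + 1).toNat = k + 1 := by omega
    have e2 : ((k:ℤ)).toNat = k := by omega
    rw [e1, e2, Finset.sum_range_succ]
    simp

theorem measurable_Sz (φ : ℝ → ℝ) (hφm : Measurable φ) (n : ℤ) : Measurable (Sz φ n) := by
  unfold Sz
  split_ifs
  · exact Finset.measurable_sum _ (fun j _ => hφm.comp (by fun_prop))
  · exact Finset.measurable_sum _ (fun j _ => hφm.comp (by fun_prop))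

/-- unfolding an integral over the line along `ℤ` -/
theorem lintegral_unfold (F : ℝ → ENNReal) (hF : Measurable F) :
    ∫⁻ x, F x = ∫⁻ x in Set.Ico (0:ℝ) 1, ∑' n : ℤ, F (x + n) := by
  have h1 : ∫⁻ x, F x = ∑' n : ℤ, ∫⁻ x in Set.Ico (n:ℝ) (n + 1), F x := by
    rw [← lintegral_iUnion (fun n => measurableSet_Ico) (Set.pairwise_disjoint_Ico_intCast ℝ),
      iUnion_Ico_intCast, Measure.restrict_univ]
  have h2 : ∫⁻ x in Set.Ico (0:ℝ) 1, ∑' n : ℤ, F (x + n) =
      ∑' n : ℤ, ∫⁻ x in Set.Ico (0:ℝ) 1, F (x + n) :=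
    lintegral_tsum (fun n => (hF.comp (measurable_id.add_const (n:ℝ))).aemeasurable)
  rw [h1, h2]
  congr 1
  funext n
  rw [← lintegral_indicator measurableSet_Ico, ← lintegral_indicator measurableSet_Ico,
    ← lintegral_add_right_eq_self _ (n:ℝ)]
  congr 1
  funext x
  simp only [Set.indicator_apply, Set.mem_Ico]
  have : ((n:ℝ) ≤ x + n ∧ x + n < n + 1) ↔ (0 ≤ x ∧ x < 1) := by
    constructor
    · rintro ⟨h1, h2⟩; constructor <;> linarith
    · rintro ⟨h1, h2⟩; constructor <;> linarith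
  simp only [this]

/-- The `L²` function built from an odd cocycle whose exponential sums are summable. -/
theorem exists_L2 (φ : ℝ → ℝ) (hφm : Measurable φ) (hodd : ∀ t, φ (-t) = - φ t)
    (hsum : ∀ᵐ t ∂(volume.restrict (Set.Icc (0:ℝ) 1)),
      Summable (fun N : ℕ => exp (2 * ∑ j ∈ range N, φ (t + j)))) :
    ∃ f : ℝ → ℝ, MemLp f 2 volume ∧ ¬ (f =ᵐ[volume] 0) ∧ ∀ t, f (t + 1) = exp (φ t) * f t := by
  classical
  set H : ℝ → ENNReal := fun x => ∑' n : ℤ, ENNReal.ofReal (exp (2 * Sz φ n x)) with hH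
  have hHm : Measurable H := Measurable.tsum (fun n =>
    (Real.measurable_exp.comp ((measurable_Sz φ hφm n).const_mul 2)).ennreal_ofReal)
  -- reflection
  have hrefl : ∀ᵐ t ∂(volume.restrict (Set.Icc (0:ℝ) 1)),
      Summable (fun N : ℕ => exp (2 * ∑ j ∈ range N, φ (1 - t + j))) := by
    have h1 : MeasurePreserving (fun t : ℝ => 1 - t) volume volume :=
      Measure.measurePreserving_sub_left volume 1
    have h2 := h1.restrict_preimage (measurableSet_Icc (a := (0:ℝ)) (b := 1))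
    have h3 : (fun t : ℝ => 1 - t) ⁻¹' (Set.Icc (0:ℝ) 1) = Set.Icc (0:ℝ) 1 := by
      ext t
      simp only [Set.mem_preimage, Set.mem_Icc]
      constructor
      · rintro ⟨h, h'⟩; constructor <;> linarith
      · rintro ⟨h, h'⟩; constructor <;> linarith
    rw [h3] at h2
    exact h2.quasiMeasurePreserving.ae hsum
  have hfin : ∀ᵐ t ∂(volume.restrict (Set.Icc (0:ℝ) 1)), H t ≠ ⊤ := by
    filter_upwards [hsum, hrefl] with t h1 h2
    refine Summable.tsum_ofReal_ne_top ?_
    refine Summable.of_nat_of_neg ?_ ?_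
    · refine h1.congr (fun N => ?_)
      simp [Sz]
    · refine h2.congr (fun N => ?_)
      rcases Nat.eq_zero_or_pos N with rfl | hN
      · simp [Sz]
      · have hneg : ¬ (0 ≤ -(N:ℤ)) := by omega
        simp only [Sz, hneg, if_false, neg_neg, Int.toNat_natCast]
  have hfin' : ∀ᵐ t ∂volume, t ∈ Set.Icc (0:ℝ) 1 → H t ≠ ⊤ :=
    (ae_restrict_iff' measurableSet_Icc).mp hfin
  -- choice of the level
  obtain ⟨k, hk⟩ : ∃ k : ℕ, volume {x | x ∈ Set.Ico (0:ℝ) 1 ∧ H x ≤ k} ≠ 0 := by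
    by_contra hcon
    push Not at hcon
    have h1 : volume (⋃ k : ℕ, {x | x ∈ Set.Ico (0:ℝ) 1 ∧ H x ≤ k}) = 0 :=
      measure_iUnion_null hcon
    have h2 : ∀ᵐ t ∂(volume : Measure ℝ), t ∉ Set.Ico (0:ℝ) 1 := by
      have h3 : ∀ᵐ t ∂(volume : Measure ℝ), t ∉ (⋃ k : ℕ, {x | x ∈ Set.Ico (0:ℝ) 1 ∧ H x ≤ k}) := by
        rw [ae_iff]
        simpa only [not_not, Set.ofPred_mem_eq] using h1
      filter_upwards [h3, hfin'] with t h4 h5 h6
      apply h4
      obtain ⟨n, hn⟩ := ENNReal.exists_nat_gt (h5 ⟨h6.1, h6.2.le⟩)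
      exact Set.mem_iUnion.mpr ⟨n, h6, hn.le⟩
    rw [ae_iff] at h2
    simp only [not_not, Set.ofPred_mem_eq, Real.volume_Ico, sub_zero, ENNReal.ofReal_one,
      one_ne_zero] at h2
  set G : Set ℝ := {x | x ∈ Set.Ico (0:ℝ) 1 ∧ H x ≤ k} with hG
  have hGm : MeasurableSet G := measurableSet_Ico.inter (measurableSet_le hHm measurable_const)
  let f : ℝ → ℝ := fun t => if Int.fract t ∈ G then exp (Sz φ ⌊t⌋ (Int.fract t)) else 0
  have hSm : Measurable (fun t : ℝ => Sz φ ⌊t⌋ (Int.fract t)) := by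
    have h1 : Measurable (fun p : ℤ × ℝ => Sz φ p.1 p.2) :=
      measurable_from_prod_countable_right (fun n => measurable_Sz φ hφm n)
    exact h1.comp (Int.measurable_floor.prodMk measurable_fract)
  have hfm : Measurable f := by
    refine Measurable.ite (measurable_fract hGm) ?_ measurable_const
    exact Real.measurable_exp.comp hSm
  refine ⟨f, ?_, ?_, ?_⟩
  · rw [memLp_two_iff_integrable_sq hfm.aestronglyMeasurable]
    refine ⟨(hfm.pow_const 2).aestronglyMeasurable, ?_⟩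
    rw [hasFiniteIntegral_iff_ofReal (Filter.Eventually.of_forall (fun x => sq_nonneg _))]
    rw [lintegral_unfold _ ((hfm.pow_const 2).ennreal_ofReal)]
    have hb : ∀ x ∈ Set.Ico (0:ℝ) 1, ∑' n : ℤ, ENNReal.ofReal (f (x + n) ^ 2) ≤ k := by
      intro x hx
      have hfr : ∀ n : ℤ, Int.fract (x + n) = x := by
        intro n
        rw [Int.fract_add_intCast]
        exact Int.fract_eq_self.mpr ⟨hx.1, hx.2⟩
      have hfl : ∀ n : ℤ, ⌊x + n⌋ = n := by
        intro n
        rw [Int.floor_add_intCast, Int.floor_eq_zero_iff.mpr hx, zero_add]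
      by_cases hxG : x ∈ G
      · have : ∀ n : ℤ, ENNReal.ofReal (f (x + n) ^ 2) = ENNReal.ofReal (exp (2 * Sz φ n x)) := by
          intro n
          simp only [f, hfr, hfl, if_pos hxG]
          rw [← Real.exp_nat_mul]
          norm_num
        simp_rw [this]
        exact hxG.2
      · have : ∀ n : ℤ, ENNReal.ofReal (f (x + n) ^ 2) = 0 := by
          intro n
          simp only [f, hfr, if_neg hxG]
          simp
        simp [this]
    calc ∫⁻ x in Set.Ico (0:ℝ) 1, ∑' n : ℤ, ENNReal.ofReal (f (x + n) ^ 2)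
        ≤ ∫⁻ x in Set.Ico (0:ℝ) 1, (k : ENNReal) := by
          refine setLIntegral_mono' measurableSet_Ico hb
      _ < ⊤ := by simp
  · intro h0
    apply hk
    have h1 : ∀ᵐ t ∂(volume : Measure ℝ), t ∉ G := by
      filter_upwards [h0] with t ht htG
      have hfr : Int.fract t = t := Int.fract_eq_self.mpr ⟨htG.1.1, htG.1.2⟩
      have : f t = exp (Sz φ ⌊t⌋ (Int.fract t)) := by
        simp only [f]
        rw [hfr, if_pos htG]
      rw [this] at ht
      exact absurd ht (Real.exp_pos _).ne'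
    rw [ae_iff] at h1
    simpa using h1
  · intro t
    simp only [f, Int.fract_add_one, Int.floor_add_one]
    split_ifs
    · rw [Sz_succ φ hodd, Real.exp_add, Int.fract_add_floor, mul_comm]
    · simp

theorem final_reduction (P : ℝ → ℝ) (hP : IsTrig (fun t => (P t : ℂ))) (hpos : ∀ᵐ t, P t ≠ 0)
    (φ : ℝ → ℝ) (hφm : Measurable φ) (hodd : ∀ t, φ (-t) = - φ t)
    (hφ : ∀ᵐ t, exp (φ t) * P (-t) = P t)
    (hsum : ∀ᵐ t ∂(volume.restrict (Set.Icc (0:ℝ) 1)), Summable (fun N : ℕ => exp (2 * ∑ j ∈ range N, φ (t + j)))) :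
    ¬ (∀ n : ℕ, ∀ g : (Fin n → ℝ) → ℂ,
      MeasureTheory.MemLp g 2 MeasureTheory.volume →
      ¬ (g =ᵐ[MeasureTheory.volume] 0) →
      ∀ (s : Finset ((Fin n → ℝ) × (Fin n → ℝ))) (c : (Fin n → ℝ) × (Fin n → ℝ) → ℂ),
        (fun t : Fin n → ℝ =>
            ∑ p ∈ s, c p *
              (Complex.exp (2 * (Real.pi : ℂ) * Complex.I * ((∑ i, p.2 i * t i : ℝ) : ℂ)) *
                g (t - p.1))) =ᵐ[MeasureTheory.volume] 0 →
        ∀ p ∈ s, c p = 0) := by
  classical
  intro hall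
  obtain ⟨f, hf2, hf0, hf1⟩ := exists_L2 φ hφm hodd hsum
  obtain ⟨S, c, hPc⟩ := hP
  replace hPc : ∀ t : ℝ, (P t : ℂ) = ∑ ω ∈ S, c ω * Complex.exp (2 * π * Complex.I * (ω * t)) := hPc
  have hmp := volume_preserving_funUnique (Fin 1) ℝ
  let g : (Fin 1 → ℝ) → ℂ := fun x => (f (x 0) : ℂ)
  have hg2 : MemLp g 2 volume := by
    have h1 : MemLp (fun t => (f t : ℂ)) 2 volume := hf2.ofReal
    exact h1.comp_measurePreserving hmp
  have hg0 : ¬ (g =ᵐ[volume] 0) := by
    intro h
    apply hf0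
    have h1 := hmp.symm.quasiMeasurePreserving.ae h
    filter_upwards [h1] with t ht
    have h2 : ((f t : ℝ) : ℂ) = 0 := by simpa [g] using ht
    exact_mod_cast h2
  let s1 : Finset ((Fin 1 → ℝ) × (Fin 1 → ℝ)) := S.image (fun ω => ((fun _ => -1), (fun _ => -ω)))
  let s2 : Finset ((Fin 1 → ℝ) × (Fin 1 → ℝ)) := S.image (fun ω => ((fun _ => 0), (fun _ => ω)))
  let c' : (Fin 1 → ℝ) × (Fin 1 → ℝ) → ℂ := fun p =>
    if p.1 0 = 0 then - c (p.2 0) else c (-(p.2 0))
  have hdisj : Disjoint s1 s2 := by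
    rw [Finset.disjoint_left]
    intro p h1 h2
    obtain ⟨ω, _, rfl⟩ := Finset.mem_image.mp h1
    obtain ⟨ω', _, h3⟩ := Finset.mem_image.mp h2
    have h4 := congrFun (congrArg Prod.fst h3) 0
    simp at h4
  have key : (fun t : Fin 1 → ℝ =>
            ∑ p ∈ s1 ∪ s2, c' p *
              (Complex.exp (2 * (Real.pi : ℂ) * Complex.I * ((∑ i, p.2 i * t i : ℝ) : ℂ)) *
                g (t - p.1))) =ᵐ[MeasureTheory.volume] 0 := by
    have h1 := hmp.quasiMeasurePreserving.ae hφ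
    filter_upwards [h1] with t ht
    have ht' : exp (φ (t 0)) * P (-(t 0)) = P (t 0) := ht
    rw [Finset.sum_union hdisj]
    have e1 : ∑ p ∈ s1, c' p *
              (Complex.exp (2 * (Real.pi : ℂ) * Complex.I * ((∑ i, p.2 i * t i : ℝ) : ℂ)) *
                g (t - p.1)) = (P (-(t 0)) : ℂ) * (f (t 0 + 1) : ℂ) := by
      rw [Finset.sum_image]
      · rw [hPc, Finset.sum_mul]
        refine Finset.sum_congr rfl (fun ω _ => ?_)
        simp [c', g]
        ring_nf
      · intro a _ b _ h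
        have h4 := congrFun (congrArg Prod.snd h) 0
        simpa using h4
    have e2 : ∑ p ∈ s2, c' p *
              (Complex.exp (2 * (Real.pi : ℂ) * Complex.I * ((∑ i, p.2 i * t i : ℝ) : ℂ)) *
                g (t - p.1)) = - ((P (t 0) : ℂ) * (f (t 0) : ℂ)) := by
      rw [Finset.sum_image]
      · rw [hPc, Finset.sum_mul, ← Finset.sum_neg_distrib]
        refine Finset.sum_congr rfl (fun ω _ => ?_)
        simp [c', g]
        ring_nf
      · intro a _ b _ h
        have h4 := congrFun (congrArg Prod.snd h) 0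
        simpa using h4
    rw [e1, e2, hf1, ← ht']
    push_cast
    simp only [Pi.zero_apply]
    ring
  have hc := hall 1 g hg2 hg0 (s1 ∪ s2) c' key
  have hcS : ∀ ω ∈ S, c ω = 0 := by
    intro ω hω
    have h1 := hc ((fun _ => 0), (fun _ => ω))
      (Finset.mem_union_right _ (Finset.mem_image.mpr ⟨ω, hω, rfl⟩))
    simpa [c'] using h1
  have hP0 : ∀ t, P t = 0 := by
    intro t
    have h1 := hPc t
    rw [Finset.sum_eq_zero (fun ω hω => by rw [hcS ω hω, zero_mul])] at h1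
    exact_mod_cast h1
  have : ∀ᵐ t ∂(volume : Measure ℝ), False := by
    filter_upwards [hpos] with t ht using ht (hP0 t)
  rw [ae_iff] at this
  simp at this

end Pool.Agent.H84_hrt
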