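import Pool.Agent.H84_hrt.BlockBound
import Pool.Agent.H84_hrt.TaskA
import Pool.Agent.H84_hrt.TaskB
import Pool.Agent.H84_hrt.TaskC

open Real Finset MeasureTheory Filter

namespace Pool.Agent.H84_hrt

lemma summable_final (K : ℝ) :
    Summable (fun N : ℕ => exp (2 * (K * (N:ℝ)^((3:ℝ)/4) - (N:ℝ)^((4:ℝ)/5)))) := by
  have h1 : ∀ᶠ x : ℝ in atTop, 2 * |K| ≤ x^((1:ℝ)/20) :=
    (tendsto_rpow_atTop (by norm_num)).eventually_ge_atTop _
  have h2 : ∀ᶠ x : ℝ in atTop, ‖log x‖ ≤ (1/2) * ‖x^((4:ℝ)/5)‖ :=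
    (isLittleO_log_rpow_atTop (by norm_num : (0:ℝ) < 4/5)).bound (by norm_num)
  have h3 : ∀ᶠ x : ℝ in atTop, (1:ℝ) ≤ x := eventually_ge_atTop 1
  have h4 : ∀ᶠ N : ℕ in atTop, exp (2 * (K * (N:ℝ)^((3:ℝ)/4) - (N:ℝ)^((4:ℝ)/5))) ≤ 1 / (N:ℝ)^2 := by
    filter_upwards [tendsto_natCast_atTop_atTop.eventually (h1.and (h2.and h3))] with N hN
    obtain ⟨a1, a2, a3⟩ := hN
    have hNpos : (0:ℝ) < N := by linarith
    have e1 : (N:ℝ)^((4:ℝ)/5) = (N:ℝ)^((3:ℝ)/4) * (N:ℝ)^((1:ℝ)/20) := by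
      rw [← rpow_add hNpos]; norm_num
    have hp : 0 ≤ (N:ℝ)^((3:ℝ)/4) := by positivity
    have b1 : K * (N:ℝ)^((3:ℝ)/4) ≤ (1/2) * (N:ℝ)^((4:ℝ)/5) := by
      rw [e1]
      have : K ≤ |K| := le_abs_self K
      nlinarith
    have b2 : log N ≤ (1/2) * (N:ℝ)^((4:ℝ)/5) := by
      have := (le_abs_self (log N)).trans a2
      rwa [norm_eq_abs, abs_of_nonneg (by positivity)] at this
    have b3 : 2 * (K * (N:ℝ)^((3:ℝ)/4) - (N:ℝ)^((4:ℝ)/5)) ≤ -(2 * log N) := by linarith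
    calc exp (2 * (K * (N:ℝ)^((3:ℝ)/4) - (N:ℝ)^((4:ℝ)/5))) ≤ exp (-(2 * log N)) := exp_le_exp.2 b3
      _ = 1 / (N:ℝ)^2 := by
          rw [exp_neg, two_mul, exp_add, exp_log hNpos, one_div, pow_two]
  refine Summable.of_norm_bounded_eventually_nat (g := fun N : ℕ => 1 / (N:ℝ)^2) (Real.summable_one_div_nat_pow.2 (by norm_num)) ?_
  filter_upwards [h4] with N hN
  rw [norm_of_nonneg (exp_pos _).le]
  exact hN

variable {E : ℕ}

/-- the block function `P_c` for given frequencies and phases -/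
noncomputable def Pc (ν : Fin E → ℝ) (γ : TT E) (c : ℕ) (s : ℝ) : ℝ :=
  1 - wp (th c) (be c) s * PP (phase ν γ s)

noncomputable def phic (ν : Fin E → ℝ) (γ : TT E) (c : ℕ) (s : ℝ) : ℝ :=
  LL (wp (th c) (-(be c)) s) (phase ν γ (-s)) - LL (wp (th c) (be c) s) (phase ν γ s)

lemma phic_odd (ν : Fin E → ℝ) (γ : TT E) (c : ℕ) (s : ℝ) : phic ν γ c (-s) = - phic ν γ c s := by
  unfold phic
  rw [wp_neg, wp_neg, neg_neg, neg_neg]; ring

lemma exp_phic (ν : Fin E → ℝ) (γ : TT E) (c : ℕ) (s : ℝ) (h1 : PP (phase ν γ s) < 1)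
    (h2 : PP (phase ν γ (-s)) < 1) : exp (phic ν γ c s) * Pc ν γ c (-s) = Pc ν γ c s := by
  have e : ∀ x y : ℝ, 0 ≤ x → x ≤ 1 → 0 ≤ y → y < 1 → 0 < 1 - x * y := by
    intro x y hx0 hx1 hy0 hy1
    nlinarith
  have p1 := e _ _ (wp_nonneg (th c) (be c) s) (wp_le_one _ _ _) (PP_nonneg (phase ν γ s)) h1
  have p2 := e _ _ (wp_nonneg (th c) (-(be c)) s) (wp_le_one _ _ _) (PP_nonneg (phase ν γ (-s))) h2
  unfold phic Pc LL
  rw [wp_neg, sub_neg_eq_add, exp_add, exp_neg, exp_log p2, exp_log p1]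
  field_simp

lemma Pc_pos (ν : Fin E → ℝ) (γ : TT E) (c : ℕ) (s : ℝ) (h1 : PP (phase ν γ s) < 1) :
    0 < Pc ν γ c s := by
  unfold Pc
  have a := wp_nonneg (th c) (be c) s
  have b := wp_le_one (th c) (be c) s
  have c := PP_nonneg (phase ν γ s)
  nlinarith

lemma isTrig_Pc (ν : Fin E → ℝ) (γ : TT E) (c : ℕ) : IsTrig (fun s => (Pc ν γ c s : ℂ)) := by
  have hlift : ∀ i, ∃ x : ℝ, (x : UnitAddCircle) = γ i := fun i => QuotientAddGroup.mk_surjective (γ i)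
  choose g hg using hlift
  have e : (fun s => (Pc ν γ c s : ℂ)) = fun s : ℝ => 1 - (((cos (π * (√2 * s + 0)) ^ 2 : ℝ) : ℂ) *
      ((cos (π * ((√2 * th c) * s + be c)) ^ 2 : ℝ) : ℂ)) *
        ∏ i : Fin E, ((sin (π * (ν i * s + g i)) ^ 2 : ℝ) : ℂ) := by
    funext s
    have h : PP (phase ν γ s) = ∏ i : Fin E, sin (π * (ν i * s + g i)) ^ 2 := by
      unfold PP
      refine Finset.prod_congr rfl fun i _ => ?_
      unfold phase
      rw [← hg i, ← sq_coe]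
      congr 1
      rw [add_comm]; rfl
    unfold Pc wp
    rw [h, add_zero]
    push_cast
    ring
  rw [e]
  exact (IsTrig.const 1).sub (((isTrig_cos_sq _ _).mul (isTrig_cos_sq _ _)).mul
    (IsTrig.prod _ fun i _ => isTrig_sin_sq _ _))

lemma continuous_wp (θ β : ℝ) : Continuous (wp θ β) := by
  unfold wp; fun_prop

lemma measurable_phic (ν : Fin E → ℝ) (γ : TT E) (c : ℕ) : Measurable (phic ν γ c) := by
  unfold phic
  have hp : Measurable (fun s : ℝ => phase ν γ s) :=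
    measurable_phase.comp ((measurable_const (a := (ν, γ))).prodMk measurable_id)
  have hp' : Measurable (fun s : ℝ => phase ν γ (-s)) := hp.comp measurable_neg
  exact (measurable_LL.comp ((continuous_wp _ _).measurable.prodMk hp')).sub
    (measurable_LL.comp ((continuous_wp _ _).measurable.prodMk hp))

/-- a.e. choice of `(ν,γ)` keeps the phases off the singularity for a.e. time -/
lemma ae_ae_PP (hE : 4 ≤ E) : ∀ᵐ z : (Fin E → ℝ) × TT E ∂((muX E).prod volume), ∀ᵐ s : ℝ,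
    PP (phase z.1 z.2 s) < 1 := by
  have hm : MeasurableSet {p : ((Fin E → ℝ) × TT E) × ℝ | PP (phase p.1.1 p.1.2 p.2) < 1} :=
    measurableSet_lt (continuous_PP.measurable.comp measurable_phase) measurable_const
  apply (Measure.ae_ae_comm hm).2
  refine Filter.Eventually.of_forall fun s => ?_
  exact (measurePreserving_single s).quasiMeasurePreserving.ae (ae_PP_lt_one hE)

end Pool.Agent.H84_hrt
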