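import Pool.Agent.H84_hrt.Asm1

open Real Finset MeasureTheory Filter

namespace Pool.Agent.H84_hrt

/-- the centred noise of one block -/
noncomputable def noiseSum {E : ℕ} (ν : Fin E → ℝ) (γ : TT E) (θ β σ t : ℝ) (N : ℕ) : ℝ :=
  ∑ j ∈ range N, (LL (wp θ β (t + j)) (phase ν γ (σ * (t + j))) - Psi E (wp θ β (t + j)))

lemma sum_phic {E : ℕ} (hE : E = 1002) (ν : Fin E → ℝ) (γ : TT E) (c : ℕ) (t : ℝ) (N : ℕ) :
    ∑ j ∈ range N, phic ν γ c (t + j) = Seff (th c) (be c) N t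
      + noiseSum ν γ (th c) (-(be c)) (-1) t N - noiseSum ν γ (th c) (be c) 1 t N := by
  unfold Seff noiseSum phic
  rw [← hE, ← sum_add_distrib, ← sum_sub_distrib]
  refine sum_congr rfl fun j _ => ?_
  rw [one_mul, neg_one_mul]
  ring

theorem good_t {E : ℕ} (hE : E = 1002) (Cm : ℕ)
    (hcov : ∃ l0 : ℕ, ∀ l : ℕ, l0 ≤ l → ∃ c, 1 ≤ c ∧ c ≤ Cm ∧ ∃ m, 17 * aa c (m+1) ≤ 20 * l ∧ 50 * (l+1) ≤ 49 * aa c (m+1))
    (ν : Fin E → ℝ) (γ : TT E) (t : ℝ) (ht0 : 0 ≤ t) (ht1 : t ≤ 1)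
    (hp : ∀ c ∈ Icc 1 Cm, ∃ C : ℝ, ∀ N : ℕ, |noiseSum ν γ (th c) (be c) 1 t N| ≤ C * (N:ℝ)^((3:ℝ)/4))
    (hm : ∀ c ∈ Icc 1 Cm, ∃ C : ℝ, ∀ N : ℕ, |noiseSum ν γ (th c) (-(be c)) (-1) t N| ≤ C * (N:ℝ)^((3:ℝ)/4)) :
    Summable (fun N : ℕ => exp (2 * ∑ j ∈ range N, ∑ c ∈ Icc 1 Cm, phic ν γ c (t + j))) := by
  classical
  obtain ⟨l0, hl0⟩ := hcov
  choose! A hA using hp
  choose! B hB using hm
  set K : ℝ := ∑ c ∈ Icc 1 Cm, (CB c + B c + A c) with hK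
  have hbound : ∀ N : ℕ, 2^l0 ≤ N → ∑ j ∈ range N, ∑ c ∈ Icc 1 Cm, phic ν γ c (t + j) ≤
      K * (N:ℝ)^((3:ℝ)/4) - (N:ℝ)^((4:ℝ)/5) := by
    intro N hN
    have hN1 : 1 ≤ N := le_trans Nat.one_le_two_pow hN
    set l := Nat.log 2 N with hl
    have hNl : 2^l ≤ N := Nat.pow_log_le_self 2 (by omega)
    have hNu : N < 2^(l+1) := Nat.lt_pow_succ_log_self (by norm_num) N
    have hll : l0 ≤ l := (Nat.le_log_iff_pow_le (by norm_num) (by omega)).2 hN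
    obtain ⟨c0, hc1, hc2, m, hm1, hm2⟩ := hl0 l hll
    rw [sum_comm]
    have hc0 : c0 ∈ Icc 1 Cm := mem_Icc.2 ⟨hc1, hc2⟩
    have hterm : ∀ c ∈ Icc 1 Cm, ∑ j ∈ range N, phic ν γ c (t + j) ≤
        (CB c + B c + A c) * (N:ℝ)^((3:ℝ)/4) - (if c = c0 then (N:ℝ)^((4:ℝ)/5) else 0) := by
      intro c hc
      rw [sum_phic hE]
      have hbb := block_bound (c := c) (mem_Icc.1 hc).1 N l hN1 hNl hNu t ht0 ht1
      have h1 := (le_abs_self _).trans (hB c hc N)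
      have h2 := (neg_abs_le (noiseSum ν γ (th c) (be c) 1 t N))
      have h3 := hA c hc N
      have h4 : Seff (th c) (be c) N t ≤ CB c * (N:ℝ)^((3:ℝ)/4) - (if c = c0 then (N:ℝ)^((4:ℝ)/5) else 0) := by
        split_ifs with h
        · rw [h]; rw [h] at hbb; exact hbb.2 m hm1 hm2
        · rw [sub_zero]; exact hbb.1
      nlinarith
    refine (sum_le_sum hterm).trans (le_of_eq ?_)
    rw [sum_sub_distrib, ← sum_mul, sum_ite_eq' (Icc 1 Cm) c0, if_pos hc0]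
  refine Summable.of_norm_bounded_eventually_nat (summable_final K) ?_
  filter_upwards [eventually_ge_atTop (2^l0)] with N hN
  rw [norm_of_nonneg (exp_pos _).le]
  exact exp_le_exp.2 (by linarith [hbound N hN])

theorem main_thm {E : ℕ} (hE : E = 1002) (Cm : ℕ)
    (hcov : ∃ l0 : ℕ, ∀ l : ℕ, l0 ≤ l → ∃ c, 1 ≤ c ∧ c ≤ Cm ∧ ∃ m, 17 * aa c (m+1) ≤ 20 * l ∧ 50 * (l+1) ≤ 49 * aa c (m+1))
    (hnoise : ∀ (w : ℝ → ℝ) (_ : Continuous w) (_ : ∀ s, 0 ≤ w s) (_ : ∀ s, w s ≤ 1) (σ : ℝ) (_ : σ = 1 ∨ σ = -1),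
      ∀ᵐ z : ((Fin E → ℝ) × TT E) × ℝ ∂(((muX E).prod volume).prod (volume.restrict (Set.Icc (0:ℝ) 1))),
        ∃ C : ℝ, ∀ N : ℕ, |∑ j ∈ range N, (LL (w (z.2 + j)) (phase z.1.1 z.1.2 (σ * (z.2 + j))) - Psi E (w (z.2 + j)))|
          ≤ C * (N:ℝ)^((3:ℝ)/4)) :
    ¬ (∀ n : ℕ, ∀ g : (Fin n → ℝ) → ℂ,
      MeasureTheory.MemLp g 2 MeasureTheory.volume →
      ¬ (g =ᵐ[MeasureTheory.volume] 0) →
      ∀ (s : Finset ((Fin n → ℝ) × (Fin n → ℝ))) (c : (Fin n → ℝ) × (Fin n → ℝ) → ℂ),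
        (fun t : Fin n → ℝ =>
            ∑ p ∈ s, c p *
              (Complex.exp (2 * (Real.pi : ℂ) * Complex.I * ((∑ i, p.2 i * t i : ℝ) : ℂ)) *
                g (t - p.1))) =ᵐ[MeasureTheory.volume] 0 →
        ∀ p ∈ s, c p = 0) := by
  have hp : ∀ c ∈ Icc 1 Cm, ∀ᵐ z : ((Fin E → ℝ) × TT E) × ℝ ∂(((muX E).prod volume).prod (volume.restrict (Set.Icc (0:ℝ) 1))),
      ∃ C : ℝ, ∀ N : ℕ, |noiseSum z.1.1 z.1.2 (th c) (be c) 1 z.2 N| ≤ C * (N:ℝ)^((3:ℝ)/4) := fun c _ =>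
    hnoise (wp (th c) (be c)) (continuous_wp _ _) (wp_nonneg _ _) (wp_le_one _ _) 1 (Or.inl rfl)
  have hm : ∀ c ∈ Icc 1 Cm, ∀ᵐ z : ((Fin E → ℝ) × TT E) × ℝ ∂(((muX E).prod volume).prod (volume.restrict (Set.Icc (0:ℝ) 1))),
      ∃ C : ℝ, ∀ N : ℕ, |noiseSum z.1.1 z.1.2 (th c) (-(be c)) (-1) z.2 N| ≤ C * (N:ℝ)^((3:ℝ)/4) := fun c _ =>
    hnoise (wp (th c) (-(be c))) (continuous_wp _ _) (wp_nonneg _ _) (wp_le_one _ _) (-1) (Or.inr rfl)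
  have hp' := (Finset.eventually_all (Icc 1 Cm)).2 hp
  have hm' := (Finset.eventually_all (Icc 1 Cm)).2 hm
  have hboth := hp'.and hm'
  have hae := Measure.ae_ae_of_ae_prod hboth
  have hex := (hae.and (ae_ae_PP (E := E) (by omega))).exists
  obtain ⟨⟨ν, γ⟩, hz, hPP⟩ := hex
  have hPP' : ∀ᵐ s : ℝ, PP (phase ν γ (-s)) < 1 :=
    (Measure.measurePreserving_neg volume).quasiMeasurePreserving.ae hPP
  refine final_reduction (fun s => ∏ c ∈ Icc 1 Cm, Pc ν γ c s) ?_ ?_ (fun s => ∑ c ∈ Icc 1 Cm, phic ν γ c s) ?_ ?_ ?_ ?_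
  · have := IsTrig.prod (Icc 1 Cm) (fun c _ => isTrig_Pc ν γ c)
    convert this using 2
    push_cast
    rfl
  · filter_upwards [hPP] with s hs
    exact (Finset.prod_pos fun c _ => Pc_pos ν γ c s hs).ne'
  · exact Finset.measurable_sum _ fun c _ => measurable_phic ν γ c
  · intro s
    rw [← Finset.sum_neg_distrib]
    exact Finset.sum_congr rfl fun c _ => phic_odd ν γ c s
  · filter_upwards [hPP, hPP'] with s h1 h2
    rw [Real.exp_sum, ← Finset.prod_mul_distrib]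
    exact Finset.prod_congr rfl fun c _ => exp_phic ν γ c s h1 h2
  · rw [ae_restrict_iff' measurableSet_Icc] at hz ⊢
    filter_upwards [hz] with t ht htI
    obtain ⟨h1, h2⟩ := ht htI
    exact good_t hE Cm hcov ν γ t htI.1 htI.2 h1 h2

end Pool.Agent.H84_hrt
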