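import Pool.Agent.H84_hrt.Coef

open Real Finset

namespace Pool.Agent.H84_hrt

lemma kk_eq_cn (n : ℕ) : kk n = cn n n := by
  have key : kk n = (Nat.centralBinom n : ℝ) / 4^n := by
    induction n with
    | zero => simp [kk]
    | succ n ih =>
      have h := Nat.succ_mul_centralBinom_succ n
      have h' : ((n:ℝ)+1) * (Nat.centralBinom (n+1) : ℝ) = 2 * (2*n+1) * (Nat.centralBinom n : ℝ) := by exact_mod_cast h
      unfold kk at ih ⊢
      rw [prod_range_succ, ih]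
      have hn : (n:ℝ) + 1 ≠ 0 := by positivity
      have e : (Nat.centralBinom (n+1) : ℝ) = 2 * (2*n+1) * (Nat.centralBinom n : ℝ) / (n+1) := by
        rw [eq_div_iff hn]; linarith
      rw [e, pow_succ]
      field_simp
      ring
  rw [key, cn, Nat.centralBinom_eq_two_mul_choose]

lemma kk_nonneg' (n : ℕ) : 0 ≤ kk n := by rw [kk_eq_cn]; exact cn_nonneg _ _

lemma kk_ge' (n : ℕ) (hn : 1 ≤ n) : 1 / (2 * (n:ℝ)) ≤ kk n := by
  rw [kk_eq_cn, cn, ← Nat.centralBinom_eq_two_mul_choose]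
  have h := Nat.four_pow_le_two_mul_self_mul_centralBinom n hn
  have h' : (4:ℝ)^n ≤ 2 * n * (Nat.centralBinom n : ℝ) := by exact_mod_cast h
  have hn' : (0:ℝ) < n := by exact_mod_cast hn
  rw [div_le_div_iff₀ (by positivity) (by positivity)]
  linarith

lemma kk_sq_le' (n : ℕ) : kk n ^ 2 * (2 * n + 1) ≤ 1 := by
  induction n with
  | zero => simp [kk]
  | succ n ih =>
    have e : kk (n+1) = kk n * ((2 * (n:ℝ) + 1) / (2 * n + 2)) := by
      unfold kk; rw [prod_range_succ]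
    rw [e, mul_pow, div_pow]
    push_cast
    have h0 : 0 ≤ kk n ^ 2 := sq_nonneg _
    have hn0 : (0:ℝ) ≤ n := Nat.cast_nonneg n
    have h1 : kk n ^ 2 * ((2 * (n:ℝ) + 1)^2 / (2 * n + 2)^2) * (2 * (n + 1) + 1)
        = (kk n ^ 2 * (2 * n + 1)) * ((2 * (n:ℝ) + 1) * (2 * n + 3) / (2 * n + 2)^2) := by
      field_simp; ring
    rw [h1]
    have h2 : (2 * (n:ℝ) + 1) * (2 * n + 3) / (2 * n + 2)^2 ≤ 1 := by
      rw [div_le_one (by positivity)]; nlinarith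
    have h3 : 0 ≤ (2 * (n:ℝ) + 1) * (2 * n + 3) / (2 * n + 2)^2 := by positivity
    calc _ ≤ 1 * 1 := mul_le_mul ih h2 h3 zero_le_one
      _ = 1 := by norm_num

/-- the coefficient of `w^{n+1}` in `Ψ` (with `E = 1002`). -/
noncomputable def uu (n : ℕ) : ℝ := kk (n+1)^1002 / (n+1)

lemma uu_nonneg (n : ℕ) : 0 ≤ uu n := by unfold uu; have := kk_nonneg' (n+1); positivity

lemma uu_le (n : ℕ) : uu n ≤ (1 / ((n:ℝ)+1))^502 := by
  unfold uu
  have h := kk_sq_le' (n+1)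
  have hn : (0:ℝ) < (n:ℝ) + 1 := by positivity
  have h1 : kk (n+1)^2 ≤ 1 / ((n:ℝ)+1) := by
    rw [le_div_iff₀ hn]
    push_cast at h
    nlinarith [sq_nonneg (kk (n+1))]
  have h2 : kk (n+1)^1002 = (kk (n+1)^2)^501 := by rw [← pow_mul]
  rw [h2]
  calc (kk (n+1)^2)^501 / ((n:ℝ)+1) ≤ (1 / ((n:ℝ)+1))^501 / ((n:ℝ)+1) := by
        apply div_le_div_of_nonneg_right _ hn.le
        exact pow_le_pow_left₀ (sq_nonneg _) h1 _
    _ = (1 / ((n:ℝ)+1))^502 := by rw [pow_succ (1 / ((n:ℝ)+1)) 501]; ring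

lemma summable_sq : Summable (fun n : ℕ => (1 / ((n:ℝ)+1))^2) := by
  have := (summable_nat_add_iff 1).2 (Real.summable_one_div_nat_pow.2 (by norm_num : 1 < 2))
  refine this.congr fun n => ?_
  push_cast; rw [one_div_pow]

/-- a constant -/
noncomputable def C2 : ℝ := ∑' n : ℕ, (1 / ((n:ℝ)+1))^2

lemma C2_nonneg : 0 ≤ C2 := tsum_nonneg fun n => by positivity

lemma inv_le_one' (n : ℕ) : 1 / ((n:ℝ)+1) ≤ 1 := by
  rw [div_le_one (by positivity)]; linarith [Nat.cast_nonneg (α := ℝ) n]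

lemma uu_le_sq (n : ℕ) : uu n ≤ (1 / ((n:ℝ)+1))^2 :=
  (uu_le n).trans (pow_le_pow_of_le_one (by positivity) (inv_le_one' n) (by norm_num))

lemma summable_uu : Summable uu :=
  Summable.of_nonneg_of_le uu_nonneg uu_le_sq summable_sq

lemma sum_uu_le (s : ℕ) : ∑ n ∈ range s, uu n ≤ C2 := by
  calc ∑ n ∈ range s, uu n ≤ ∑ n ∈ range s, (1 / ((n:ℝ)+1))^2 := sum_le_sum fun n _ => uu_le_sq n
    _ ≤ C2 := summable_sq.sum_le_tsum _ (fun n _ => by positivity)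

lemma tail_le (s : ℕ) (hs : 1 ≤ s) : ∑' n : ℕ, uu (n + s) ≤ (1 / (s:ℝ))^500 * C2 := by
  unfold C2
  rw [← tsum_mul_left]
  have hs' : (0:ℝ) < s := by exact_mod_cast hs
  apply Summable.tsum_le_tsum _ ((summable_nat_add_iff s).2 summable_uu) (summable_sq.mul_left _)
  intro n
  refine (uu_le (n+s)).trans ?_
  push_cast
  have hx : 0 ≤ 1 / ((n:ℝ) + s + 1) := by positivity
  rw [show (1 / ((n:ℝ) + s + 1))^502 = (1 / ((n:ℝ) + s + 1))^500 * (1 / ((n:ℝ) + s + 1))^2 by rw [← pow_add]]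
  apply mul_le_mul
  · apply pow_le_pow_left₀ hx
    apply div_le_div_of_nonneg_left zero_le_one hs'
    linarith [Nat.cast_nonneg (α := ℝ) n]
  · apply pow_le_pow_left₀ hx
    apply div_le_div_of_nonneg_left zero_le_one (by positivity)
    linarith
  · positivity
  · positivity

lemma Psi_eq (w : ℝ) : Psi 1002 w = ∑' n : ℕ, w^(n+1) * uu n := by
  unfold Psi uu
  congr 1; ext n; ring

lemma summable_w {w : ℝ} (h0 : 0 ≤ w) (h1 : w ≤ 1) : Summable (fun n : ℕ => w^(n+1) * uu n) :=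
  Summable.of_nonneg_of_le (fun n => mul_nonneg (pow_nonneg h0 _) (uu_nonneg n))
    (fun n => mul_le_of_le_one_left (uu_nonneg n) (pow_le_one₀ h0 h1)) summable_uu

lemma Psi_sub_le {a b : ℝ} (ha0 : 0 ≤ a) (ha1 : a ≤ 1) (hb0 : 0 ≤ b) (hb1 : b ≤ 1) (s : ℕ) :
    Psi 1002 a - Psi 1002 b ≤ ∑ n ∈ range s, uu n * (a^(n+1) - b^(n+1)) + ∑' n : ℕ, uu (n + s) := by
  rw [Psi_eq, Psi_eq, ← (summable_w ha0 ha1).sum_add_tsum_nat_add s, ← (summable_w hb0 hb1).sum_add_tsum_nat_add s]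
  have hA : ∑' n : ℕ, a^(n+s+1) * uu (n+s) ≤ ∑' n : ℕ, uu (n+s) := by
    apply Summable.tsum_le_tsum _ ((summable_nat_add_iff s).2 (summable_w ha0 ha1)) ((summable_nat_add_iff s).2 summable_uu)
    intro n
    exact mul_le_of_le_one_left (uu_nonneg _) (pow_le_one₀ ha0 ha1)
  have hB : 0 ≤ ∑' n : ℕ, b^(n+s+1) * uu (n+s) := tsum_nonneg fun n => mul_nonneg (pow_nonneg hb0 _) (uu_nonneg _)
  have e : ∑ n ∈ range s, uu n * (a^(n+1) - b^(n+1)) = ∑ n ∈ range s, a^(n+1) * uu n - ∑ n ∈ range s, b^(n+1) * uu n := by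
    rw [← sum_sub_distrib]; refine sum_congr rfl fun n _ => by ring
  rw [e]; linarith

/-- the effective sum of one block -/
noncomputable def Seff (θ β : ℝ) (N : ℕ) (t : ℝ) : ℝ :=
  ∑ j ∈ range N, (Psi 1002 (wp θ (-β) (t + j)) - Psi 1002 (wp θ β (t + j)))

lemma Seff_le_sum (θ β : ℝ) (N : ℕ) (t : ℝ) (s : ℕ) :
    Seff θ β N t ≤ ∑ n ∈ range s, uu n * ZZ θ β N (n+1) t + N * ∑' n : ℕ, uu (n + s) := by
  unfold Seff
  calc _ ≤ ∑ j ∈ range N, (∑ n ∈ range s, uu n * (wp θ (-β) (t + j)^(n+1) - wp θ β (t + j)^(n+1)) + ∑' n : ℕ, uu (n + s)) :=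
        sum_le_sum fun j _ => Psi_sub_le (wp_nonneg _ _ _) (wp_le_one _ _ _) (wp_nonneg _ _ _) (wp_le_one _ _ _) s
    _ = _ := by
        rw [sum_add_distrib, sum_comm]
        congr 1
        · refine sum_congr rfl fun n _ => ?_
          rw [← mul_sum]; rfl
        · rw [sum_const, card_range, nsmul_eq_mul]

lemma Seff_le_trivial (θ β : ℝ) (N : ℕ) (t : ℝ) : Seff θ β N t ≤ N * C2 := by
  have h := Seff_le_sum θ β N t 0
  rw [range_zero, sum_empty, zero_add] at h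
  refine h.trans ?_
  apply mul_le_mul_of_nonneg_left _ (Nat.cast_nonneg N)
  exact Summable.tsum_le_tsum (fun n => by simpa using uu_le_sq n) (by simpa using summable_uu) summable_sq

lemma Seff_le {θ β : ℝ} {q p : ℕ} {δ η : ℝ} (h : Scale θ β q p δ η)
    (ns : ℕ) (hns : 1 ≤ ns) (hsmall : 16 * (δ * ns^2 * q) ≤ 1) (hηs : 4 * (η * ns) ≤ q)
    (N : ℕ) (t : ℝ) (ht0 : 0 ≤ t) (ht1 : t ≤ 1) :
    Seff θ β N t ≤ (20 * (q:ℝ)^2 * ns + 2) * C2 + N * ((1 / (ns:ℝ))^500 * C2) := by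
  refine (Seff_le_sum θ β N t ns).trans (add_le_add ?_ (mul_le_mul_of_nonneg_left (tail_le ns hns) (Nat.cast_nonneg N)))
  set D := 20 * (q:ℝ)^2 * ns + 2
  have hD : 0 ≤ D := by positivity
  calc ∑ n ∈ range ns, uu n * ZZ θ β N (n+1) t ≤ ∑ n ∈ range ns, uu n * D := by
        refine sum_le_sum fun n hn => mul_le_mul_of_nonneg_left ?_ (uu_nonneg n)
        apply ZZ_le
        intro A B hA hB
        have hn' : ((n+1:ℕ):ℤ) ≤ ns := by have := mem_range.1 hn; exact_mod_cast this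
        exact term_bound h ns hns hsmall hηs N t ht0 ht1 A B (hA.trans hn') (hB.trans hn')
    _ = D * ∑ n ∈ range ns, uu n := by rw [← sum_mul, mul_comm]
    _ ≤ D * C2 := mul_le_mul_of_nonneg_left (sum_uu_le ns) hD

lemma Seff_le_main {θ β : ℝ} {q p : ℕ} {δ η : ℝ} (h : Scale θ β q p δ η)
    (ns : ℕ) (hns : 1 ≤ ns) (hsmall : 16 * (δ * ns^2 * q) ≤ 1) (hηs : 4 * (η * ns) ≤ q)
    (hη4 : η ≤ 1/4) (N : ℕ) (hN : 3 ≤ N) (hNδ : δ * (N + 1/2) ≤ 1/3)
    (t : ℝ) (ht0 : 0 ≤ t) (ht1 : t ≤ 1) (n1 : ℕ) (hn1 : n1 < ns) (hq1 : q ≤ n1 + 1) :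
    Seff θ β N t ≤ (20 * (q:ℝ)^2 * ns + 2) * C2 + N * ((1 / (ns:ℝ))^500 * C2)
      - uu n1 * (cn (n1+1) (n1+1-p) * cn (n1+1) (n1+1+q) * (2 * (η * δ * N^2))) := by
  have h0 := (Seff_le_sum θ β N t ns).trans (add_le_add_right (mul_le_mul_of_nonneg_left (tail_le ns hns) (Nat.cast_nonneg N)) _)
  set D := 20 * (q:ℝ)^2 * ns + 2 with hDdef
  have hD : 0 ≤ D := by positivity
  set m := 2 * (η * δ * N^2) with hm
  have hb : ∀ n ∈ range ns, uu n * ZZ θ β N (n+1) t ≤ uu n * D - (if n = n1 then uu n * (cn (n+1) (n+1-p) * cn (n+1) (n+1+q) * m) else 0) := by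
    intro n hn
    have hn' : ((n+1:ℕ):ℤ) ≤ ns := by have := mem_range.1 hn; exact_mod_cast this
    have hT : ∀ A B : ℤ, |A| ≤ ((n+1:ℕ):ℤ) → |B| ≤ ((n+1:ℕ):ℤ) → 2 * sin (2 * π * B * β) * V N (√2 * (A + θ * B)) t ≤ D := by
      intro A B hA hB
      exact term_bound h ns hns hsmall hηs N t ht0 ht1 A B (hA.trans hn') (hB.trans hn')
    split_ifs with he
    · subst he
      have := ZZ_le_main θ β N (n+1) t D m p q (h.hpq.trans hq1) hq1 hD hT (term_main h hη4 N hN hNδ t ht0 ht1)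
      have h2 := mul_le_mul_of_nonneg_left this (uu_nonneg n)
      linarith
    · rw [sub_zero]
      exact mul_le_mul_of_nonneg_left (ZZ_le _ _ _ _ _ _ hT) (uu_nonneg n)
  have h1 : ∑ n ∈ range ns, uu n * ZZ θ β N (n+1) t ≤ D * C2 - uu n1 * (cn (n1+1) (n1+1-p) * cn (n1+1) (n1+1+q) * m) := by
    refine (sum_le_sum hb).trans ?_
    rw [sum_sub_distrib, ← sum_mul, sum_ite_eq' (range ns) n1, if_pos (mem_range.2 hn1)]
    have := mul_le_mul_of_nonneg_left (sum_uu_le ns) hD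
    linarith
  linarith

end Pool.Agent.H84_hrt
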