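import Pool.Agent.H84_hrt.Lac
import Pool.Agent.H84_hrt.Eff

open Real Finset

namespace Pool.Agent.H84_hrt

/-- exponents `a_i = c 10^{6i}` -/
def aa (c i : ℕ) : ℕ := c * 1000000^i
/-- exponents `b_i = 10^4 a_i` -/
def bb (c i : ℕ) : ℕ := c * 1000000^i * 10000

lemma aa_succ (c i : ℕ) : aa c (i+1) = 1000000 * aa c i := by unfold aa; ring
lemma bb_eq (c i : ℕ) : bb c i = 10000 * aa c i := by unfold aa bb; ring
lemma aa_pos {c : ℕ} (hc : 1 ≤ c) (i : ℕ) : 1 ≤ aa c i := by unfold aa; exact Nat.mul_pos hc (by positivity)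

lemma aa_strictMono {c : ℕ} (hc : 1 ≤ c) : StrictMono (aa c) := by
  apply strictMono_nat_of_lt_succ
  intro i; rw [aa_succ]; have := aa_pos hc i; omega

lemma bb_strictMono {c : ℕ} (hc : 1 ≤ c) : StrictMono (bb c) := by
  apply strictMono_nat_of_lt_succ
  intro i; rw [bb_eq, bb_eq, aa_succ]; have := aa_pos hc i; omega

noncomputable def th (c : ℕ) : ℝ := tl (aa c) 0
noncomputable def be (c : ℕ) : ℝ := -(tl (bb c) 0)

lemma two_pow_le_rpow {x l u v N : ℕ} (hv : 0 < v) (h : v * x ≤ u * l) (hN : 2^l ≤ N) :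
    (2:ℝ)^x ≤ (N:ℝ)^((u:ℝ)/v) := by
  have hv' : (0:ℝ) < v := by exact_mod_cast hv
  have hN' : (2:ℝ)^l ≤ N := by exact_mod_cast hN
  have e : (2:ℝ)^x = ((2:ℝ)^(v*x))^((1:ℝ)/v) := by
    rw [← rpow_natCast, ← rpow_natCast, ← rpow_mul (by norm_num)]
    congr 1; push_cast; field_simp
  rw [e]
  calc ((2:ℝ)^(v*x))^((1:ℝ)/v) ≤ ((2:ℝ)^(u*l))^((1:ℝ)/v) := by
        apply rpow_le_rpow (by positivity) _ (by positivity)
        exact pow_le_pow_right₀ (by norm_num) h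
    _ ≤ ((N:ℝ)^u)^((1:ℝ)/v) := by
        apply rpow_le_rpow (by positivity) _ (by positivity)
        rw [mul_comm, pow_mul]
        exact pow_le_pow_left₀ (by positivity) hN' _
    _ = (N:ℝ)^((u:ℝ)/v) := by
        rw [← rpow_natCast, ← rpow_mul (Nat.cast_nonneg N)]
        congr 1; field_simp

lemma rpow_le_two_pow {x l u v N : ℕ} (hv : 0 < v) (h : u * l ≤ v * x) (hN : N ≤ 2^l) :
    (N:ℝ)^((u:ℝ)/v) ≤ (2:ℝ)^x := by
  have hv' : (0:ℝ) < v := by exact_mod_cast hv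
  have hN' : (N:ℝ) ≤ (2:ℝ)^l := by exact_mod_cast hN
  have e : (2:ℝ)^x = ((2:ℝ)^(v*x))^((1:ℝ)/v) := by
    rw [← rpow_natCast, ← rpow_natCast, ← rpow_mul (by norm_num)]
    congr 1; push_cast; field_simp
  rw [e]
  calc (N:ℝ)^((u:ℝ)/v) = ((N:ℝ)^u)^((1:ℝ)/v) := by
        rw [← rpow_natCast, ← rpow_mul (Nat.cast_nonneg N)]
        congr 1; field_simp
    _ ≤ ((2:ℝ)^(u*l))^((1:ℝ)/v) := by
        apply rpow_le_rpow (by positivity) _ (by positivity)
        rw [mul_comm u l, pow_mul]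
        exact pow_le_pow_left₀ (by positivity) hN' _
    _ ≤ ((2:ℝ)^(v*x))^((1:ℝ)/v) := by
        apply rpow_le_rpow (by positivity) _ (by positivity)
        exact pow_le_pow_right₀ (by norm_num) h

lemma half_mul_two {x y : ℕ} (h : x ≤ y) : (2:ℝ)^x * (1/2)^y ≤ 1 := by
  have : (2:ℝ)^x * (1/2)^x = 1 := by rw [← mul_pow]; norm_num
  calc (2:ℝ)^x * (1/2)^y ≤ (2:ℝ)^x * (1/2)^x := by
        apply mul_le_mul_of_nonneg_left _ (by positivity)
        exact pow_le_pow_of_le_one (by norm_num) (by norm_num) h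
    _ = 1 := this

lemma exists_scale_index {c l : ℕ} (hc : 1 ≤ c) (hl : 4 * aa c 0 ≤ l) :
    ∃ m, 4 * aa c m ≤ l ∧ l < 4 * aa c (m+1) := by
  have hex : ∃ m, l < 4 * aa c (m+1) := by
    refine ⟨l, ?_⟩
    have : (l+1) ≤ aa c (l+1) := by
      have := strictMono_add_le (aa_strictMono hc) 0 (l+1)
      simp at this; omega
    omega
  classical
  refine ⟨Nat.find hex, ?_, Nat.find_spec hex⟩
  rcases Nat.eq_zero_or_pos (Nat.find hex) with h | h
  · rw [h]; exact hl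
  · have := Nat.find_min hex (m := Nat.find hex - 1) (by omega)
    push Not at this
    rwa [Nat.sub_add_cancel h] at this

/-- The scale data of block `c` at level `m` with two-sided bounds. -/
lemma block_scale {c : ℕ} (hc : 1 ≤ c) (m : ℕ) :
    ∃ (p : ℕ) (δ η : ℝ), Scale (th c) (be c) (2^(aa c m)) p δ η ∧
      2^(aa c m) * (1/2:ℝ)^(aa c (m+1)) ≤ δ ∧ δ ≤ 2^(aa c m + 1) * (1/2:ℝ)^(aa c (m+1)) ∧
      2^(aa c m) * (1/2:ℝ)^(bb c m) ≤ η ∧ η ≤ 2^(aa c m + 1) * (1/2:ℝ)^(bb c m) := by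
  have hba : ∀ i, bb c i ≤ aa c (i+1) := fun i => by
    rw [bb_eq, aa_succ]; have := aa_pos hc i; omega
  refine ⟨_, _, _, scale_of (aa c) (bb c) (aa_strictMono hc) (bb_strictMono hc) (aa_pos hc 0) hba m, ?_, ?_, ?_, ?_⟩
  · exact mul_le_mul_of_nonneg_left (tl_ge (aa_strictMono hc) (m+1)) (by positivity)
  · have := mul_le_mul_of_nonneg_left (tl_le (aa_strictMono hc) (m+1)) (by positivity : (0:ℝ) ≤ 2^(aa c m))
    refine this.trans (le_of_eq ?_); ring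
  · exact mul_le_mul_of_nonneg_left (tl_ge (bb_strictMono hc) m) (by positivity)
  · have := mul_le_mul_of_nonneg_left (tl_le (bb_strictMono hc) m) (by positivity : (0:ℝ) ≤ 2^(aa c m))
    refine this.trans (le_of_eq ?_); ring

/-- weight of the main term -/
lemma main_weight (a p : ℕ) (hp : p ≤ 2^a) :
    (1/2:ℝ)^(2010 * a + 3016) ≤ uu (2^(2*a+2) - 1) *
      (cn (2^(2*a+2)-1+1) (2^(2*a+2)-1+1-p) * cn (2^(2*a+2)-1+1) (2^(2*a+2)-1+1+2^a)) := by
  have hn : 2^(2*a+2) - 1 + 1 = 2^(2*a+2) := Nat.sub_add_cancel Nat.one_le_two_pow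
  set n : ℕ := 2^(2*a+2) with hndef
  rw [hn]
  have hnpos : 0 < n := by positivity
  have hqn : 2^a ≤ n := Nat.pow_le_pow_right (by norm_num) (by omega)
  have hkk : (1/2:ℝ)^(2*a+3) ≤ kk n := by
    refine le_trans (le_of_eq ?_) (kk_ge' n hnpos)
    rw [hndef]; push_cast; rw [one_div_pow, pow_succ' _ (2*a+2)]
  have hn' : (n:ℝ) = 4 * (2^a)^2 := by rw [hndef]; push_cast; rw [pow_add, ← pow_mul, mul_comm a 2]; ring
  have hcn : ∀ x : ℕ, x ≤ 2^a → (1/2:ℝ)^(2*a+4) ≤ cn n (n + x) := by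
    intro x hx
    have h1 := cn_add_ge n x (hx.trans hqn) hnpos
    rw [← kk_eq_cn] at h1
    refine le_trans ?_ h1
    have hx' : (x:ℝ) ≤ 2^a := by exact_mod_cast hx
    have h2 : (x:ℝ)^2 / n ≤ 1/4 := by
      rw [hn', div_le_iff₀ (by positivity)]
      have : (x:ℝ)^2 ≤ (2^a)^2 := pow_le_pow_left₀ (Nat.cast_nonneg x) hx' 2
      linarith
    have h3 : (1/2:ℝ)^(2*a+4) = (1/2:ℝ)^(2*a+3) * (1/2) := by rw [← pow_succ]
    rw [h3]
    exact mul_le_mul hkk (by linarith) (by norm_num) (kk_nonneg' n)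
  have hc1 : (1/2:ℝ)^(2*a+4) ≤ cn n (n - p) := by
    rw [cn_sub_eq n p (hp.trans hqn)]; exact hcn p hp
  have hc2 := hcn (2^a) le_rfl
  have hu : (1/2:ℝ)^(1002*(2*a+3) + (2*a+2)) ≤ uu (n-1) := by
    unfold uu
    have e1 : ((n - 1 : ℕ):ℝ) + 1 = n := by
      have : ((n-1+1 : ℕ):ℝ) = n := by rw [hn]
      push_cast at this; exact this
    rw [hn, e1]
    rw [pow_add, pow_mul' _ 1002 (2*a+3), div_eq_mul_inv]
    apply mul_le_mul
    · exact pow_le_pow_left₀ (by positivity) hkk 1002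
    · rw [hndef]; push_cast; rw [one_mul, inv_pow]
    · positivity
    · exact pow_nonneg (kk_nonneg' n) _
  calc (1/2:ℝ)^(2010 * a + 3016) = (1/2:ℝ)^(1002*(2*a+3) + (2*a+2)) * ((1/2:ℝ)^(2*a+4) * (1/2:ℝ)^(2*a+4)) := by
        rw [← pow_add, ← pow_add]; congr 1; ring
    _ ≤ _ := by
        apply mul_le_mul hu (mul_le_mul hc1 hc2 (by positivity) (cn_nonneg _ _)) (by positivity) (uu_nonneg _)

end Pool.Agent.H84_hrt
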