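import Pool.Agent.H84_hrt.Block

open Real Finset

namespace Pool.Agent.H84_hrt

lemma rpow_ge_one {N : ℕ} (hN : 1 ≤ N) (x : ℝ) (hx : 0 ≤ x) : 1 ≤ (N:ℝ)^x :=
  one_le_rpow (by exact_mod_cast hN) hx

/-- a constant -/
noncomputable def K5 (x : ℕ) : ℝ := 2^x

lemma K5_pos (x : ℕ) : 0 < K5 x := by unfold K5; positivity

lemma half_cancel (x y : ℕ) : (2:ℝ)^(x + y) * (1/2:ℝ)^y = K5 x := by
  have : (2:ℝ)^y * (1/2)^y = 1 := by rw [← mul_pow]; norm_num
  rw [pow_add, mul_assoc, this, mul_one]; rfl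

/-- the constant of block `c` -/
noncomputable def CB (c : ℕ) : ℝ := 22 * C2 + K5 500 * C2 + 2^(4*c) * C2

lemma CB_nonneg (c : ℕ) : 0 ≤ CB c := by
  unfold CB
  have h := C2_nonneg
  exact add_nonneg (add_nonneg (mul_nonneg (by norm_num) h) (mul_nonneg (K5_pos _).le h)) (mul_nonneg (by positivity) h)

theorem block_bound {c : ℕ} (hc : 1 ≤ c) (N l : ℕ) (hN1 : 1 ≤ N) (hNl : 2^l ≤ N) (hNu : N < 2^(l+1))
    (t : ℝ) (ht0 : 0 ≤ t) (ht1 : t ≤ 1) :
    Seff (th c) (be c) N t ≤ CB c * (N:ℝ)^((3:ℝ)/4) ∧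
    ∀ m, 17 * aa c (m+1) ≤ 20 * l → 50 * (l + 1) ≤ 49 * aa c (m+1) →
      Seff (th c) (be c) N t ≤ CB c * (N:ℝ)^((3:ℝ)/4) - (N:ℝ)^((4:ℝ)/5) := by
  have hC2 := C2_nonneg
  have hNr1 := rpow_ge_one hN1 ((3:ℝ)/4) (by norm_num)
  have haa0 : aa c 0 = c := by simp [aa]
  by_cases hsmall : l < 4 * aa c 0
  · -- small N
    constructor
    · refine (Seff_le_trivial _ _ N t).trans ?_
      have h1 : (N:ℝ) ≤ 2^(4*c) := by
        have : N ≤ 2^(4*c) := hNu.le.trans (Nat.pow_le_pow_right (by norm_num) (by rw [haa0] at hsmall; omega))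
        exact_mod_cast this
      have h2 : (N:ℝ) * C2 ≤ 2^(4*c) * C2 := mul_le_mul_of_nonneg_right h1 hC2
      have h3 : 2^(4*c) * C2 ≤ CB c := by
        unfold CB
        have : 0 ≤ K5 500 * C2 := mul_nonneg (K5_pos _).le hC2
        linarith
      have h4 : CB c ≤ CB c * (N:ℝ)^((3:ℝ)/4) := by
        have : 0 ≤ CB c := CB_nonneg c
        nlinarith
      linarith
    · intro m h17 _
      have h1 : aa c 1 ≤ aa c (m+1) := (aa_strictMono hc).monotone (by omega)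
      have h2 : aa c 1 = 1000000 * aa c 0 := aa_succ c 0
      omega
  push Not at hsmall
  obtain ⟨m, hm1, hm2⟩ := exists_scale_index hc hsmall
  obtain ⟨p, δ, η, hS, hδ1, hδ2, hη1, hη2⟩ := block_scale hc m
  have ha' : aa c (m+1) = 1000000 * aa c m := aa_succ c m
  have hb : bb c m = 10000 * aa c m := bb_eq c m
  set a := aa c m with ha
  set a' := aa c (m+1) with hadef
  set b := bb c m with hbdef
  have hapos : 1 ≤ a := aa_pos hc m
  set s := l / 500 with hs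
  have hs1 : 500 * s ≤ l := Nat.mul_div_le l 500
  have hs2 : l < 500 * s + 500 := by omega
  set ns := 2^s with hns
  have hns1 : 1 ≤ ns := Nat.one_le_two_pow
  have hnsr : (ns:ℝ) = 2^s := by rw [hns]; push_cast; ring
  have hqr : ((2^a : ℕ):ℝ) = 2^a := by push_cast; ring
  have hsm : 16 * (δ * (ns:ℝ)^2 * ((2^a : ℕ):ℝ)) ≤ 1 := by
    rw [hnsr, hqr]
    calc 16 * (δ * (2^s)^2 * 2^a) ≤ 16 * ((2^(a+1) * (1/2:ℝ)^a') * (2^s)^2 * 2^a) := by
          have : (0:ℝ) ≤ (2^s)^2 * 2^a := by positivity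
          nlinarith [mul_le_mul_of_nonneg_right hδ2 this]
      _ = 2^(5+2*a+2*s) * (1/2:ℝ)^a' := by
          rw [pow_add, pow_add, pow_add, mul_comm 2 a, mul_comm 2 s, pow_mul, pow_mul]; ring
      _ ≤ 1 := half_mul_two (by omega)
  have hηs : 4 * (η * (ns:ℝ)) ≤ ((2^a : ℕ):ℝ) := by
    rw [hnsr, hqr]
    calc 4 * (η * 2^s) ≤ 4 * ((2^(a+1) * (1/2:ℝ)^b) * 2^s) := by
          have : (0:ℝ) ≤ 2^s := by positivity
          nlinarith [mul_le_mul_of_nonneg_right hη2 this]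
      _ = (2^(3+s) * (1/2:ℝ)^b) * 2^a := by rw [pow_add, pow_add]; ring
      _ ≤ 1 * 2^a := mul_le_mul_of_nonneg_right (half_mul_two (by omega)) (by positivity)
      _ = 2^a := one_mul _
  -- common upper bound
  have hcommon : (20 * (((2^a:ℕ):ℝ))^2 * (ns:ℝ) + 2) * C2 + N * ((1 / (ns:ℝ))^500 * C2) ≤ CB c * (N:ℝ)^((3:ℝ)/4) := by
    rw [hnsr, hqr]
    have h1 : (2:ℝ)^(2*a+s) ≤ (N:ℝ)^((3:ℝ)/4) := by
      have := two_pow_le_rpow (x := 2*a+s) (l := l) (u := 3) (v := 4) (N := N) (by norm_num) (by omega) hNl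
      exact_mod_cast this
    have h2 : 20 * ((2:ℝ)^a)^2 * 2^s + 2 ≤ 22 * (2:ℝ)^(2*a+s) := by
      have e : ((2:ℝ)^a)^2 * 2^s = 2^(2*a+s) := by rw [pow_add, ← pow_mul, mul_comm a 2]
      have : (1:ℝ) ≤ 2^(2*a+s) := one_le_pow₀ (by norm_num)
      rw [mul_assoc, e]; linarith
    have h3 : (N:ℝ) * (1 / (2:ℝ)^s)^500 ≤ K5 500 := by
      have hNr : (N:ℝ) ≤ 2^(l+1) := by exact_mod_cast hNu.le
      have e : (1 / (2:ℝ)^s)^500 = (1/2:ℝ)^(500*s) := by
        rw [← one_div_pow, ← pow_mul, mul_comm s 500]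
      rw [e]
      calc (N:ℝ) * (1/2:ℝ)^(500*s) ≤ 2^(l+1) * (1/2:ℝ)^(500*s) := mul_le_mul_of_nonneg_right hNr (by positivity)
        _ ≤ 2^(500 + 500*s) * (1/2:ℝ)^(500*s) := by
            apply mul_le_mul_of_nonneg_right _ (by positivity)
            exact pow_le_pow_right₀ (by norm_num) (by omega)
        _ = K5 500 := half_cancel 500 (500*s)
    have h4 : (20 * ((2:ℝ)^a)^2 * 2^s + 2) * C2 ≤ 22 * C2 * (N:ℝ)^((3:ℝ)/4) := by
      calc _ ≤ (22 * (2:ℝ)^(2*a+s)) * C2 := mul_le_mul_of_nonneg_right h2 hC2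
        _ ≤ (22 * (N:ℝ)^((3:ℝ)/4)) * C2 := by
            apply mul_le_mul_of_nonneg_right _ hC2; linarith
        _ = _ := by ring
    have h5 : (N:ℝ) * ((1 / (2:ℝ)^s)^500 * C2) ≤ K5 500 * C2 * (N:ℝ)^((3:ℝ)/4) := by
      calc _ = ((N:ℝ) * (1 / (2:ℝ)^s)^500) * C2 := by ring
        _ ≤ K5 500 * C2 := mul_le_mul_of_nonneg_right h3 hC2
        _ ≤ _ := le_mul_of_one_le_right (mul_nonneg (K5_pos _).le hC2) hNr1
    have h6 : 0 ≤ 2^(4*c) * C2 * (N:ℝ)^((3:ℝ)/4) := by positivity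
    have e7 : CB c * (N:ℝ)^((3:ℝ)/4) = 22 * C2 * (N:ℝ)^((3:ℝ)/4) + K5 500 * C2 * (N:ℝ)^((3:ℝ)/4) + 2^(4*c) * C2 * (N:ℝ)^((3:ℝ)/4) := by
      unfold CB; ring
    rw [e7]; linarith
  constructor
  · exact (Seff_le hS ns hns1 hsm hηs N t ht0 ht1).trans hcommon
  · intro m' h17 h49
    -- m' = m
    have hmm : m' = m := by
      have hmono := (aa_strictMono hc).monotone
      rcases lt_trichotomy m' m with h | h | h
      · exfalso
        have : aa c (m'+1) ≤ aa c m := hmono h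
        omega
      · exact h
      · exfalso
        have h1 : aa c (m+1+1) ≤ aa c (m'+1) := hmono (by omega)
        rw [aa_succ] at h1
        omega
    rw [hmm] at h17 h49
    have hη4 : η ≤ 1/4 := by
      refine hη2.trans ?_
      have : (2:ℝ)^(a+1) * (1/2:ℝ)^b = (1/4) * (2^(a+3) * (1/2:ℝ)^b) := by
        rw [pow_add, pow_add]; ring
      rw [this]
      have := half_mul_two (x := a+3) (y := b) (by omega)
      linarith
    have hN3 : 3 ≤ N := by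
      have : 2^2 ≤ 2^l := Nat.pow_le_pow_right (by norm_num) (by omega)
      omega
    have hNδ : δ * ((N:ℝ) + 1/2) ≤ 1/3 := by
      have hNr : (N:ℝ) + 1/2 ≤ 2^(l+1) := by
        have : N + 1 ≤ 2^(l+1) := hNu
        have : (N:ℝ) + 1 ≤ 2^(l+1) := by exact_mod_cast this
        linarith
      calc δ * ((N:ℝ) + 1/2) ≤ (2^(a+1) * (1/2:ℝ)^a') * 2^(l+1) :=
            mul_le_mul hδ2 hNr (by positivity) (by positivity)
        _ = (1/4) * (2^(a+l+4) * (1/2:ℝ)^a') := by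
            rw [pow_add, pow_add, pow_add, pow_add]; ring
        _ ≤ (1/4) * 1 := by
            apply mul_le_mul_of_nonneg_left (half_mul_two (by omega)) (by norm_num)
        _ ≤ 1/3 := by norm_num
    have hn1 : 2^(2*a+2) - 1 < ns := by
      have h1 : 2^(2*a+2) ≤ 2^s := Nat.pow_le_pow_right (by norm_num) (by omega)
      have h2 : 0 < 2^(2*a+2) := by positivity
      rw [hns]; omega
    have hq1 : 2^a ≤ 2^(2*a+2) - 1 + 1 := by
      rw [Nat.sub_add_cancel Nat.one_le_two_pow]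
      exact Nat.pow_le_pow_right (by norm_num) (by omega)
    have hmain := Seff_le_main hS ns hns1 hsm hηs hη4 N hN3 hNδ t ht0 ht1 (2^(2*a+2) - 1) hn1 hq1
    have hw := main_weight a p hS.hpq
    set y := (4 * l + 8) / 5 with hy
    have hNy : (N:ℝ)^((4:ℝ)/5) ≤ 2^y := by
      have := rpow_le_two_pow (x := y) (l := l+1) (u := 4) (v := 5) (N := N) (by norm_num) (by omega) hNu.le
      exact_mod_cast this
    have hbig : (2:ℝ)^y ≤ uu (2^(2*a+2) - 1) *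
      (cn (2^(2*a+2)-1+1) (2^(2*a+2)-1+1-p) * cn (2^(2*a+2)-1+1) (2^(2*a+2)-1+1+2^a) * (2 * (η * δ * (N:ℝ)^2))) := by
      have hNl' : (2:ℝ)^l ≤ N := by exact_mod_cast hNl
      have h1 : (2:ℝ)^(2*a+1+2*l) * (1/2:ℝ)^(b+a') ≤ 2 * (η * δ * (N:ℝ)^2) := by
        calc (2:ℝ)^(2*a+1+2*l) * (1/2:ℝ)^(b+a')
            = 2 * ((2^a * (1/2:ℝ)^b) * (2^a * (1/2:ℝ)^a') * (2^l)^2) := by
              rw [pow_add, pow_add, pow_add]; ring
          _ ≤ 2 * (η * δ * (N:ℝ)^2) := by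
              apply mul_le_mul_of_nonneg_left _ (by norm_num)
              apply mul_le_mul _ (pow_le_pow_left₀ (by positivity) hNl' 2) (by positivity) (mul_nonneg hS.hη.le hS.hδ.le)
              exact mul_le_mul hη1 hδ1 (by positivity) hS.hη.le
      have h2 : (1/2:ℝ)^(2010 * a + 3016) * ((2:ℝ)^(2*a+1+2*l) * (1/2:ℝ)^(b+a')) ≤
          uu (2^(2*a+2) - 1) * (cn (2^(2*a+2)-1+1) (2^(2*a+2)-1+1-p) * cn (2^(2*a+2)-1+1) (2^(2*a+2)-1+1+2^a)) * (2 * (η * δ * (N:ℝ)^2)) :=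
        mul_le_mul hw h1 (by positivity) (mul_nonneg (uu_nonneg _) (mul_nonneg (cn_nonneg _ _) (cn_nonneg _ _)))
      have h3 : (2:ℝ)^y ≤ (1/2:ℝ)^(2010 * a + 3016) * ((2:ℝ)^(2*a+1+2*l) * (1/2:ℝ)^(b+a')) := by
        have e1 : (1/2:ℝ)^(2010 * a + 3016) * ((2:ℝ)^(2*a+1+2*l) * (1/2:ℝ)^(b+a'))
            = (2:ℝ)^(2*a+1+2*l) * (1/2:ℝ)^((2010 * a + 3016) + (b+a')) := by
          rw [pow_add (1/2:ℝ) (2010 * a + 3016)]
          generalize (1/2:ℝ)^(2010 * a + 3016) = X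
          ring
        rw [e1]
        obtain ⟨d, hd⟩ : ∃ d, 2*a+1+2*l = y + ((2010 * a + 3016) + (b+a')) + d := by
          refine ⟨2*a+1+2*l - (y + ((2010 * a + 3016) + (b+a'))), ?_⟩
          omega
        rw [hd]
        set K := (2010 * a + 3016) + (b+a')
        calc (2:ℝ)^y ≤ 2^y * 2^d := by
              have : (1:ℝ) ≤ 2^d := one_le_pow₀ (by norm_num)
              nlinarith [pow_pos (by norm_num : (0:ℝ) < 2) y]
          _ = 2^(y + K + d) * (1/2:ℝ)^K := by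
              rw [pow_add, pow_add]
              have : (2:ℝ)^K * (1/2)^K = 1 := by rw [← mul_pow]; norm_num
              calc (2:ℝ)^y * 2^d = 2^y * 2^d * (2^K * (1/2)^K) := by rw [this, mul_one]
                _ = _ := by ring
      refine h3.trans (h2.trans (le_of_eq ?_))
      ring
    linarith

end Pool.Agent.H84_hrt
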