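import Pool.Agent.H84_hrt.Term

open Real Finset

namespace Pool.Agent.H84_hrt

lemma cn_succ (n a : ℕ) (ha : a < n) :
    cn n (n + (a+1)) * (n + a + 1) = cn n (n + a) * (n - a) := by
  unfold cn
  have h := Nat.choose_succ_right_eq (2*n) (n+a)
  have h2 : (2*n - (n+a) : ℕ) = n - a := by omega
  rw [h2] at h
  have h3 : ((Nat.choose (2*n) (n+a+1) : ℕ):ℝ) * ((n:ℝ)+a+1) = (Nat.choose (2*n) (n+a) : ℝ) * ((n:ℝ) - a) := by
    have : ((Nat.choose (2*n) (n+a+1) * (n+a+1) : ℕ):ℝ) = ((Nat.choose (2*n) (n+a) * (n-a) : ℕ):ℝ) := by rw [h]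
    push_cast [Nat.cast_sub ha.le] at this
    exact this
  rw [← add_assoc, div_mul_eq_mul_div, h3, div_mul_eq_mul_div]

lemma cn_add_ge (n a : ℕ) (ha : a ≤ n) (hn : 0 < n) :
    cn n n * (1 - (a:ℝ)^2 / n) ≤ cn n (n + a) := by
  have hn' : (0:ℝ) < n := by exact_mod_cast hn
  induction a with
  | zero => simp
  | succ a ih =>
    have ih' := ih (by omega)
    have hlt : a < n := by omega
    have hs := cn_succ n a hlt
    have hc := cn_nonneg n n
    have hpos : (0:ℝ) < (n:ℝ) + a + 1 := by positivity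
    have han : (a:ℝ) + 1 ≤ n := by exact_mod_cast hlt
    have e : cn n (n + (a+1)) = cn n (n + a) * (n - a) / (n + a + 1) := by
      rw [eq_div_iff hpos.ne']; exact hs
    rw [e]
    by_cases hneg : 1 - (a:ℝ)^2 / n ≤ 0
    · have h1 : cn n n * (1 - ((a+1:ℕ):ℝ)^2 / n) ≤ 0 := by
        apply mul_nonpos_of_nonneg_of_nonpos hc
        have : (a:ℝ)^2 / n ≤ ((a+1:ℕ):ℝ)^2/n := by
          apply div_le_div_of_nonneg_right _ hn'.le
          push_cast; nlinarith
        linarith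
      refine h1.trans ?_
      have := cn_nonneg n (n+a)
      apply div_nonneg _ hpos.le
      apply mul_nonneg this; linarith
    · push Not at hneg
      have h2 : cn n n * (1 - (a:ℝ)^2 / n) * (n - a) / (n + a + 1) ≤ cn n (n + a) * (n - a) / (n + a + 1) := by
        apply div_le_div_of_nonneg_right _ hpos.le
        apply mul_le_mul_of_nonneg_right ih'; linarith
      refine le_trans ?_ h2
      have h3 : 1 - (2 * (a:ℝ) + 1)/n ≤ ((n:ℝ) - a) / (n + a + 1) := by
        rw [le_div_iff₀ hpos, sub_mul, div_mul_eq_mul_div, one_mul]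
        have : (2 * (a:ℝ) + 1) ≤ (2 * (a:ℝ) + 1) * (n + a + 1) / n := by
          rw [le_div_iff₀ hn']
          apply mul_le_mul_of_nonneg_left _ (by positivity)
          linarith [Nat.cast_nonneg (α := ℝ) a]
        linarith
      have h4 : 1 - ((a+1:ℕ):ℝ)^2/n ≤ (1 - (a:ℝ)^2/n) * (1 - (2 * (a:ℝ) + 1)/n) := by
        have : (1 - (a:ℝ)^2/n) * (1 - (2 * (a:ℝ) + 1)/n) = 1 - ((a+1:ℕ):ℝ)^2/n + (a:ℝ)^2/n * ((2 * (a:ℝ) + 1)/n) := by
          push_cast; ring
        rw [this]
        have : 0 ≤ (a:ℝ)^2/n * ((2 * (a:ℝ) + 1)/n) := by positivity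
        linarith
      have h5 : (1 - (a:ℝ)^2/n) * (1 - (2 * (a:ℝ) + 1)/n) ≤ (1 - (a:ℝ)^2/n) * (((n:ℝ) - a) / (n + a + 1)) :=
        mul_le_mul_of_nonneg_left h3 hneg.le
      calc cn n n * (1 - ((a+1:ℕ):ℝ)^2 / n) ≤ cn n n * ((1 - (a:ℝ)^2/n) * (((n:ℝ) - a) / (n + a + 1))) :=
            mul_le_mul_of_nonneg_left (h4.trans h5) hc
        _ = cn n n * (1 - (a:ℝ)^2 / n) * (n - a) / (n + a + 1) := by ring

lemma cn_sub_eq (n a : ℕ) (ha : a ≤ n) : cn n (n - a) = cn n (n + a) := by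
  unfold cn
  have : Nat.choose (2*n) (n-a) = Nat.choose (2*n) (n+a) := by
    apply Nat.choose_symm_of_eq_add; omega
  rw [this]

/-- Bounds for `Z_n` from termwise bounds. -/
lemma ZZ_le (θ β : ℝ) (N n : ℕ) (t D : ℝ)
    (hT : ∀ A B : ℤ, |A| ≤ n → |B| ≤ n → 2 * sin (2 * π * B * β) * V N (√2 * (A + θ * B)) t ≤ D) :
    ZZ θ β N n t ≤ D := by
  rw [ZZ_expand]
  have h1 : ∀ k ∈ range (2*n+1), ∀ l ∈ range (2*n+1),
      cn n k * cn n l * (2 * sin (2 * π * ((l:ℝ) - n) * β) * V N (√2 * (((k:ℝ) - n) + θ * ((l:ℝ) - n))) t)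
        ≤ cn n k * cn n l * D := by
    intro k hk l hl
    have hk' := mem_range.1 hk
    have hl' := mem_range.1 hl
    apply mul_le_mul_of_nonneg_left _ (mul_nonneg (cn_nonneg _ _) (cn_nonneg _ _))
    have := hT ((k:ℤ) - n) ((l:ℤ) - n) (by rw [abs_le]; constructor <;> omega) (by rw [abs_le]; constructor <;> omega)
    push_cast at this
    exact this
  calc _ ≤ ∑ k ∈ range (2*n+1), ∑ l ∈ range (2*n+1), cn n k * cn n l * D :=
        sum_le_sum fun k hk => sum_le_sum fun l hl => h1 k hk l hl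
    _ = (∑ k ∈ range (2*n+1), cn n k) * (∑ l ∈ range (2*n+1), cn n l) * D := by
        rw [sum_mul_sum, sum_mul]
        refine sum_congr rfl fun k _ => ?_
        rw [sum_mul]
    _ = D := by rw [sum_cn]; ring

lemma ZZ_le_main (θ β : ℝ) (N n : ℕ) (t D m : ℝ) (p q : ℕ) (hpn : p ≤ n) (hqn : q ≤ n) (hD : 0 ≤ D)
    (hT : ∀ A B : ℤ, |A| ≤ n → |B| ≤ n → 2 * sin (2 * π * B * β) * V N (√2 * (A + θ * B)) t ≤ D)
    (hm : 2 * sin (2 * π * (q:ℝ) * β) * V N (√2 * (-(p:ℝ) + θ * q)) t ≤ -m) :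
    ZZ θ β N n t ≤ D - cn n (n - p) * cn n (n + q) * m := by
  rw [ZZ_expand]
  have h1 : ∀ k ∈ range (2*n+1), ∀ l ∈ range (2*n+1),
      cn n k * cn n l * (2 * sin (2 * π * ((l:ℝ) - n) * β) * V N (√2 * (((k:ℝ) - n) + θ * ((l:ℝ) - n))) t)
        ≤ cn n k * cn n l * D - (if k = n - p then (if l = n + q then cn n k * cn n l * m else 0) else 0) := by
    intro k hk l hl
    have hk' := mem_range.1 hk
    have hl' := mem_range.1 hl
    have hcc := mul_nonneg (cn_nonneg n k) (cn_nonneg n l)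
    by_cases hkl : k = n - p ∧ l = n + q
    · rw [if_pos hkl.1, if_pos hkl.2]
      have e1 : ((k:ℝ) - n) = -(p:ℝ) := by rw [hkl.1, Nat.cast_sub hpn]; ring
      have e2 : ((l:ℝ) - n) = (q:ℝ) := by rw [hkl.2]; push_cast; ring
      rw [e1, e2]
      have := mul_le_mul_of_nonneg_left hm hcc
      have h3 : 0 ≤ cn n k * cn n l * D := mul_nonneg hcc hD
      linarith
    · have h0 : (if k = n - p then (if l = n + q then cn n k * cn n l * m else 0) else 0) = 0 := by
        by_cases h1 : k = n - p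
        · rw [if_pos h1]
          rw [if_neg (fun h2 => hkl ⟨h1, h2⟩)]
        · rw [if_neg h1]
      rw [h0, sub_zero]
      apply mul_le_mul_of_nonneg_left _ hcc
      have := hT ((k:ℤ) - n) ((l:ℤ) - n) (by rw [abs_le]; constructor <;> omega) (by rw [abs_le]; constructor <;> omega)
      push_cast at this
      exact this
  calc _ ≤ ∑ k ∈ range (2*n+1), ∑ l ∈ range (2*n+1), (cn n k * cn n l * D - (if k = n - p then (if l = n + q then cn n k * cn n l * m else 0) else 0)) :=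
        sum_le_sum fun k hk => sum_le_sum fun l hl => h1 k hk l hl
    _ = (∑ k ∈ range (2*n+1), cn n k) * (∑ l ∈ range (2*n+1), cn n l) * D - cn n (n-p) * cn n (n+q) * m := by
        simp only [sum_sub_distrib]
        congr 1
        · rw [sum_mul_sum, sum_mul]
          refine sum_congr rfl fun k _ => ?_
          rw [sum_mul]
        · rw [sum_eq_single (n-p)]
          · simp only [if_true]
            rw [sum_eq_single (n+q)]
            · simp
            · intro b _ hb; rw [if_neg hb]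
            · intro hb; exact absurd (mem_range.2 (by omega)) hb
          · intro b _ hb; simp [if_neg hb]
          · intro hb; exact absurd (mem_range.2 (by omega)) hb
    _ = _ := by rw [sum_cn]; ring

end Pool.Agent.H84_hrt
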