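import Pool.Agent.H84_hrt.Block

open Finset

namespace Pool.Agent.H84_hrt

theorem coverage : ∃ l0 : ℕ, ∀ l : ℕ, l0 ≤ l → ∃ c, 1 ≤ c ∧ c ≤ 10000000 ∧
    ∃ m, 17 * aa c (m+1) ≤ 20 * l ∧ 50 * (l+1) ≤ 49 * aa c (m+1) := by
  refine ⟨8000000, fun l hl => ?_⟩
  have hex : ∃ m, l + 1 < 8 * 1000000^(m+2) := by
    refine ⟨l, ?_⟩
    have : l + 2 < 1000000^(l+2) := Nat.lt_pow_self (by norm_num)
    omega
  classical
  obtain ⟨m, hm1, hm2⟩ : ∃ m, 8 * 1000000^(m+1) ≤ l + 1 ∧ l + 1 < 8 * 1000000^(m+2) := by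
    refine ⟨Nat.find hex, ?_, Nat.find_spec hex⟩
    rcases Nat.eq_zero_or_pos (Nat.find hex) with h | h
    · rw [h]; simp; omega
    · have := Nat.find_min hex (m := Nat.find hex - 1) (by omega)
      push Not at this
      have e : Nat.find hex - 1 + 2 = Nat.find hex + 1 := by omega
      rwa [e] at this
  set X := 1000000^(m+1) with hX
  have hXpos : 0 < X := by positivity
  have hX2 : 1000000^(m+2) = 1000000 * X := by rw [hX]; ring
  rw [hX2] at hm2
  -- c = floor (50 (l+1) / (49 X)) + 1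
  set c := (50 * (l+1)) / (49 * X) + 1 with hc
  have h1 : 49 * X * ((50 * (l+1)) / (49 * X)) ≤ 50 * (l+1) := Nat.mul_div_le _ _
  have h2 : 50 * (l+1) < 49 * X * ((50 * (l+1)) / (49 * X) + 1) := Nat.lt_mul_div_succ _ (by positivity)
  refine ⟨c, Nat.le_add_left 1 _, ?_, m, ?_, ?_⟩
  · have h3 : (50 * (l+1)) / (49 * X) < 10000000 := by
      rw [Nat.div_lt_iff_lt_mul (by positivity)]
      have : 50 * (l+1) < 50 * (8 * (1000000 * X)) := by omega
      nlinarith
    omega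
  · unfold aa
    rw [← hX]
    have h4 : 49 * (X * c) ≤ 50 * (l+1) + 49 * X := by
      rw [hc]; nlinarith
    nlinarith
  · unfold aa
    rw [← hX]
    rw [hc]; nlinarith

end Pool.Agent.H84_hrt
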