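import Mathlib

/-! Definitions shared by the parts of the HRT counterexample (see findings, seat helper84, for the paper proof). -/

open Real Finset MeasureTheory

namespace Pool.Agent.H84_hrt

/-- `kk n = ∏_{i<n} (2i+1)/(2i+2) = ∫_0^1 sin^{2n}(π y) dy = C(2n,n)/4^n`. -/
noncomputable def kk (n : ℕ) : ℝ := ∏ i ∈ range n, (2 * (i:ℝ) + 1) / (2 * i + 2)

/-- The torus of dimension `E`. -/
abbrev TT (E : ℕ) := Fin E → UnitAddCircle

/-- `sin²(π y)` as a function on the circle `ℝ/ℤ`. -/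
noncomputable def sq (y : UnitAddCircle) : ℝ := (1 - (fourier 1 y).re) / 2

/-- `∏ sin²(π y_i)`. -/
noncomputable def PP {E : ℕ} (y : TT E) : ℝ := ∏ i, sq (y i)

/-- `L(w,y) = -log(1 - w ∏ sin²(π y_i))`. -/
noncomputable def LL {E : ℕ} (w : ℝ) (y : TT E) : ℝ := - Real.log (1 - w * PP y)

/-- `Ψ(w) = Σ_{n≥1} w^n kk(n)^E / n`, which is the mean of `L(w,·)` over the torus. -/
noncomputable def Psi (E : ℕ) (w : ℝ) : ℝ := ∑' n : ℕ, w^(n+1) * kk (n+1)^E / (n+1)

/-- the uniform probability measure on `(0,1]^E ⊂ ℝ^E` (the frequencies `ν`). -/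
noncomputable def muX (E : ℕ) : Measure (Fin E → ℝ) :=
  Measure.pi (fun _ => volume.restrict (Set.Ioc (0:ℝ) 1))

/-- the phase point `γ + ν s` of the torus at (real) time `s`. -/
noncomputable def phase {E : ℕ} (ν : Fin E → ℝ) (γ : TT E) (s : ℝ) : TT E :=
  fun i => γ i + ((ν i * s : ℝ) : UnitAddCircle)

/-- trigonometric polynomials with arbitrary real frequencies. -/
def IsTrig (f : ℝ → ℂ) : Prop :=
  ∃ (S : Finset ℝ) (c : ℝ → ℂ), ∀ t, f t = ∑ ω ∈ S, c ω * Complex.exp (2 * π * Complex.I * (ω * t))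

end Pool.Agent.H84_hrt
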