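import Pool.Agent.H84_hrt.Term

open Real Finset

namespace Pool.Agent.H84_hrt

lemma strictMono_add_le {d : ℕ → ℕ} (hd : StrictMono d) (m i : ℕ) : d m + i ≤ d (i + m) := by
  induction i with
  | zero => simp
  | succ i ih =>
    have : d (i + m) < d (i + 1 + m) := hd (by omega)
    omega

lemma lac_le {d : ℕ → ℕ} (hd : StrictMono d) (m i : ℕ) :
    (1/2:ℝ)^(d (i + m)) ≤ (1/2:ℝ)^(d m) * (1/2)^i := by
  rw [← pow_add]
  exact pow_le_pow_of_le_one (by norm_num) (by norm_num) (strictMono_add_le hd m i)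

lemma lac_summable {d : ℕ → ℕ} (hd : StrictMono d) (m : ℕ) : Summable (fun i => (1/2:ℝ)^(d (i + m))) :=
  Summable.of_nonneg_of_le (fun i => by positivity) (lac_le hd m)
    ((summable_geometric_of_lt_one (by norm_num) (by norm_num)).mul_left _)

/-- the tail `Σ_{i≥m} 2^{-d_i}` -/
noncomputable def tl (d : ℕ → ℕ) (m : ℕ) : ℝ := ∑' i : ℕ, (1/2:ℝ)^(d (i + m))

lemma tl_ge {d : ℕ → ℕ} (hd : StrictMono d) (m : ℕ) : (1/2:ℝ)^(d m) ≤ tl d m := by
  unfold tl
  have := (lac_summable hd m).le_tsum 0 (fun i _ => by positivity)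
  simpa using this

lemma tl_le {d : ℕ → ℕ} (hd : StrictMono d) (m : ℕ) : tl d m ≤ 2 * (1/2:ℝ)^(d m) := by
  unfold tl
  calc _ ≤ ∑' i : ℕ, (1/2:ℝ)^(d m) * (1/2)^i :=
        Summable.tsum_le_tsum (lac_le hd m) (lac_summable hd m) ((summable_geometric_of_lt_one (by norm_num) (by norm_num)).mul_left _)
    _ = 2 * (1/2:ℝ)^(d m) := by
        rw [tsum_mul_left, tsum_geometric_of_lt_one (by norm_num) (by norm_num)]; norm_num; ring

lemma tl_split {d : ℕ → ℕ} (hd : StrictMono d) (m : ℕ) :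
    tl d 0 = ∑ i ∈ range m, (1/2:ℝ)^(d i) + tl d m := by
  unfold tl
  have := (lac_summable hd 0).sum_add_tsum_nat_add m
  simp only [add_zero] at this ⊢
  exact this.symm

lemma two_pow_mul_half {x y : ℕ} (h : y ≤ x) : (2:ℝ)^x * (1/2)^y = ((2^(x-y) : ℕ) : ℝ) := by
  push_cast
  rw [one_div, inv_pow, ← div_eq_mul_inv, pow_sub₀ _ (by norm_num) h, div_eq_mul_inv]

theorem scale_of (a b : ℕ → ℕ) (ha : StrictMono a) (hb : StrictMono b) (h0 : 1 ≤ a 0)
    (hba : ∀ i, b i ≤ a (i+1)) (m : ℕ) :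
    Scale (tl a 0) (-(tl b 0)) (2^(a m)) (∑ i ∈ range (m+1), 2^(a m - a i))
      (2^(a m) * tl a (m+1)) (2^(a m) * tl b m) := by
  have hsum : (2:ℝ)^(a m) * ∑ i ∈ range (m+1), (1/2:ℝ)^(a i) = ((∑ i ∈ range (m+1), 2^(a m - a i) : ℕ) : ℝ) := by
    rw [mul_sum, Nat.cast_sum]
    refine sum_congr rfl fun i hi => ?_
    have : i ≤ m := by have := mem_range.1 hi; omega
    exact two_pow_mul_half (ha.monotone this)
  have hθ : tl a 0 * ((2^(a m) : ℕ):ℝ) = ((∑ i ∈ range (m+1), 2^(a m - a i) : ℕ) : ℝ) + 2^(a m) * tl a (m+1) := by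
    rw [← hsum, tl_split ha (m+1)]; push_cast; ring
  have htpos : ∀ k, 0 < tl a k := fun k => lt_of_lt_of_le (by positivity) (tl_ge ha k)
  have htpos' : ∀ k, 0 < tl b k := fun k => lt_of_lt_of_le (by positivity) (tl_ge hb k)
  have hle1 : tl a 0 ≤ 1 := by
    refine (tl_le ha 0).trans ?_
    have : (1/2:ℝ)^(a 0) ≤ (1/2)^1 := pow_le_pow_of_le_one (by norm_num) (by norm_num) h0
    linarith
  refine ⟨by positivity, ?_, ?_, hθ, by have := htpos (m+1); positivity, ?_, by have := htpos' m; positivity⟩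
  · have h1 : ((∑ i ∈ range (m+1), 2^(a m - a i) : ℕ) : ℝ) ≤ ((2^(a m) : ℕ):ℝ) := by
      have h2 : tl a 0 * ((2^(a m) : ℕ):ℝ) ≤ 1 * ((2^(a m) : ℕ):ℝ) :=
        mul_le_mul_of_nonneg_right hle1 (Nat.cast_nonneg _)
      have h3 : 0 < 2^(a m) * tl a (m+1) := by have := htpos (m+1); positivity
      linarith
    exact_mod_cast h1
  · apply Nat.Coprime.pow_right
    rw [Nat.coprime_comm, Nat.coprime_two_left, sum_range_succ, Nat.sub_self, pow_zero]
    apply Even.add_one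
    apply even_sum
    intro i hi
    have hi' : i < m := mem_range.1 hi
    have : a i < a m := ha hi'
    exact (Nat.even_pow.2 ⟨even_two, by omega⟩)
  · refine ⟨-((∑ i ∈ range m, 2^(a m - b i) : ℕ) : ℤ), ?_⟩
    have : (2:ℝ)^(a m) * ∑ i ∈ range m, (1/2:ℝ)^(b i) = ((∑ i ∈ range m, 2^(a m - b i) : ℕ) : ℝ) := by
      rw [mul_sum, Nat.cast_sum]
      refine sum_congr rfl fun i hi => ?_
      have hi' : i < m := mem_range.1 hi
      exact two_pow_mul_half ((hba i).trans (ha.monotone hi'))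
    rw [tl_split hb m]
    push_cast at this ⊢
    rw [← this]
    ring

end Pool.Agent.H84_hrt
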