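import Pool.Agent.H84_hrt.TaskA
import Pool.Agent.H84_hrt.TaskB

/-! Noise assembly of the HRT counterexample (section 2 of the paper proof): for almost every choice of
the random frequencies and phases, the Birkhoff sums of the noisy functions differ from the
effective sums by `O(N^{3/4})`. -/

open Real Finset MeasureTheory

namespace Pool.Agent.H84_hrt

/-- almost surely no phase point hits the singular point, at all integer times -/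
theorem ae_PP_phase_lt_one {E : ℕ} (hE : 4 ≤ E) (σ : ℝ) :
    ∀ᵐ z : ((Fin E → ℝ) × TT E) × ℝ ∂(((muX E).prod volume).prod (volume.restrict (Set.Icc (0:ℝ) 1))),
      ∀ j : ℕ, PP (phase z.1.1 z.1.2 (σ * (z.2 + j))) < 1 := by
  rw [ae_all_iff]
  intro j
  have hm : Measurable (fun z : ((Fin E → ℝ) × TT E) × ℝ => PP (phase z.1.1 z.1.2 (σ * (z.2 + j)))) := by
    have h2 : Measurable (fun z : ((Fin E → ℝ) × TT E) × ℝ => (z.1, σ * (z.2 + j))) := by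
      fun_prop
    exact continuous_PP.measurable.comp (measurable_phase.comp h2)
  have hs : MeasurableSet {z : ((Fin E → ℝ) × TT E) × ℝ | ¬ PP (phase z.1.1 z.1.2 (σ * (z.2 + j))) < 1} :=
    (measurableSet_lt hm measurable_const).compl
  rw [ae_iff, Measure.prod_apply_symm hs]
  have h0 : ∀ t : ℝ, ((muX E).prod volume) ((fun x : (Fin E → ℝ) × TT E => (x, t)) ⁻¹'
      {z : ((Fin E → ℝ) × TT E) × ℝ | ¬ PP (phase z.1.1 z.1.2 (σ * (z.2 + j))) < 1}) = 0 := by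
    intro t
    have h1 := (measurePreserving_single (E := E) (σ * (t + j))).quasiMeasurePreserving.ae
      (ae_PP_lt_one hE)
    exact h1
  rw [lintegral_congr h0, lintegral_zero]

theorem noise_grid {E : ℕ} (hE : 4 ≤ E) (w : ℝ → ℝ) (hw : Measurable w) (h0 : ∀ s, 0 ≤ w s)
    (h1 : ∀ s, w s ≤ 1) (σ : ℝ) (hσ : σ = 1 ∨ σ = -1) :
    ∀ᵐ z : ((Fin E → ℝ) × TT E) × ℝ ∂(((muX E).prod volume).prod (volume.restrict (Set.Icc (0:ℝ) 1))),
      ∃ C' : ℝ, ∀ M : ℕ,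
        |∑ j ∈ range (M^4), (LL (w (z.2 + j)) (phase z.1.1 z.1.2 (σ * (z.2 + j)))
          - Psi E (w (z.2 + j)))| ≤ C' * (M:ℝ)^3 := by
  obtain ⟨C, hC⟩ := exists_var_bound hE
  have hint : ∀ s, ∫ y : TT E, LL (w s) y = Psi E (w s) := fun s => integral_LL hE (h0 s) (h1 s)
  refine grid_bound E (fun j t y => LL (w (t + j)) y - Psi E (w (t + j))) ?_ ?_ ?_ C ?_ σ hσ
  · intro j
    have e : Function.uncurry (fun (t : ℝ) (y : TT E) => LL (w (t + j)) y - Psi E (w (t + j))) =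
        fun z : ℝ × TT E => LL (w (z.1 + j)) z.2 - ∫ y : TT E, LL (w (z.1 + j)) y := by
      funext z
      simp only [Function.uncurry, hint]
    rw [e]
    have m1 : Measurable (fun z : ℝ × TT E => w (z.1 + j)) :=
      hw.comp (measurable_fst.add_const _)
    exact (measurable_LL.comp (m1.prodMk measurable_snd)).sub ((measurable_int_LL E).comp m1)
  · intro j t
    exact (memLp_LL hE (h0 _) (h1 _)).sub (memLp_const _)
  · intro j t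
    have hi : Integrable (fun y : TT E => LL (w (t + j)) y) :=
      (memLp_LL hE (h0 _) (h1 _)).integrable (by norm_num)
    rw [integral_sub hi (integrable_const _), hint]
    simp
  · intro j t
    exact hC _ (h0 _) (h1 _)

/-- Passing from the grid `M^4` to all `N`. -/
theorem grid_to_all (a b : ℕ → ℝ) (K : ℝ) (hK : 0 ≤ K) (hab : ∀ j, |a j| ≤ b j + 2 * K) (C1 C2 : ℝ)
    (h1 : ∀ M : ℕ, |∑ j ∈ range (M^4), a j| ≤ C1 * (M:ℝ)^3)
    (h2 : ∀ M : ℕ, |∑ j ∈ range (M^4), b j| ≤ C2 * (M:ℝ)^3) :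
    ∃ C : ℝ, ∀ N : ℕ, |∑ j ∈ range N, a j| ≤ C * (N:ℝ)^(3/4 : ℝ) := by
  have hC1 : 0 ≤ C1 := by
    have := h1 1
    simp only [one_pow, Nat.cast_one, mul_one] at this
    exact (abs_nonneg _).trans this
  have hC2 : 0 ≤ C2 := by
    have := h2 1
    simp only [one_pow, Nat.cast_one, mul_one] at this
    exact (abs_nonneg _).trans this
  refine ⟨C1 + 9 * C2 + 30 * K, fun N => ?_⟩
  rcases Nat.eq_zero_or_pos N with rfl | hN
  · simp
  -- M = floor of the fourth root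
  obtain ⟨M, hM1, hM2⟩ : ∃ M : ℕ, M^4 ≤ N ∧ N < (M+1)^4 := by
    refine ⟨Nat.findGreatest (fun M => M^4 ≤ N) N, ?_, ?_⟩
    · exact Nat.findGreatest_spec (P := fun M => M^4 ≤ N) (Nat.zero_le N) (by simp)
    · by_contra hcon
      push Not at hcon
      have hle : Nat.findGreatest (fun M => M^4 ≤ N) N + 1 ≤ N := by
        calc Nat.findGreatest (fun M => M^4 ≤ N) N + 1
            ≤ (Nat.findGreatest (fun M => M^4 ≤ N) N + 1)^4 := Nat.le_self_pow (by norm_num) _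
          _ ≤ N := hcon
      have := Nat.le_findGreatest (P := fun M => M^4 ≤ N) hle hcon
      omega
  have hMpos : 1 ≤ M := by
    by_contra hcon
    have : M = 0 := by omega
    subst this
    simp at hM2
    omega
  have hM' : (1:ℝ) ≤ M := by exact_mod_cast hMpos
  have hM3 : (M:ℝ)^3 ≤ (N:ℝ)^(3/4 : ℝ) := by
    have h4 : (M:ℝ)^4 ≤ N := by exact_mod_cast hM1
    calc (M:ℝ)^3 = ((M:ℝ)^4)^(3/4 : ℝ) := by
          rw [← Real.rpow_natCast, ← Real.rpow_natCast, ← Real.rpow_mul (by positivity)]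
          norm_num
      _ ≤ _ := Real.rpow_le_rpow (by positivity) h4 (by norm_num)
  have hM31 : ((M:ℝ)+1)^3 ≤ 8 * (M:ℝ)^3 := by
    have : (M:ℝ) + 1 ≤ 2 * M := by linarith
    calc ((M:ℝ)+1)^3 ≤ (2 * (M:ℝ))^3 := pow_le_pow_left₀ (by positivity) this 3
      _ = _ := by ring
  have hsplit : ∀ f : ℕ → ℝ, ∀ N1 N2 : ℕ, N1 ≤ N2 →
      ∑ j ∈ range N2, f j = ∑ j ∈ range N1, f j + ∑ j ∈ Ico N1 N2, f j := by
    intro f N1 N2 h
    rw [Finset.sum_range_add_sum_Ico f h]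
  have hrem : |∑ j ∈ Ico (M^4) N, a j| ≤ ∑ j ∈ Ico (M^4) ((M+1)^4), (b j + 2 * K) := by
    calc |∑ j ∈ Ico (M^4) N, a j| ≤ ∑ j ∈ Ico (M^4) N, |a j| := abs_sum_le_sum_abs _ _
      _ ≤ ∑ j ∈ Ico (M^4) N, (b j + 2 * K) := sum_le_sum fun j _ => hab j
      _ ≤ _ := by
        refine sum_le_sum_of_subset_of_nonneg (Ico_subset_Ico_right hM2.le) fun j _ _ => ?_
        exact (abs_nonneg _).trans (hab j)
  have hB : ∑ j ∈ Ico (M^4) ((M+1)^4), (b j + 2 * K) ≤ (9 * C2 + 30 * K) * (M:ℝ)^3 := by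
    rw [sum_add_distrib, sum_const, Nat.card_Ico, nsmul_eq_mul]
    have hle : M^4 ≤ (M+1)^4 := Nat.pow_le_pow_left (by omega) 4
    have e1 : ∑ j ∈ Ico (M^4) ((M+1)^4), b j = ∑ j ∈ range ((M+1)^4), b j - ∑ j ∈ range (M^4), b j := by
      rw [hsplit b _ _ hle]; ring
    have b1 := abs_le.mp (h2 (M+1))
    have b2 := abs_le.mp (h2 M)
    push_cast [Nat.cast_sub hle] at b1 ⊢
    have hd : ((M:ℝ)+1)^4 - (M:ℝ)^4 ≤ 15 * (M:ℝ)^3 := by
      have h2' : (M:ℝ)^2 ≤ (M:ℝ)^3 := by nlinarith [sq_nonneg (M:ℝ)]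
      have h3' : (M:ℝ) ≤ (M:ℝ)^3 := by nlinarith [sq_nonneg (M:ℝ)]
      have h4' : (1:ℝ) ≤ (M:ℝ)^3 := one_le_pow₀ hM'
      nlinarith
    have hd0 : 0 ≤ ((M:ℝ)+1)^4 - (M:ℝ)^4 := by
      have := pow_le_pow_left₀ (by positivity : (0:ℝ) ≤ M) (by linarith : (M:ℝ) ≤ M+1) 4
      linarith
    have hk : (((M:ℝ)+1)^4 - (M:ℝ)^4) * (2 * K) ≤ 15 * (M:ℝ)^3 * (2 * K) :=
      mul_le_mul_of_nonneg_right hd (by positivity)
    have hc : C2 * ((M:ℝ)+1)^3 ≤ C2 * (8 * (M:ℝ)^3) := mul_le_mul_of_nonneg_left hM31 hC2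
    rw [e1]
    nlinarith [b1.1, b1.2, b2.1, b2.2]
  rw [hsplit a _ _ hM1]
  calc |∑ j ∈ range (M^4), a j + ∑ j ∈ Ico (M^4) N, a j|
      ≤ |∑ j ∈ range (M^4), a j| + |∑ j ∈ Ico (M^4) N, a j| := abs_add_le _ _
    _ ≤ C1 * (M:ℝ)^3 + (9 * C2 + 30 * K) * (M:ℝ)^3 := add_le_add (h1 M) (hrem.trans hB)
    _ = (C1 + 9 * C2 + 30 * K) * (M:ℝ)^3 := by ring
    _ ≤ _ := mul_le_mul_of_nonneg_left hM3 (by positivity)

/-- The noise bound for one function `w`. -/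
theorem noise_bound {E : ℕ} (hE : 4 ≤ E) (w : ℝ → ℝ) (hw : Measurable w) (h0 : ∀ s, 0 ≤ w s)
    (h1 : ∀ s, w s ≤ 1) (σ : ℝ) (hσ : σ = 1 ∨ σ = -1) :
    ∀ᵐ z : ((Fin E → ℝ) × TT E) × ℝ ∂(((muX E).prod volume).prod (volume.restrict (Set.Icc (0:ℝ) 1))),
      ∃ C' : ℝ, ∀ N : ℕ,
        |∑ j ∈ range N, (LL (w (z.2 + j)) (phase z.1.1 z.1.2 (σ * (z.2 + j)))
          - Psi E (w (z.2 + j)))| ≤ C' * (N:ℝ)^(3/4 : ℝ) := by
  filter_upwards [noise_grid hE w hw h0 h1 σ hσ,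
    noise_grid hE (fun _ => (1:ℝ)) measurable_const (fun _ => zero_le_one) (fun _ => le_rfl) σ hσ,
    ae_PP_phase_lt_one hE σ] with z hz1 hz2 hz3
  obtain ⟨C1, hC1⟩ := hz1
  obtain ⟨C2, hC2⟩ := hz2
  refine grid_to_all _ _ (Psi E 1) (Psi_nonneg hE zero_le_one le_rfl) (fun j => ?_) C1 C2 hC1 hC2
  have a1 := LL_nonneg (h0 (z.2 + j)) (h1 (z.2 + j)) (phase z.1.1 z.1.2 (σ * (z.2 + j)))
  have a2 := LL_le (h0 (z.2 + j)) (h1 (z.2 + j)) _ (hz3 j)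
  have a3 := Psi_nonneg hE (h0 (z.2 + j)) (h1 (z.2 + j))
  have a4 := Psi_le hE (h0 (z.2 + j)) (h1 (z.2 + j))
  rw [abs_le]
  constructor <;> linarith

theorem noise (E : ℕ) (hE : 4 ≤ E) (w : ℝ → ℝ) (hw : Continuous w) (h0 : ∀ s, 0 ≤ w s)
    (h1 : ∀ s, w s ≤ 1) (σ : ℝ) (hσ : σ = 1 ∨ σ = -1) :
    ∀ᵐ z : ((Fin E → ℝ) × TT E) × ℝ ∂(((muX E).prod volume).prod (volume.restrict (Set.Icc (0:ℝ) 1))),
      ∃ C : ℝ, ∀ N : ℕ,
        |∑ j ∈ range N, (LL (w (z.2 + j)) (phase z.1.1 z.1.2 (σ * (z.2 + j)))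
          - Psi E (w (z.2 + j)))| ≤ C * (N:ℝ)^((3:ℝ)/4) :=
  noise_bound hE w hw.measurable h0 h1 σ hσ

/-- The form used in the final assembly: a finite family of blocks, `wP` the factors at `t`, `wM` those at
`-t`. -/
theorem noise_final {E : ℕ} (hE : 4 ≤ E) {ι : Type*} (s : Finset ι) (wP wM : ι → ℝ → ℝ)
    (hP : ∀ c, Measurable (wP c)) (hM : ∀ c, Measurable (wM c))
    (hP0 : ∀ c s, 0 ≤ wP c s) (hP1 : ∀ c s, wP c s ≤ 1)
    (hM0 : ∀ c s, 0 ≤ wM c s) (hM1 : ∀ c s, wM c s ≤ 1) :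
    ∀ᵐ x : (Fin E → ℝ) × TT E ∂((muX E).prod volume), ∀ᵐ t ∂(volume.restrict (Set.Icc (0:ℝ) 1)),
      (∀ j : ℕ, PP (phase x.1 x.2 (t + j)) < 1 ∧ PP (phase x.1 x.2 (-(t + j))) < 1) ∧
      ∃ C' : ℝ, ∀ N : ℕ,
        |∑ j ∈ range N, ∑ c ∈ s, (LL (wM c (t + j)) (phase x.1 x.2 (-(t + j)))
            - LL (wP c (t + j)) (phase x.1 x.2 (t + j)))
          - ∑ j ∈ range N, ∑ c ∈ s, (Psi E (wM c (t + j)) - Psi E (wP c (t + j)))|
            ≤ C' * (N:ℝ)^(3/4 : ℝ) := by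
  have key : ∀ᵐ z : ((Fin E → ℝ) × TT E) × ℝ ∂(((muX E).prod volume).prod (volume.restrict (Set.Icc (0:ℝ) 1))),
      (∀ j : ℕ, PP (phase z.1.1 z.1.2 (z.2 + j)) < 1 ∧ PP (phase z.1.1 z.1.2 (-(z.2 + j))) < 1) ∧
      ∃ C' : ℝ, ∀ N : ℕ,
        |∑ j ∈ range N, ∑ c ∈ s, (LL (wM c (z.2 + j)) (phase z.1.1 z.1.2 (-(z.2 + j)))
            - LL (wP c (z.2 + j)) (phase z.1.1 z.1.2 (z.2 + j)))
          - ∑ j ∈ range N, ∑ c ∈ s, (Psi E (wM c (z.2 + j)) - Psi E (wP c (z.2 + j)))|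
            ≤ C' * (N:ℝ)^(3/4 : ℝ) := by
    have hPa : ∀ᵐ z : ((Fin E → ℝ) × TT E) × ℝ ∂(((muX E).prod volume).prod (volume.restrict (Set.Icc (0:ℝ) 1))),
        ∀ c ∈ s, ∃ C' : ℝ, ∀ N : ℕ,
        |∑ j ∈ range N, (LL (wP c (z.2 + j)) (phase z.1.1 z.1.2 (1 * (z.2 + j)))
          - Psi E (wP c (z.2 + j)))| ≤ C' * (N:ℝ)^(3/4 : ℝ) :=
      (Filter.eventually_all_finset s).mpr fun c _ =>
        noise_bound hE (wP c) (hP c) (hP0 c) (hP1 c) 1 (Or.inl rfl)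
    have hMa : ∀ᵐ z : ((Fin E → ℝ) × TT E) × ℝ ∂(((muX E).prod volume).prod (volume.restrict (Set.Icc (0:ℝ) 1))),
        ∀ c ∈ s, ∃ C' : ℝ, ∀ N : ℕ,
        |∑ j ∈ range N, (LL (wM c (z.2 + j)) (phase z.1.1 z.1.2 (-1 * (z.2 + j)))
          - Psi E (wM c (z.2 + j)))| ≤ C' * (N:ℝ)^(3/4 : ℝ) :=
      (Filter.eventually_all_finset s).mpr fun c _ =>
        noise_bound hE (wM c) (hM c) (hM0 c) (hM1 c) (-1) (Or.inr rfl)
    filter_upwards [hPa, hMa, ae_PP_phase_lt_one hE 1, ae_PP_phase_lt_one hE (-1)] with z z1 z2 z3 z4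
    refine ⟨fun j => ⟨by simpa using z3 j, by simpa using z4 j⟩, ?_⟩
    choose! D1 hD1 using z1
    choose! D2 hD2 using z2
    refine ⟨∑ c ∈ s, (D1 c + D2 c), fun N => ?_⟩
    have e : ∑ j ∈ range N, ∑ c ∈ s, (LL (wM c (z.2 + j)) (phase z.1.1 z.1.2 (-(z.2 + j)))
            - LL (wP c (z.2 + j)) (phase z.1.1 z.1.2 (z.2 + j)))
          - ∑ j ∈ range N, ∑ c ∈ s, (Psi E (wM c (z.2 + j)) - Psi E (wP c (z.2 + j)))
        = ∑ c ∈ s, (∑ j ∈ range N, (LL (wM c (z.2 + j)) (phase z.1.1 z.1.2 (-1 * (z.2 + j)))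
          - Psi E (wM c (z.2 + j))) - ∑ j ∈ range N, (LL (wP c (z.2 + j)) (phase z.1.1 z.1.2 (1 * (z.2 + j)))
          - Psi E (wP c (z.2 + j)))) := by
      rw [← sum_sub_distrib, sum_congr rfl (fun j _ => (sum_sub_distrib _ _).symm), sum_comm]
      refine sum_congr rfl fun c _ => ?_
      rw [← sum_sub_distrib]
      refine sum_congr rfl fun j _ => ?_
      rw [one_mul, neg_one_mul]
      ring
    rw [e, sum_mul]
    refine (abs_sum_le_sum_abs _ _).trans (sum_le_sum fun c hc => ?_)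
    have a1 := hD1 c hc N
    have a2 := hD2 c hc N
    refine (abs_sub _ _).trans ?_
    rw [add_mul]
    linarith
  exact Measure.ae_ae_of_ae_prod key

end Pool.Agent.H84_hrt
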