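import Mathlib

open Real Finset

namespace Pool.Agent.H84_hrt

/-- `V N lam t = Σ_{j<N} sin(2π lam (t+j))`. -/
noncomputable def V (N : ℕ) (lam t : ℝ) : ℝ := ∑ j ∈ range N, sin (2 * π * lam * (t + j))

lemma V_closed (N : ℕ) (lam t : ℝ) :
    2 * sin (π * lam) * V N lam t
      = cos (2 * π * lam * (t - 1/2)) - cos (2 * π * lam * (N + t - 1/2)) := by
  unfold V
  induction N with
  | zero => simp
  | succ N ih =>
    rw [sum_range_succ, mul_add, ih]
    have h : 2 * sin (π * lam) * sin (2 * π * lam * (t + N))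
        = cos (2 * π * lam * (t + N) - π * lam) - cos (2 * π * lam * (t + N) + π * lam) := by
      rw [cos_sub, cos_add]; ring
    rw [h]
    push_cast
    ring_nf

lemma V_neg (N : ℕ) (lam t : ℝ) : V N (-lam) t = - V N lam t := by
  unfold V
  rw [← sum_neg_distrib]
  refine sum_congr rfl fun j _ => ?_
  rw [← sin_neg]; ring_nf

lemma V_zero (N : ℕ) (t : ℝ) : V N 0 t = 0 := by
  unfold V; simp

/-- Geometric-sum bound. -/
lemma abs_V_le (N : ℕ) (lam t κ : ℝ) (hκ : 0 < κ) (h : κ ≤ |sin (π * lam)|) :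
    |V N lam t| ≤ 1 / κ := by
  have h1 := V_closed N lam t
  have h2 : |2 * sin (π * lam) * V N lam t| ≤ 2 := by
    rw [h1]
    have a := abs_cos_le_one (2 * π * lam * (t - 1/2))
    have b := abs_cos_le_one (2 * π * lam * (N + t - 1/2))
    calc _ ≤ |cos (2 * π * lam * (t - 1/2))| + |cos (2 * π * lam * (N + t - 1/2))| := abs_sub _ _
      _ ≤ 2 := by linarith
  rw [abs_mul, abs_mul, abs_two] at h2
  rw [le_div_iff₀ hκ]
  have := mul_le_mul_of_nonneg_left h (abs_nonneg (V N lam t))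
  nlinarith [abs_nonneg (V N lam t), abs_nonneg (sin (π * lam))]

/-- Lower bound for small positive frequency. -/
lemma V_ge (N : ℕ) (lam t : ℝ) (h0 : 0 < lam) (h1 : lam ≤ 1/2) (ht0 : 0 ≤ t) (ht1 : t ≤ 1) :
    -(1.24 * lam) ≤ V N lam t := by
  have hc := V_closed N lam t
  have hs : 2 * lam ≤ sin (π * lam) := by
    have := mul_le_sin (x := π * lam) (by positivity) (by nlinarith [pi_pos])
    have e : 2 / π * (π * lam) = 2 * lam := by field_simp
    linarith
  have hcos : 1 - (π * lam)^2 / 2 ≤ cos (2 * π * lam * (t - 1/2)) := by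
    have := one_sub_sq_div_two_le_cos (x := 2 * π * lam * (t - 1/2))
    have h3 : (2 * π * lam * (t - 1/2))^2 ≤ (π * lam)^2 := by
      have : (2 * π * lam * (t - 1/2))^2 = (π * lam)^2 * (2*t - 1)^2 := by ring
      rw [this]
      have : (2*t-1)^2 ≤ 1 := by nlinarith
      nlinarith [sq_nonneg (π * lam)]
    linarith
  have hc2 := cos_le_one (2 * π * lam * (N + t - 1/2))
  have hpi : π^2 < 9.87 := by
    have := pi_lt_d4; nlinarith [pi_pos]
  by_contra hcon
  push Not at hcon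
  have hpos : 0 < sin (π * lam) := by linarith
  have h5 : 2 * sin (π * lam) * V N lam t < 2 * sin (π * lam) * (-(1.24 * lam)) := by
    apply mul_lt_mul_of_pos_left hcon; positivity
  have h6 : 2 * sin (π * lam) * (-(1.24 * lam)) ≤ 2 * (2 * lam) * (-(1.24 * lam)) := by
    nlinarith
  have h7 : -((π * lam)^2/2) ≤ 2 * sin (π * lam) * V N lam t := by rw [hc]; linarith
  have : (π * lam)^2 / 2 ≤ 9.87 * lam^2 / 2 := by nlinarith [sq_nonneg lam]
  nlinarith [sq_nonneg lam]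

/-- Quadratic growth of the main resonance. -/
lemma V_ge_main (N : ℕ) (hN : 3 ≤ N) (lam t : ℝ) (h0 : 0 < lam) (h1 : lam * (N + 1/2) ≤ 1/2)
    (ht0 : 0 ≤ t) (ht1 : t ≤ 1) : lam * N^2 / 4 ≤ V N lam t := by
  have hN' : (3:ℝ) ≤ N := by exact_mod_cast hN
  have hlam : lam ≤ 1/2 := by nlinarith
  have hc := V_closed N lam t
  have hs : 2 * lam ≤ sin (π * lam) := by
    have := mul_le_sin (x := π * lam) (by positivity) (by nlinarith [pi_pos])
    have e : 2 / π * (π * lam) = 2 * lam := by field_simp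
    linarith
  have hs2 : sin (π * lam) ≤ π * lam := sin_le (by positivity)
  have hcos : 1 - (π * lam)^2 / 2 ≤ cos (2 * π * lam * (t - 1/2)) := by
    have := one_sub_sq_div_two_le_cos (x := 2 * π * lam * (t - 1/2))
    have h3 : (2 * π * lam * (t - 1/2))^2 ≤ (π * lam)^2 := by
      have : (2 * π * lam * (t - 1/2))^2 = (π * lam)^2 * (2*t - 1)^2 := by ring
      rw [this]
      have : (2*t-1)^2 ≤ 1 := by nlinarith
      nlinarith [sq_nonneg (π * lam)]
    linarith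
  -- upper bound for cos (2πλ(N+t-1/2))
  have habs : |2 * π * lam * (N + t - 1/2)| ≤ π := by
    rw [abs_of_nonneg (by have := pi_pos; apply mul_nonneg (by positivity); linarith)]
    have : 2 * π * lam * (N + t - 1/2) ≤ 2 * π * (lam * (N + 1/2)) := by
      have : lam * (N + t - 1/2) ≤ lam * (N + 1/2) := by
        apply mul_le_mul_of_nonneg_left _ h0.le; linarith
      nlinarith [pi_pos]
    nlinarith [pi_pos]
  have hcos2 : cos (2 * π * lam * (N + t - 1/2)) ≤ 1 - 2 / π^2 * (2 * π * lam * (N + t - 1/2))^2 :=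
    cos_le_one_sub_mul_cos_sq habs
  have e1 : 2 / π^2 * (2 * π * lam * (N + t - 1/2))^2 = 8 * lam^2 * (N + t - 1/2)^2 := by
    have := pi_ne_zero
    field_simp
    ring
  rw [e1] at hcos2
  have hpi2 : π^2 < 9.87 := by
    have := pi_lt_d4; nlinarith [pi_pos]
  have h25 : (25/36:ℝ) * N^2 ≤ (N + t - 1/2)^2 := by nlinarith
  have hnum : lam^2 * N^2 * 5 ≤ 2 * sin (π * lam) * V N lam t := by
    rw [hc]
    have : (π * lam)^2 / 2 ≤ 4.94 * lam^2 := by nlinarith [sq_nonneg lam]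
    have h9 : (9:ℝ) ≤ N^2 := by nlinarith
    have h10 : 4.94 * lam^2 ≤ lam^2 * N^2 * (5/9) := by nlinarith [sq_nonneg lam]
    have h11 : 8 * lam^2 * ((25/36:ℝ) * N^2) ≤ 8 * lam^2 * (N + t - 1/2)^2 := by
      apply mul_le_mul_of_nonneg_left h25; positivity
    nlinarith [sq_nonneg lam]
  have hspos : 0 < sin (π * lam) := by linarith
  by_contra hcon
  push Not at hcon
  have hpi3 : π < 3.15 := by have := pi_lt_d2; linarith
  have h5 : 2 * sin (π * lam) * V N lam t < 2 * sin (π * lam) * (lam * N^2 / 4) := by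
    apply mul_lt_mul_of_pos_left hcon; positivity
  have h6 : 2 * sin (π * lam) * (lam * N^2 / 4) ≤ 2 * (3.15 * lam) * (lam * N^2/4) := by
    have h61 : 0 ≤ lam * N^2/4 := by positivity
    have h62 : sin (π * lam) ≤ 3.15 * lam := by nlinarith
    have h63 : 2 * sin (π * lam) ≤ 2 * (3.15 * lam) := by linarith
    exact mul_le_mul_of_nonneg_right h63 h61
  have h7 : 2 * (3.15 * lam) * (lam * N^2/4) = 1.575 * (lam^2 * N^2) := by ring
  have h8 : 0 < lam^2 * N^2 := by positivity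
  linarith

/-- coefficients of `cos^{2n}` -/
noncomputable def cn (n k : ℕ) : ℝ := (Nat.choose (2*n) k : ℝ) / 4^n

lemma cn_nonneg (n k : ℕ) : 0 ≤ cn n k := by unfold cn; positivity

lemma sum_cn (n : ℕ) : ∑ k ∈ range (2*n+1), cn n k = 1 := by
  unfold cn
  rw [← sum_div]
  have := Nat.sum_range_choose (2*n)
  have h : (∑ k ∈ range (2*n+1), (Nat.choose (2*n) k : ℝ)) = 4^n := by
    have h2 : ((∑ k ∈ range (2*n+1), Nat.choose (2*n) k : ℕ) : ℝ) = ((2^(2*n) : ℕ):ℝ) := by rw [this]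
    push_cast at h2
    rw [h2, pow_mul]; norm_num
  rw [h, div_self (by positivity)]

lemma cos_pow_eq (n : ℕ) (x : ℝ) :
    ((cos (π * x) ^ (2*n) : ℝ) : ℂ) = ∑ k ∈ range (2*n+1), (cn n k : ℂ) * Complex.exp (((2 * π * ((k:ℝ) - n) * x : ℝ) : ℂ) * Complex.I) := by
  push_cast
  rw [Complex.cos, div_pow, add_pow, sum_div]
  refine sum_congr rfl fun k hk => ?_
  have hk' : k ≤ 2*n := by simpa [Nat.lt_succ_iff] using mem_range.1 hk
  unfold cn
  rw [← Complex.exp_nat_mul, ← Complex.exp_nat_mul, ← Complex.exp_add]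
  have e : (k:ℂ) * (↑π * ↑x * Complex.I) + ((2*n - k : ℕ):ℂ) * (-(↑π * ↑x) * Complex.I) = 2 * ↑π * (↑k - ↑n) * ↑x * Complex.I := by
    rw [Nat.cast_sub hk']; push_cast; ring
  rw [e]
  have e2 : (2:ℂ)^(2*n) = 4^n := by rw [pow_mul]; norm_num
  rw [e2]
  push_cast
  ring

lemma diff_expand (n : ℕ) (x y β : ℝ) :
    cos (π * x) ^ (2*n) * (cos (π * (y - β)) ^ (2*n) - cos (π * (y + β)) ^ (2*n))
      = ∑ k ∈ range (2*n+1), ∑ l ∈ range (2*n+1), cn n k * cn n l *
          (2 * sin (2 * π * ((l:ℝ) - n) * β) * sin (2 * π * (((k:ℝ) - n) * x + ((l:ℝ) - n) * y))) := by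
  have h1 : ((cos (π * x) ^ (2*n) * (cos (π * (y - β)) ^ (2*n) - cos (π * (y + β)) ^ (2*n)) : ℝ) : ℂ)
      = ∑ k ∈ range (2*n+1), ∑ l ∈ range (2*n+1), ((cn n k * cn n l : ℝ) : ℂ) *
        (Complex.exp (((2 * π * ((k:ℝ) - n) * x : ℝ) : ℂ) * Complex.I) *
          (Complex.exp (((2 * π * ((l:ℝ) - n) * (y - β) : ℝ) : ℂ) * Complex.I) -
           Complex.exp (((2 * π * ((l:ℝ) - n) * (y + β) : ℝ) : ℂ) * Complex.I))) := by
    rw [Complex.ofReal_mul, Complex.ofReal_sub, cos_pow_eq, cos_pow_eq, cos_pow_eq,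
      ← sum_sub_distrib, sum_mul_sum]
    refine sum_congr rfl fun k _ => sum_congr rfl fun l _ => ?_
    push_cast
    ring
  have h2 := congrArg Complex.re h1
  rw [Complex.ofReal_re] at h2
  rw [h2, Complex.re_sum]
  refine sum_congr rfl fun k _ => ?_
  rw [Complex.re_sum]
  refine sum_congr rfl fun l _ => ?_
  rw [Complex.re_ofReal_mul, mul_sub, ← Complex.exp_add, ← Complex.exp_add, Complex.sub_re]
  congr 1
  have e1 : (((2 * π * ((k:ℝ) - n) * x : ℝ) : ℂ) * Complex.I + ((2 * π * ((l:ℝ) - n) * (y - β) : ℝ) : ℂ) * Complex.I)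
      = ((2 * π * (((k:ℝ) - n) * x + ((l:ℝ) - n) * y) - 2 * π * ((l:ℝ) - n) * β : ℝ) : ℂ) * Complex.I := by
    push_cast; ring
  have e2 : (((2 * π * ((k:ℝ) - n) * x : ℝ) : ℂ) * Complex.I + ((2 * π * ((l:ℝ) - n) * (y + β) : ℝ) : ℂ) * Complex.I)
      = ((2 * π * (((k:ℝ) - n) * x + ((l:ℝ) - n) * y) + 2 * π * ((l:ℝ) - n) * β : ℝ) : ℂ) * Complex.I := by
    push_cast; ring
  rw [e1, e2, Complex.exp_ofReal_mul_I_re, Complex.exp_ofReal_mul_I_re, cos_sub, cos_add]
  ring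

/-- the two-frequency factor -/
noncomputable def wp (θ β s : ℝ) : ℝ := cos (π * (√2 * s)) ^ 2 * cos (π * (√2 * θ * s + β)) ^ 2

lemma wp_nonneg (θ β s : ℝ) : 0 ≤ wp θ β s := by unfold wp; positivity

lemma wp_le_one (θ β s : ℝ) : wp θ β s ≤ 1 := by
  unfold wp
  have h1 := cos_sq_le_one (π * (√2 * s))
  have h2 := cos_sq_le_one (π * (√2 * θ * s + β))
  exact mul_le_one₀ h1 (sq_nonneg _) h2

lemma wp_neg (θ β s : ℝ) : wp θ β (-s) = wp θ (-β) s := by
  unfold wp
  have e1 : π * (√2 * -s) = -(π * (√2 * s)) := by ring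
  have e2 : π * (√2 * θ * -s + β) = -(π * (√2 * θ * s + -β)) := by ring
  rw [e1, e2, cos_neg, cos_neg]

/-- `Z_n`, the level-`n` part of the effective sum -/
noncomputable def ZZ (θ β : ℝ) (N n : ℕ) (t : ℝ) : ℝ :=
  ∑ j ∈ range N, (wp θ (-β) (t + j) ^ n - wp θ β (t + j) ^ n)

lemma ZZ_expand (θ β : ℝ) (N n : ℕ) (t : ℝ) :
    ZZ θ β N n t = ∑ k ∈ range (2*n+1), ∑ l ∈ range (2*n+1), cn n k * cn n l *
      (2 * sin (2 * π * ((l:ℝ) - n) * β) * V N (√2 * (((k:ℝ) - n) + θ * ((l:ℝ) - n))) t) := by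
  unfold ZZ V
  have h : ∀ j ∈ range N, (wp θ (-β) (t + j) ^ n - wp θ β (t + j) ^ n) =
      ∑ k ∈ range (2*n+1), ∑ l ∈ range (2*n+1), cn n k * cn n l *
          (2 * sin (2 * π * ((l:ℝ) - n) * β) * sin (2 * π * (√2 * (((k:ℝ) - n) + θ * ((l:ℝ) - n))) * (t + j))) := by
    intro j _
    have := diff_expand n (√2 * (t + j)) (√2 * θ * (t + j)) β
    have e : (wp θ (-β) (t + j) ^ n - wp θ β (t + j) ^ n) = cos (π * (√2 * (t + j))) ^ (2*n) *
      (cos (π * (√2 * θ * (t + j) - β)) ^ (2*n) - cos (π * (√2 * θ * (t + j) + β)) ^ (2*n)) := by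
      unfold wp
      rw [mul_pow, mul_pow, ← pow_mul, ← pow_mul, ← pow_mul, sub_eq_add_neg (√2 * θ * (t + j)) β]
      ring
    rw [e, this]
    refine sum_congr rfl fun k _ => sum_congr rfl fun l _ => ?_
    congr 3
    ring
  rw [sum_congr rfl h, sum_comm]
  refine sum_congr rfl fun k _ => ?_
  rw [sum_comm]
  refine sum_congr rfl fun l _ => ?_
  rw [← mul_sum, ← mul_sum]

end Pool.Agent.H84_hrt
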