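import Pool.Agent.H84_hrt.Defs
import Pool.Agent.H84_hrt.Trig
import Pool.Agent.H84_hrt.Arith

open Real Finset

namespace Pool.Agent.H84_hrt

/-- data of one scale: `θ q = p + δ`, `β q = z - η`. -/
structure Scale (θ β : ℝ) (q p : ℕ) (δ η : ℝ) : Prop where
  hq : 0 < q
  hpq : p ≤ q
  hcop : Nat.Coprime p q
  hθ : θ * q = p + δ
  hδ : 0 < δ
  hβ : ∃ z : ℤ, β * q = z - η
  hη : 0 < η

lemma sin_two_pi_mul_int_sub (j z : ℤ) (x : ℝ) : sin (2 * π * (j * (z - x))) = - sin (2 * π * (j * x)) := by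
  have : 2 * π * (j * (z - x)) = ((j * z : ℤ) : ℝ) * (2 * π) - 2 * π * (j * x) := by push_cast; ring
  rw [this, sin_int_mul_two_pi_sub]

lemma main_family_pos {θ β : ℝ} {q p : ℕ} {δ η : ℝ} (h : Scale θ β q p δ η)
    (ns : ℕ) (hns : 1 ≤ ns) (hsmall : 16 * (δ * ns^2 * q) ≤ 1) (hηs : 4 * (η * ns) ≤ q)
    (N : ℕ) (t : ℝ) (ht0 : 0 ≤ t) (ht1 : t ≤ 1) (j : ℤ) (hj : 0 ≤ j) (hjB : j * q ≤ ns) :
    -1 ≤ sin (2 * π * (j * η)) * V N (√2 * (j * δ)) t := by
  have hq' : (1:ℝ) ≤ q := by exact_mod_cast h.hq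
  have hn' : (1:ℝ) ≤ ns := by exact_mod_cast hns
  have hδ := h.hδ
  have hη := h.hη
  have hj' : (0:ℝ) ≤ j := by exact_mod_cast hj
  have hjB' : (j:ℝ) * q ≤ ns := by exact_mod_cast hjB
  have h2a : √2 < 1.415 := by rw [Real.sqrt_lt' (by norm_num)]; norm_num
  rcases hj.eq_or_lt with h0 | hpos
  · rw [← h0]; simp
  have hjpos : (0:ℝ) < j := by exact_mod_cast hpos
  have hlam : √2 * (j * δ) ≤ 1/2 := by
    have h1 : (j:ℝ) * δ ≤ ns * δ := by
      apply mul_le_mul_of_nonneg_right _ hδ.le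
      nlinarith
    have h2 : ns * δ ≤ δ * ns^2 * q := by
      have : ns * δ * 1 ≤ ns * δ * (ns * q) := by
        apply mul_le_mul_of_nonneg_left _ (by positivity)
        nlinarith
      nlinarith
    have h3 : (j:ℝ) * δ ≤ 1/16 := by linarith
    nlinarith [Real.sqrt_nonneg 2]
  have hV := V_ge N (√2 * (j * δ)) t (by positivity) hlam ht0 ht1
  have hjη : (j:ℝ) * η ≤ 1/4 := by
    have : (j:ℝ) * η * q ≤ q / 4 := by nlinarith
    by_contra hcon
    push Not at hcon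
    have : (1/4:ℝ) * q < j * η * q := by apply mul_lt_mul_of_pos_right hcon; linarith
    linarith
  have hs0 : 0 ≤ sin (2 * π * (j * η)) := by
    apply sin_nonneg_of_nonneg_of_le_pi (by positivity)
    nlinarith [pi_pos]
  have hs1 := sin_le_one (2 * π * (j * η))
  have hVge : -0.62 ≤ V N (√2 * (j * δ)) t := by linarith
  nlinarith

lemma term_bound {θ β : ℝ} {q p : ℕ} {δ η : ℝ} (h : Scale θ β q p δ η)
    (ns : ℕ) (hns : 1 ≤ ns) (hsmall : 16 * (δ * ns^2 * q) ≤ 1) (hηs : 4 * (η * ns) ≤ q)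
    (N : ℕ) (t : ℝ) (ht0 : 0 ≤ t) (ht1 : t ≤ 1) (A B : ℤ) (hA : |A| ≤ ns) (hB : |B| ≤ ns) :
    2 * sin (2 * π * B * β) * V N (√2 * (A + θ * B)) t ≤ 20 * (q:ℝ)^2 * ns + 2 := by
  have hq' : (1:ℝ) ≤ q := by exact_mod_cast h.hq
  have hn' : (1:ℝ) ≤ ns := by exact_mod_cast hns
  by_cases hM : A * q + B * p = 0
  · -- main family
    obtain ⟨z, hz⟩ := h.hβ
    have hdvd : (q:ℤ) ∣ B := by
      have h1 : (q:ℤ) ∣ B * p := by
        refine ⟨-A, ?_⟩
        linarith
      exact (Nat.isCoprime_iff_coprime.2 h.hcop.symm : IsCoprime (q:ℤ) p).dvd_of_dvd_mul_right h1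
    obtain ⟨j, hj⟩ := hdvd
    have hq0 : (q:ℤ) ≠ 0 := by exact_mod_cast h.hq.ne'
    have hAj : A = -(j * p) := by
      have : (q:ℤ) * (A + j * p) = 0 := by rw [hj] at hM; linarith
      rcases mul_eq_zero.1 this with h1 | h1
      · exact absurd h1 hq0
      · linarith
    have e1 : (B:ℝ) = j * q := by rw [hj]; push_cast; ring
    have e2 : (A:ℝ) = -(j * p) := by rw [hAj]; push_cast; ring
    have e3 : √2 * ((A:ℝ) + θ * B) = √2 * (j * δ) := by
      rw [e1, e2]
      have : -((j:ℝ) * p) + θ * (j * q) = j * (θ * q - p) := by ring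
      rw [this, h.hθ]; ring
    have e4 : sin (2 * π * B * β) = - sin (2 * π * (j * η)) := by
      rw [← sin_two_pi_mul_int_sub j z η, ← hz, e1]; ring_nf
    rw [e3, e4]
    have key : -1 ≤ sin (2 * π * (j * η)) * V N (√2 * (j * δ)) t := by
      rcases le_total 0 j with hj0 | hj0
      · apply main_family_pos h ns hns hsmall hηs N t ht0 ht1 j hj0
        have : |B| = j * q := by rw [hj, abs_mul, abs_of_nonneg hj0]; simp [mul_comm]
        rw [← this]; exact hB
      · have := main_family_pos h ns hns hsmall hηs N t ht0 ht1 (-j) (by linarith) (by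
          have : |B| = -j * q := by rw [hj, abs_mul, abs_of_nonpos hj0]; simp [mul_comm]
          rw [← this]; exact hB)
        have e5 : (2 * π * (((-j : ℤ):ℝ) * η)) = -(2 * π * (j * η)) := by push_cast; ring
        have e6 : (√2 * (((-j : ℤ):ℝ) * δ)) = -(√2 * (j * δ)) := by push_cast; ring
        rw [e5, e6, sin_neg, V_neg] at this
        linarith
    have : 0 ≤ 20 * (q:ℝ)^2 * ns := by positivity
    linarith
  · have hnr := nonres θ δ q p h.hq h.hpq h.hθ h.hδ.le ns hns hsmall A B hA hB hM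
    have hV := abs_V_le N (√2 * (A + θ * B)) t _ (by positivity) hnr
    rw [one_div_one_div] at hV
    have hs := abs_sin_le_one (2 * π * B * β)
    have : |2 * sin (2 * π * B * β) * V N (√2 * (A + θ * B)) t| ≤ 2 * (10 * (q:ℝ)^2 * ns) := by
      rw [abs_mul, abs_mul, abs_two]
      have := mul_le_mul hs hV (abs_nonneg _) zero_le_one
      linarith
    have := le_abs_self (2 * sin (2 * π * B * β) * V N (√2 * (A + θ * B)) t)
    linarith

lemma term_main {θ β : ℝ} {q p : ℕ} {δ η : ℝ} (h : Scale θ β q p δ η)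
    (hη4 : η ≤ 1/4) (N : ℕ) (hN : 3 ≤ N) (hNδ : δ * (N + 1/2) ≤ 1/3)
    (t : ℝ) (ht0 : 0 ≤ t) (ht1 : t ≤ 1) :
    2 * sin (2 * π * (q:ℝ) * β) * V N (√2 * (-(p:ℝ) + θ * q)) t ≤ -(2 * (η * δ * N^2)) := by
  obtain ⟨z, hz⟩ := h.hβ
  have hδ := h.hδ
  have hη := h.hη
  have h2a : √2 < 1.415 := by rw [Real.sqrt_lt' (by norm_num)]; norm_num
  have h2b : 1 ≤ √2 := by rw [Real.one_le_sqrt]; norm_num
  have e3 : √2 * (-(p:ℝ) + θ * q) = √2 * δ := by rw [h.hθ]; ring
  have e4 : sin (2 * π * (q:ℝ) * β) = - sin (2 * π * η) := by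
    have := sin_two_pi_mul_int_sub 1 z η
    rw [← hz] at this
    push_cast at this
    rw [one_mul, one_mul] at this
    rw [← this]; ring_nf
  rw [e3, e4]
  have hN0 : (0:ℝ) ≤ N := by positivity
  have hV := V_ge_main N hN (√2 * δ) t (by positivity) (by
    have : √2 * δ * (N + 1/2) = √2 * (δ * (N + 1/2)) := by ring
    rw [this]; nlinarith) ht0 ht1
  have hs : 4 * η ≤ sin (2 * π * η) := by
    have := mul_le_sin (x := 2 * π * η) (by positivity) (by nlinarith [pi_pos])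
    have e : 2 / π * (2 * π * η) = 4 * η := by field_simp; norm_num
    linarith
  have h5 : δ * N^2 / 4 ≤ V N (√2 * δ) t := by
    refine le_trans ?_ hV
    have : δ * N^2 ≤ √2 * δ * N^2 := by
      have : 0 ≤ δ * N^2 := by positivity
      nlinarith
    linarith
  have h6 : 4 * η * (δ * N^2 / 4) ≤ sin (2 * π * η) * V N (√2 * δ) t := by
    apply mul_le_mul hs h5 (by positivity)
    exact le_trans (by positivity) hs
  nlinarith

end Pool.Agent.H84_hrt
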